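import Pool.Agent.W_MP_6ffb05_co.Key

set_option autoImplicit false

open Set Topology unitInterval Filter

namespace Pool.Agent.W_MP_6ffb05_co

open Classical in
/-- continuous square root of `γ - p` along `[0,1]` -/
noncomputable def sq (γ : ℝ → ℂ) (p : ℂ) : ℝ → ℂ :=
  if h : ∃ g : ℝ → ℂ, ContinuousOn g (Icc 0 1) ∧ ∀ t ∈ Icc (0:ℝ) 1, g t ^ 2 = γ t - p then h.choose else 0

lemma sq_spec {γ : ℝ → ℂ} {p : ℂ} (hγ : ContinuousOn γ (Icc 0 1)) (hp : p ∉ γ '' Icc 0 1) :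
    ContinuousOn (sq γ p) (Icc 0 1) ∧ ∀ t ∈ Icc (0:ℝ) 1, sq γ p t ^ 2 = γ t - p := by
  have h : ∃ g : ℝ → ℂ, ContinuousOn g (Icc 0 1) ∧ ∀ t ∈ Icc (0:ℝ) 1, g t ^ 2 = γ t - p := by
    apply exists_sqrt_Icc (fun t => γ t - p) (hγ.sub continuousOn_const)
    intro t ht h0
    exact hp ⟨t, ht, sub_eq_zero.mp h0⟩
  unfold sq
  rw [dif_pos h]
  exact h.choose_spec

lemma sq_ne {γ : ℝ → ℂ} {p : ℂ} (hγ : ContinuousOn γ (Icc 0 1)) (hp : p ∉ γ '' Icc 0 1) {t : ℝ}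
    (ht : t ∈ Icc (0:ℝ) 1) : sq γ p t ≠ 0 := by
  intro h
  have := (sq_spec hγ hp).2 t ht
  rw [h] at this
  apply hp
  refine ⟨t, ht, ?_⟩
  have h2 : γ t - p = 0 := by rw [← this]; simp
  exact sub_eq_zero.mp h2

noncomputable def RR (γ : ℝ → ℂ) (p : ℂ) : ℂ := sq γ p 1 / sq γ p 0

lemma zero_mem_I : (0:ℝ) ∈ Icc (0:ℝ) 1 := ⟨le_rfl, zero_le_one⟩
lemma one_mem_I : (1:ℝ) ∈ Icc (0:ℝ) 1 := ⟨zero_le_one, le_rfl⟩

lemma RR_ne {γ : ℝ → ℂ} {p : ℂ} (hγ : ContinuousOn γ (Icc 0 1)) (hp : p ∉ γ '' Icc 0 1) :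
    RR γ p ≠ 0 := div_ne_zero (sq_ne hγ hp one_mem_I) (sq_ne hγ hp zero_mem_I)

lemma RR_sq {γ : ℝ → ℂ} {p : ℂ} (hγ : ContinuousOn γ (Icc 0 1)) (hp : p ∉ γ '' Icc 0 1) :
    RR γ p ^ 2 = (γ 1 - p) / (γ 0 - p) := by
  unfold RR
  rw [div_pow, (sq_spec hγ hp).2 1 one_mem_I, (sq_spec hγ hp).2 0 zero_mem_I]

lemma RR_ratio {γ : ℝ → ℂ} {p q : ℂ} (hγ : ContinuousOn γ (Icc 0 1)) (hp : p ∉ γ '' Icc 0 1)
    (hq : q ∉ γ '' Icc 0 1) (G : ℝ → ℂ) (hG : ContinuousOn G (Icc 0 1))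
    (hG2 : ∀ t ∈ Icc (0:ℝ) 1, G t ^ 2 = (γ t - q) / (γ t - p)) :
    RR γ q = RR γ p * (G 1 / G 0) := by
  obtain ⟨ε, hε, h⟩ := sqrt_unique (isPreconnected_Icc (a := (0:ℝ)) (b := 1)) hG
    ((sq_spec hγ hq).1.div (sq_spec hγ hp).1 (fun t ht => sq_ne hγ hp ht))
    (fun t ht => by
      rw [hG2 t ht, Pi.div_apply, div_pow, (sq_spec hγ hq).2 t ht, (sq_spec hγ hp).2 t ht])
    (fun t ht => div_ne_zero (sq_ne hγ hq ht) (sq_ne hγ hp ht))
  have e1 := h 1 one_mem_I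
  have e0 := h 0 zero_mem_I
  rw [Pi.div_apply] at e1 e0
  rw [e1, e0]
  unfold RR
  have hεne : ε ≠ 0 := by rcases hε with rfl | rfl <;> norm_num
  have a1 := sq_ne hγ hq one_mem_I
  have a2 := sq_ne hγ hq zero_mem_I
  have a3 := sq_ne hγ hp one_mem_I
  have a4 := sq_ne hγ hp zero_mem_I
  field_simp

/-- global version -/
lemma RR_global {γ : ℝ → ℂ} {p q : ℂ} (hγ : ContinuousOn γ (Icc 0 1)) (hp : p ∉ γ '' Icc 0 1)
    (hq : q ∉ γ '' Icc 0 1) (S : Set ℂ) (hS : γ '' Icc 0 1 ⊆ S) (h : ℂ → ℂ) (hh : ContinuousOn h S)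
    (hsq : ∀ z ∈ S, h z ^ 2 = (z - q) / (z - p)) :
    RR γ q = RR γ p * (h (γ 1) / h (γ 0)) := by
  apply RR_ratio hγ hp hq (fun t => h (γ t))
  · exact hh.comp hγ (fun t ht => hS ⟨t, ht, rfl⟩)
  · intro t ht
    exact hsq _ (hS ⟨t, ht, rfl⟩)

/-- a closed chain of three paths -/
structure Chain where
  γ : Fin 3 → ℝ → ℂ
  cont : ∀ i, ContinuousOn (γ i) (Icc 0 1)
  closed : ∀ i, γ i 1 = γ (i + 1) 0

namespace Chain

variable (C : Chain)

def K : Set ℂ := ⋃ i, C.γ i '' Icc 0 1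

lemma notMem {p : ℂ} (hp : p ∉ C.K) (i : Fin 3) : p ∉ C.γ i '' Icc 0 1 :=
  fun h => hp (mem_iUnion.mpr ⟨i, h⟩)

lemma K_compact : IsCompact C.K := isCompact_iUnion fun i => isCompact_Icc.image_of_continuousOn (C.cont i)

noncomputable def chi (p : ℂ) : ℂ := ∏ i, RR (C.γ i) p

lemma prod_tele (F : ℂ → ℂ) : ∏ i, F (C.γ i 1) = ∏ i, F (C.γ i 0) := by
  have : ∏ i, F (C.γ i 1) = ∏ i, F (C.γ (i + 1) 0) := by
    apply Finset.prod_congr rfl
    intro i _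
    rw [C.closed i]
  rw [this]
  exact Equiv.prod_comp (Equiv.addRight (1 : Fin 3)) (fun i => F (C.γ i 0))

lemma chi_sq {p : ℂ} (hp : p ∉ C.K) : C.chi p ^ 2 = 1 := by
  unfold chi
  rw [← Finset.prod_pow]
  have : ∀ i ∈ (Finset.univ : Finset (Fin 3)), RR (C.γ i) p ^ 2 = (C.γ i 1 - p) / (C.γ i 0 - p) :=
    fun i _ => RR_sq (C.cont i) (C.notMem hp i)
  rw [Finset.prod_congr rfl this, Finset.prod_div_distrib, C.prod_tele (fun z => z - p), div_self]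
  rw [Finset.prod_ne_zero_iff]
  intro i _ h
  exact C.notMem hp i ⟨0, zero_mem_I, sub_eq_zero.mp h⟩

lemma chi_pm {p : ℂ} (hp : p ∉ C.K) : C.chi p = 1 ∨ C.chi p = -1 := by
  have := C.chi_sq hp
  rw [pow_two] at this
  exact mul_self_eq_one_iff.mp this

lemma chi_global {p q : ℂ} (hp : p ∉ C.K) (hq : q ∉ C.K) (h : ℂ → ℂ) (hh : ContinuousOn h C.K)
    (hsq : ∀ z ∈ C.K, h z ^ 2 = (z - q) / (z - p)) : C.chi q = C.chi p := by
  have hne : ∀ z ∈ C.K, h z ≠ 0 := by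
    intro z hz h0
    have := hsq z hz
    rw [h0] at this
    have h3 : (z - q) / (z - p) ≠ 0 :=
      div_ne_zero (sub_ne_zero.mpr (fun e => hq (e ▸ hz))) (sub_ne_zero.mpr (fun e => hp (e ▸ hz)))
    apply h3
    rw [← this]; simp
  unfold chi
  have : ∀ i ∈ (Finset.univ : Finset (Fin 3)), RR (C.γ i) q = RR (C.γ i) p * (h (C.γ i 1) / h (C.γ i 0)) :=
    fun i _ => RR_global (C.cont i) (C.notMem hp i) (C.notMem hq i) C.K
      (subset_iUnion (fun i => C.γ i '' Icc 0 1) i) h hh hsq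
  rw [Finset.prod_congr rfl this, Finset.prod_mul_distrib, Finset.prod_div_distrib, C.prod_tele h, div_self,
    mul_one]
  rw [Finset.prod_ne_zero_iff]
  intro i _
  exact hne _ (mem_iUnion.mpr ⟨i, ⟨0, zero_mem_I, rfl⟩⟩)

lemma chi_near {p : ℂ} (hp : p ∉ C.K) : ∀ᶠ q in 𝓝 p, q ∉ C.K ∧ C.chi q = C.chi p := by
  have hKc : IsClosed C.K := C.K_compact.isClosed
  obtain ⟨δ, hδ, hball⟩ := Metric.isOpen_iff.mp hKc.isOpen_compl p hp
  filter_upwards [Metric.ball_mem_nhds p hδ] with q hq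
  have hq' : q ∉ C.K := hball hq
  refine ⟨hq', ?_⟩
  have hdist : ∀ z ∈ C.K, δ ≤ ‖z - p‖ := by
    intro z hz
    by_contra hc
    push Not at hc
    exact hball (by rw [Metric.mem_ball, dist_eq_norm]; exact hc) hz
  have hqp : ‖q - p‖ < δ := by rw [← dist_eq_norm]; exact hq
  have hne : ∀ z ∈ C.K, z - p ≠ 0 := fun z hz => sub_ne_zero.mpr (fun e => hp (e ▸ hz))
  have hslit : ∀ z ∈ C.K, (z - q) / (z - p) ∈ Complex.slitPlane := by
    intro z hz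
    left
    have e : (z - q) / (z - p) = 1 + (p - q) / (z - p) := by
      have := hne z hz
      field_simp
      ring
    rw [e, Complex.add_re, Complex.one_re]
    have h1 : ‖(p - q) / (z - p)‖ < 1 := by
      rw [norm_div, div_lt_one (norm_pos_iff.mpr (hne z hz)), norm_sub_rev]
      exact lt_of_lt_of_le hqp (hdist z hz)
    have h2 := (abs_le.mp (Complex.abs_re_le_norm ((p - q) / (z - p)))).1
    linarith
  apply C.chi_global hp hq' (fun z => Complex.exp (Complex.log ((z - q) / (z - p)) / 2))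
  · apply ContinuousOn.cexp
    apply ContinuousOn.div_const
    apply ContinuousOn.clog
    · apply ContinuousOn.div (by fun_prop) (by fun_prop)
      intro z hz
      exact hne z hz
    · exact hslit
  · intro z hz
    rw [← Complex.exp_nat_mul]
    have : ((2:ℕ):ℂ) * (Complex.log ((z - q) / (z - p)) / 2) = Complex.log ((z - q) / (z - p)) := by
      push_cast; ring
    rw [this, Complex.exp_log (Complex.slitPlane_ne_zero (hslit z hz))]

lemma chi_continuousOn : ContinuousOn C.chi C.Kᶜ := by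
  intro p hp
  apply ContinuousAt.continuousWithinAt
  have : (fun _ => C.chi p) =ᶠ[𝓝 p] C.chi := by
    filter_upwards [C.chi_near hp] with q hq
    exact hq.2.symm
  exact ContinuousAt.congr continuousAt_const this

lemma chi_const {S : Set ℂ} (hS : IsPreconnected S) (hd : ∀ z ∈ S, z ∉ C.K) {p q : ℂ} (hp : p ∈ S)
    (hq : q ∈ S) : C.chi p = C.chi q := by
  have hfin : ({1, -1} : Set ℂ).Finite := by simp
  refine hS.constant_of_mapsTo (T := ({1, -1} : Set ℂ)) hfin.isDiscrete (C.chi_continuousOn.mono hd) ?_ hp hq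
  intro z hz
  rcases C.chi_pm (hd z hz) with h | h <;> rw [h] <;> simp

/-- constancy along a path piece -/
lemma chi_const_path (η : ℝ → ℂ) {J : Set ℝ} (hJ : IsPreconnected J) (hη : ContinuousOn η J)
    (hd : ∀ u ∈ J, η u ∉ C.K) {u v : ℝ} (hu : u ∈ J) (hv : v ∈ J) : C.chi (η u) = C.chi (η v) :=
  C.chi_const (hJ.image η hη) (by rintro _ ⟨u, hu, rfl⟩; exact hd u hu) ⟨u, hu, rfl⟩ ⟨v, hv, rfl⟩

end Chain

section cross

variable (φ : OpenPartialHomeomorph ℂ ℂ) (R v1 v2 : ℝ)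
  (h1 : 0 < v1) (h1' : v1 < R) (h2 : 0 < v2) (h2' : v2 < R)
  (hball : Metric.ball 0 R ⊆ φ.target)

include h1 h1' h2 h2' hball in
/-- the transition of a path crossing the segment once -/
lemma RR_cross (c : C(I, ℂ)) (hc0 : c 0 = φ.symm (((-v1 : ℝ) : ℂ) * Complex.I))
    (hc1 : c 1 = φ.symm ((v2 : ℂ) * Complex.I))
    (hc : ∀ z, z ∈ range c ↔ ∃ y ∈ Icc (-v1) v2, z = φ.symm ((y:ℂ) * Complex.I))
    (h : ℂ → ℂ) (hh : ContinuousOn h (range c)ᶜ) (hsq : ∀ z ∈ (range c)ᶜ, h z ^ 2 = (z - c 1) / (z - c 0))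
    (γ : ℝ → ℂ) (hγ : ContinuousOn γ (Icc 0 1)) (t0 : ℝ) (ht0 : t0 ∈ Ioo (0:ℝ) 1)
    (honce : ∀ t ∈ Icc (0:ℝ) 1, γ t ∈ range c → t = t0)
    (hp : c 0 ∉ γ '' Icc 0 1) (hq : c 1 ∉ γ '' Icc 0 1)
    (hsrc : γ t0 ∈ φ.source) (hV0 : φ (γ t0) ∈ VV R v1 v2) (s : ℂ) (hs : s = 1 ∨ s = -1)
    (hl : ∀ᶠ t in 𝓝[<] t0, γ t ∈ φ.source ∧ φ (γ t) ∈ VV R v1 v2 ∧ 0 < (s * (φ (γ t))).re)
    (hr : ∀ᶠ t in 𝓝[>] t0, γ t ∈ φ.source ∧ φ (γ t) ∈ VV R v1 v2 ∧ (s * (φ (γ t))).re < 0) :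
    RR γ (c 1) = RR γ (c 0) * (-(h (γ 1) / h (γ 0))) := by
  -- the function k
  have hVt : VV R v1 v2 ⊆ φ.target := fun v hv => hball hv.1.1
  have hne : ∀ v ∈ VV R v1 v2, (φ.symm v - c 1) ≠ 0 ∧ (φ.symm v - c 0) ≠ 0 := by
    intro v hv
    have hinj : ∀ y ∈ Icc (-v1) v2, φ.symm v = φ.symm ((y:ℂ) * Complex.I) → v = (y:ℂ) * Complex.I := by
      intro y hy he
      exact φ.symm.injOn (by simpa using hVt hv)
        (by simpa using hball (imag_mem_ball R v1 v2 h1' h2' hy)) he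
    constructor
    · intro he
      have he' := sub_eq_zero.mp he
      rw [hc1] at he'
      have := hinj v2 ⟨by linarith, le_rfl⟩ he'
      have h3 := hv.2
      simp only [mem_ofPred_eq] at h3
      rw [this] at h3
      simp at h3
    · intro he
      have he' := sub_eq_zero.mp he
      rw [hc0] at he'
      have := hinj (-v1) ⟨le_rfl, by linarith⟩ he'
      have h3 := hv.1.2
      simp only [mem_ofPred_eq] at h3
      rw [this] at h3
      simp at h3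
  have hsymc : ContinuousOn φ.symm (VV R v1 v2) := φ.continuousOn_symm.mono hVt
  obtain ⟨k, hk, hksq⟩ := exists_sqrt_convex (VV R v1 v2) (VV_convex R v1 v2)
    (zero_mem_VV R v1 v2 h1 h1' h2) (fun v => (φ.symm v - c 1) / (φ.symm v - c 0))
    ((hsymc.sub continuousOn_const).div (hsymc.sub continuousOn_const) (fun v hv => (hne v hv).2))
    (fun v hv => div_ne_zero (hne v hv).1 (hne v hv).2)
  have hkne : ∀ v ∈ VV R v1 v2, k v ≠ 0 := by
    intro v hv h0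
    have h4 := hksq v hv
    rw [h0] at h4
    apply div_ne_zero (hne v hv).1 (hne v hv).2
    rw [← h4]; simp
  obtain ⟨ε, hε, hεR, hεL⟩ := key φ R v1 v2 h1 h1' h2 h2' hball c hc0 hc1 hc h hh hsq k hk hksq
  -- a continuous square root G along γ
  have hne0 : ∀ t ∈ Icc (0:ℝ) 1, γ t - c 0 ≠ 0 := fun t ht e => hp ⟨t, ht, sub_eq_zero.mp e⟩
  have hne1 : ∀ t ∈ Icc (0:ℝ) 1, γ t - c 1 ≠ 0 := fun t ht e => hq ⟨t, ht, sub_eq_zero.mp e⟩
  obtain ⟨G, hG, hG2⟩ := exists_sqrt_Icc (fun t => (γ t - c 1) / (γ t - c 0))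
    ((hγ.sub continuousOn_const).div (hγ.sub continuousOn_const) hne0)
    (fun t ht => div_ne_zero (hne1 t ht) (hne0 t ht))
  have hrat := RR_ratio hγ hp hq G hG hG2
  have hhne : ∀ z ∈ (range c)ᶜ, h z ≠ 0 := by
    intro z hz h0
    have h4 := hsq z hz
    rw [h0] at h4
    have h5 : (z - c 1) / (z - c 0) ≠ 0 := by
      apply div_ne_zero
      · intro e; apply hz; rw [sub_eq_zero.mp e]; exact mem_range_self _
      · intro e; apply hz; rw [sub_eq_zero.mp e]; exact mem_range_self _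
    apply h5; rw [← h4]; simp
  have hout : ∀ t ∈ Icc (0:ℝ) 1, t ≠ t0 → γ t ∈ (range c)ᶜ := fun t ht hne hm => hne (honce t ht hm)
  obtain ⟨ε1, hε1, hG1⟩ : ∃ ε : ℂ, (ε = 1 ∨ ε = -1) ∧ ∀ t ∈ Ico 0 t0, G t = ε * h (γ t) := by
    refine sqrt_unique (g := fun t => h (γ t)) isPreconnected_Ico ?_ ?_ ?_ ?_
    · exact hG.mono (fun t ht => ⟨ht.1, by linarith [ht.2, ht0.2]⟩)
    · apply hh.comp (hγ.mono (fun t ht => ⟨ht.1, by linarith [ht.2, ht0.2]⟩))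
      intro t ht
      exact hout t ⟨ht.1, by linarith [ht.2, ht0.2]⟩ (ne_of_lt ht.2)
    · intro t ht
      have ht' : t ∈ Icc (0:ℝ) 1 := ⟨ht.1, by linarith [ht.2, ht0.2]⟩
      rw [hG2 t ht', hsq _ (hout t ht' (ne_of_lt ht.2))]
    · intro t ht
      have ht' : t ∈ Icc (0:ℝ) 1 := ⟨ht.1, by linarith [ht.2, ht0.2]⟩
      exact hhne _ (hout t ht' (ne_of_lt ht.2))
  obtain ⟨ε2, hε2, hG2'⟩ : ∃ ε : ℂ, (ε = 1 ∨ ε = -1) ∧ ∀ t ∈ Ioc t0 1, G t = ε * h (γ t) := by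
    refine sqrt_unique (g := fun t => h (γ t)) isPreconnected_Ioc ?_ ?_ ?_ ?_
    · exact hG.mono (fun t ht => ⟨by linarith [ht.1, ht0.1], ht.2⟩)
    · apply hh.comp (hγ.mono (fun t ht => ⟨by linarith [ht.1, ht0.1], ht.2⟩))
      intro t ht
      exact hout t ⟨by linarith [ht.1, ht0.1], ht.2⟩ (ne_of_gt ht.1)
    · intro t ht
      have ht' : t ∈ Icc (0:ℝ) 1 := ⟨by linarith [ht.1, ht0.1], ht.2⟩
      rw [hG2 t ht', hsq _ (hout t ht' (ne_of_gt ht.1))]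
    · intro t ht
      have ht' : t ∈ Icc (0:ℝ) 1 := ⟨by linarith [ht.1, ht0.1], ht.2⟩
      exact hhne _ (hout t ht' (ne_of_gt ht.1))
  -- limits
  have hγt0 : ContinuousAt γ t0 := hγ.continuousAt (Icc_mem_nhds ht0.1 ht0.2)
  have hGt0 : ContinuousAt G t0 := hG.continuousAt (Icc_mem_nhds ht0.1 ht0.2)
  have hkt0 : ContinuousAt (fun t => k (φ (γ t))) t0 := by
    have h5 : ContinuousAt k (φ (γ t0)) := hk.continuousAt ((VV_open R v1 v2).mem_nhds hV0)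
    have h6 : ContinuousAt (fun t => φ (γ t)) t0 :=
      ContinuousAt.comp (f := γ) (g := φ) (φ.continuousAt hsrc) hγt0
    exact ContinuousAt.comp (f := fun t => φ (γ t)) (g := k) h5 h6
  have hquot : ContinuousAt (fun t => G t / k (φ (γ t))) t0 := hGt0.div hkt0 (hkne _ hV0)
  have hsε : ∀ t, γ t ∈ φ.source → φ (γ t) ∈ VV R v1 v2 → 0 < (s * φ (γ t)).re →
      h (γ t) = ε * s * k (φ (γ t)) := by
    intro t ht1 ht2 ht3
    have hinv : φ.symm (φ (γ t)) = γ t := φ.left_inv ht1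
    rcases hs with rfl | rfl
    · rw [one_mul] at ht3
      have := hεR _ ht2 ht3
      rw [hinv] at this
      rw [this]; ring
    · have ht3' : (φ (γ t)).re < 0 := by simpa using ht3
      have := hεL _ ht2 ht3'
      rw [hinv] at this
      rw [this]; ring
  have hsε' : ∀ t, γ t ∈ φ.source → φ (γ t) ∈ VV R v1 v2 → (s * φ (γ t)).re < 0 →
      h (γ t) = -(ε * s) * k (φ (γ t)) := by
    intro t ht1 ht2 ht3
    have hinv : φ.symm (φ (γ t)) = γ t := φ.left_inv ht1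
    rcases hs with rfl | rfl
    · rw [one_mul] at ht3
      have := hεL _ ht2 ht3
      rw [hinv] at this
      rw [this]; ring
    · have ht3' : 0 < (φ (γ t)).re := by simpa using ht3
      have := hεR _ ht2 ht3'
      rw [hinv] at this
      rw [this]; ring
  have lim1 : Tendsto (fun t => G t / k (φ (γ t))) (𝓝[<] t0) (𝓝 (ε1 * (ε * s))) := by
    apply tendsto_const_nhds.congr'
    have hI : ∀ᶠ t in 𝓝[<] t0, t ∈ Ico 0 t0 := by
      have : Ico 0 t0 ∈ 𝓝[<] t0 := Ico_mem_nhdsLT ht0.1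
      exact this
    filter_upwards [hl, hI] with t ht1 ht2
    rw [hG1 t ht2, hsε t ht1.1 ht1.2.1 ht1.2.2]
    have := hkne _ ht1.2.1
    field_simp
  have lim2 : Tendsto (fun t => G t / k (φ (γ t))) (𝓝[>] t0) (𝓝 (ε2 * (-(ε * s)))) := by
    apply tendsto_const_nhds.congr'
    have hI : ∀ᶠ t in 𝓝[>] t0, t ∈ Ioc t0 1 := by
      have : Ioc t0 1 ∈ 𝓝[>] t0 := Ioc_mem_nhdsGT ht0.2
      exact this
    filter_upwards [hr, hI] with t ht1 ht2
    rw [hG2' t ht2, hsε' t ht1.1 ht1.2.1 ht1.2.2]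
    have := hkne _ ht1.2.1
    field_simp
  have e1 := tendsto_nhds_unique lim1 (hquot.tendsto.mono_left nhdsWithin_le_nhds)
  have e2 := tendsto_nhds_unique lim2 (hquot.tendsto.mono_left nhdsWithin_le_nhds)
  have e3 : ε1 * (ε * s) = ε2 * (-(ε * s)) := by rw [e1, e2]
  have hes : ε * s ≠ 0 := by
    rcases hε with rfl | rfl <;> rcases hs with rfl | rfl <;> norm_num
  have e4 : ε1 = -ε2 := by
    have : (ε1 + ε2) * (ε * s) = 0 := by linear_combination e3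
    rcases mul_eq_zero.mp this with h6 | h6
    · linear_combination h6
    · exact absurd h6 hes
  rw [hrat, hG1 0 ⟨le_rfl, ht0.1⟩, hG2' 1 ⟨ht0.2, le_rfl⟩, e4]
  have hε2ne : ε2 ≠ 0 := by rcases hε2 with rfl | rfl <;> norm_num
  have hγ0 := hhne _ (hout 0 zero_mem_I (ne_of_lt ht0.1))
  congr 1
  field_simp

end cross

end Pool.Agent.W_MP_6ffb05_co
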