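import Pool.Agent.W_MP_6ffb05_co.Geom

set_option autoImplicit false

open Set Topology unitInterval Filter

namespace Pool.Agent.W_MP_6ffb05_co

variable {V : Type} {G : SimpleGraph V} (D : SimpleDrawing G)

namespace SimpleDrawing

lemma pt_mem_left {u v : V} (h : G.Adj u v) : D.pt u ∈ D.arc s(u, v) := (D.isArc u v h).left_mem
lemma pt_mem_right {u v : V} (h : G.Adj u v) : D.pt v ∈ D.arc s(u, v) := (D.isArc u v h).right_mem

/-- a vertex on an edge is one of its ends -/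
lemma mem_of_pt_mem {e : Sym2 V} (he : e ∈ G.edgeSet) {w : V} (h : D.pt w ∈ D.arc e) : w ∈ e := by
  induction e with
  | h u v =>
    rw [SimpleGraph.mem_edgeSet] at he
    by_contra hn
    rw [Sym2.mem_iff, not_or] at hn
    exact D.avoids u v w he hn.1 hn.2 h

lemma pt_mem_of_mem {e : Sym2 V} (he : e ∈ G.edgeSet) {w : V} (h : w ∈ e) : D.pt w ∈ D.arc e := by
  induction e with
  | h u v =>
    rw [SimpleGraph.mem_edgeSet] at he
    rw [Sym2.mem_iff] at h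
    rcases h with rfl | rfl
    · exact D.pt_mem_left he
    · exact D.pt_mem_right he

/-- common points of edges sharing an endpoint -/
lemma eq_pt_of_mem {e f : Sym2 V} (he : e ∈ G.edgeSet) (hf : f ∈ G.edgeSet) (hef : e ≠ f) {w : V}
    (hwe : w ∈ e) (hwf : w ∈ f) {z : ℂ} (hz : z ∈ D.arc e) (hz' : z ∈ D.arc f) : z = D.pt w :=
  (D.simple e he f hf hef).1 ⟨hz, hz'⟩ ⟨D.pt_mem_of_mem he hwe, D.pt_mem_of_mem hf hwf⟩

/-- crossing points -/
lemma proper_of_mem {e f : Sym2 V} (he : e ∈ G.edgeSet) (hf : f ∈ G.edgeSet) (hef : e ≠ f) {z : ℂ}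
    (hz : z ∈ D.arc e) (hz' : z ∈ D.arc f) (hnv : ∀ v, z ≠ D.pt v) :
    IsProperCrossing (D.arc e) (D.arc f) z := by
  rcases (D.simple e he f hf hef).2 z ⟨hz, hz'⟩ with ⟨v, _, _, h⟩ | h
  · exact absurd h (hnv v)
  · exact h

/-- edges crossing in a non vertex have no common vertex -/
lemma not_mem_of_cross {e f : Sym2 V} (he : e ∈ G.edgeSet) (hf : f ∈ G.edgeSet) (hef : e ≠ f) {z : ℂ}
    (hz : z ∈ D.arc e) (hz' : z ∈ D.arc f) (hnv : ∀ v, z ≠ D.pt v) {w : V} (hw : w ∈ e) : w ∉ f :=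
  fun hw' => hnv w (D.eq_pt_of_mem he hf hef hw hw' hz hz')

end SimpleDrawing

/-- Two edges `ab`, `cd` crossing at `x`, with the four half edges. -/
structure Ctx (a b c d : V) (x : ℂ) (XA XB XC XD : Set ℂ) : Prop where
  adj_ab : G.Adj a b
  adj_cd : G.Adj c d
  hac : a ≠ c
  had : a ≠ d
  hbc : b ≠ c
  hbd : b ≠ d
  jA : IsJordanArc XA (D.pt a) x
  jB : IsJordanArc XB (D.pt b) x
  jC : IsJordanArc XC (D.pt c) x
  jD : IsJordanArc XD (D.pt d) x
  uAB : XA ∪ XB = D.arc s(a, b)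
  iAB : XA ∩ XB = {x}
  uCD : XC ∪ XD = D.arc s(c, d)
  iCD : XC ∩ XD = {x}
  xnv : ∀ v, x ≠ D.pt v

namespace Ctx

variable {D} {a b c d : V} {x : ℂ} {XA XB XC XD : Set ℂ}

lemma swap_ab (h : Ctx D a b c d x XA XB XC XD) : Ctx D b a c d x XB XA XC XD where
  adj_ab := h.adj_ab.symm
  adj_cd := h.adj_cd
  hac := h.hbc
  had := h.hbd
  hbc := h.hac
  hbd := h.had
  jA := h.jB
  jB := h.jA
  jC := h.jC
  jD := h.jD
  uAB := by rw [union_comm, h.uAB, Sym2.eq_swap]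
  iAB := by rw [inter_comm, h.iAB]
  uCD := h.uCD
  iCD := h.iCD
  xnv := h.xnv

lemma swap_cd (h : Ctx D a b c d x XA XB XC XD) : Ctx D a b d c x XA XB XD XC where
  adj_ab := h.adj_ab
  adj_cd := h.adj_cd.symm
  hac := h.had
  had := h.hac
  hbc := h.hbd
  hbd := h.hbc
  jA := h.jA
  jB := h.jB
  jC := h.jD
  jD := h.jC
  uAB := h.uAB
  iAB := h.iAB
  uCD := by rw [union_comm, h.uCD, Sym2.eq_swap]
  iCD := by rw [inter_comm, h.iCD]
  xnv := h.xnv

lemma exists_ctx (D : SimpleDrawing G) {a b c d : V} (hab : G.Adj a b) (hcd : G.Adj c d) (hac : a ≠ c)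
    (had : a ≠ d) (hbc : b ≠ c) (hbd : b ≠ d) {x : ℂ} (hx1 : x ∈ D.arc s(a, b)) (hx2 : x ∈ D.arc s(c, d)) :
    ∃ XA XB XC XD, Ctx D a b c d x XA XB XC XD := by
  have xnv : ∀ v, x ≠ D.pt v := by
    rintro v rfl
    have h1 := D.mem_of_pt_mem (G.mem_edgeSet.mpr hab) hx1
    have h2 := D.mem_of_pt_mem (G.mem_edgeSet.mpr hcd) hx2
    rw [Sym2.mem_iff] at h1 h2
    rcases h1 with rfl | rfl <;> rcases h2 with h2 | h2
    · exact hac h2
    · exact had h2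
    · exact hbc h2
    · exact hbd h2
  obtain ⟨XA, XB, jA, jB, uAB, iAB⟩ := (D.isArc a b hab).split hx1 (xnv a) (xnv b)
  obtain ⟨XC, XD, jC, jD, uCD, iCD⟩ := (D.isArc c d hcd).split hx2 (xnv c) (xnv d)
  exact ⟨XA, XB, XC, XD, ⟨hab, hcd, hac, had, hbc, hbd, jA, jB, jC, jD, uAB, iAB, uCD, iCD, xnv⟩⟩

variable (h : Ctx D a b c d x XA XB XC XD)

include h

lemma ne_edges : s(a, b) ≠ s(c, d) := by
  intro he
  rw [Sym2.eq_iff] at he
  rcases he with ⟨h1, _⟩ | ⟨h1, _⟩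
  · exact h.hac h1
  · exact h.had h1

lemma A_sub : XA ⊆ D.arc s(a, b) := by rw [← h.uAB]; exact subset_union_left
lemma B_sub : XB ⊆ D.arc s(a, b) := by rw [← h.uAB]; exact subset_union_right
lemma C_sub : XC ⊆ D.arc s(c, d) := by rw [← h.uCD]; exact subset_union_left
lemma D_sub : XD ⊆ D.arc s(c, d) := by rw [← h.uCD]; exact subset_union_right

lemma x_ab : x ∈ D.arc s(a, b) := h.A_sub h.jA.right_mem
lemma x_cd : x ∈ D.arc s(c, d) := h.C_sub h.jC.right_mem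

/-- the two crossing edges only meet at `x` -/
lemma eq_x {z : ℂ} (hz : z ∈ D.arc s(a, b)) (hz' : z ∈ D.arc s(c, d)) : z = x :=
  (D.simple _ (G.mem_edgeSet.mpr h.adj_ab) _ (G.mem_edgeSet.mpr h.adj_cd) h.ne_edges).1 ⟨hz, hz'⟩
    ⟨h.x_ab, h.x_cd⟩

lemma a_notMem_B : D.pt a ∉ XB := by
  intro hm
  have : D.pt a ∈ XA ∩ XB := ⟨h.jA.left_mem, hm⟩
  rw [h.iAB] at this
  exact h.xnv a this.symm

/-- the chain `x → b → c → x` -/
lemma chain (hbc : G.Adj b c) : ∃ C : Chain, (∀ i, InjOn (C.γ i) (Icc 0 1)) ∧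
      C.γ 0 '' Icc 0 1 = XB ∧ C.γ 1 '' Icc 0 1 = D.arc s(b, c) ∧ C.γ 2 '' Icc 0 1 = XC ∧
      (C.γ 0 0 = x ∧ C.γ 0 1 = D.pt b) ∧ (C.γ 1 0 = D.pt b ∧ C.γ 1 1 = D.pt c) ∧
      (C.γ 2 0 = D.pt c ∧ C.γ 2 1 = x) :=
  chain_exists h.jB.symm (D.isArc b c hbc) h.jC

lemma ab_ne_bc : s(a, b) ≠ s(b, c) := by
  intro he
  rw [Sym2.eq_iff] at he
  rcases he with ⟨h1, h2⟩ | ⟨h1, h2⟩
  · exact h.adj_ab.ne h1
  · exact h.hac h1

lemma bc_ne_cd : s(b, c) ≠ s(c, d) := by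
  intro he
  rw [Sym2.eq_iff] at he
  rcases he with ⟨h1, h2⟩ | ⟨h1, h2⟩
  · exact h.hbc h1
  · exact h.hbd h1

/-- disjointness of pieces -/
lemma disj01 (hbc : G.Adj b c) {z : ℂ} (hz : z ∈ XB) (hz' : z ∈ D.arc s(b, c)) : z = D.pt b :=
  D.eq_pt_of_mem (G.mem_edgeSet.mpr h.adj_ab) (G.mem_edgeSet.mpr hbc) h.ab_ne_bc (by simp) (by simp)
    (h.B_sub hz) hz'

lemma disj12 (hbc : G.Adj b c) {z : ℂ} (hz : z ∈ D.arc s(b, c)) (hz' : z ∈ XC) : z = D.pt c :=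
  D.eq_pt_of_mem (G.mem_edgeSet.mpr hbc) (G.mem_edgeSet.mpr h.adj_cd) h.bc_ne_cd (by simp) (by simp)
    hz (h.C_sub hz')

/-- Parity along an edge `f` avoiding `b`, `c` and `x`. -/
lemma edge (hbc : G.Adj b c) (C : Chain) (hCi : ∀ i, InjOn (C.γ i) (Icc 0 1))
    (h0 : C.γ 0 '' Icc 0 1 = XB) (h1 : C.γ 1 '' Icc 0 1 = D.arc s(b, c)) (h2 : C.γ 2 '' Icc 0 1 = XC)
    (e0 : C.γ 0 0 = x ∧ C.γ 0 1 = D.pt b) (e1 : C.γ 1 0 = D.pt b ∧ C.γ 1 1 = D.pt c)
    (e2 : C.γ 2 0 = D.pt c ∧ C.γ 2 1 = x)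
    (u v : V) (huv : G.Adj u v) (hub : u ≠ b) (huc : u ≠ c) (hvb : v ≠ b) (hvc : v ≠ c)
    (hx : x ∉ D.arc s(u, v)) :
    C.chi (D.pt v) = (-1)^(ind (D.arc s(u, v)) XB + ind (D.arc s(u, v)) (D.arc s(b, c)) +
      ind (D.arc s(u, v)) XC) * C.chi (D.pt u) := by
  have hEf := G.mem_edgeSet.mpr huv
  have hEab := G.mem_edgeSet.mpr h.adj_ab
  have hEcd := G.mem_edgeSet.mpr h.adj_cd
  have hEbc := G.mem_edgeSet.mpr hbc
  have nab : s(a, b) ≠ s(u, v) := by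
    intro he
    have : b ∈ s(u, v) := he ▸ (by simp)
    rw [Sym2.mem_iff] at this
    rcases this with h3 | h3
    · exact hub h3.symm
    · exact hvb h3.symm
  have nbc : s(b, c) ≠ s(u, v) := by
    intro he
    have : b ∈ s(u, v) := he ▸ (by simp)
    rw [Sym2.mem_iff] at this
    rcases this with h3 | h3
    · exact hub h3.symm
    · exact hvb h3.symm
  have ncd : s(c, d) ≠ s(u, v) := by
    intro he
    have : c ∈ s(u, v) := he ▸ (by simp)
    rw [Sym2.mem_iff] at this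
    rcases this with h3 | h3
    · exact huc h3.symm
    · exact hvc h3.symm
  -- points of `f` on the pieces are not vertices
  have nvB : ∀ y ∈ XB, y ∈ D.arc s(u, v) → ∀ w, y ≠ D.pt w := by
    rintro y hy hyf w rfl
    have hw1 := D.mem_of_pt_mem hEab (h.B_sub hy)
    have hw2 := D.mem_of_pt_mem hEf hyf
    rw [Sym2.mem_iff] at hw1 hw2
    rcases hw1 with rfl | rfl
    · exact h.a_notMem_B hy
    · rcases hw2 with h3 | h3
      · exact hub h3.symm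
      · exact hvb h3.symm
  have nvbc : ∀ y ∈ D.arc s(b, c), y ∈ D.arc s(u, v) → ∀ w, y ≠ D.pt w := by
    rintro y hy hyf w rfl
    have hw1 := D.mem_of_pt_mem hEbc hy
    have hw2 := D.mem_of_pt_mem hEf hyf
    rw [Sym2.mem_iff] at hw1 hw2
    rcases hw1 with rfl | rfl
    · rcases hw2 with h3 | h3
      · exact hub h3.symm
      · exact hvb h3.symm
    · rcases hw2 with h3 | h3
      · exact huc h3.symm
      · exact hvc h3.symm
  have nvC : ∀ y ∈ XC, y ∈ D.arc s(u, v) → ∀ w, y ≠ D.pt w := by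
    rintro y hy hyf w rfl
    have hw1 := D.mem_of_pt_mem hEcd (h.C_sub hy)
    have hw2 := D.mem_of_pt_mem hEf hyf
    rw [Sym2.mem_iff] at hw1 hw2
    rcases hw1 with rfl | rfl
    · rcases hw2 with h3 | h3
      · exact huc h3.symm
      · exact hvc h3.symm
    · exact (h.swap_ab.swap_cd.swap_ab.swap_cd.swap_cd).swap_cd.swap_cd.xnv w (by
        have : D.pt w ∈ XC ∩ XD := ⟨hy, h.jD.left_mem⟩
        rw [h.iCD] at this
        exact this.symm)
  have key := edge_parity C hCi (D.arc s(u, v)) (D.pt u) (D.pt v) (D.isArc u v huv)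
    (by
      intro i
      fin_cases i
      · show (D.arc s(u, v) ∩ C.γ 0 '' Icc 0 1).Subsingleton
        rw [h0]
        exact (D.simple _ hEf _ hEab nab.symm).1.anti (inter_subset_inter_right _ h.B_sub)
      · show (D.arc s(u, v) ∩ C.γ 1 '' Icc 0 1).Subsingleton
        rw [h1]
        exact (D.simple _ hEf _ hEbc nbc.symm).1
      · show (D.arc s(u, v) ∩ C.γ 2 '' Icc 0 1).Subsingleton
        rw [h2]
        exact (D.simple _ hEf _ hEcd ncd.symm).1.anti (inter_subset_inter_right _ h.C_sub))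
    (by
      intro i
      fin_cases i
      · show ∀ y ∈ D.arc s(u, v) ∩ C.γ 0 '' Icc 0 1, y ≠ D.pt u ∧ y ≠ D.pt v ∧ y ≠ C.γ 0 0 ∧ y ≠ C.γ 0 1 ∧
          (∀ j, j ≠ 0 → y ∉ C.γ j '' Icc 0 1) ∧ ∃ φ : OpenPartialHomeomorph ℂ ℂ, y ∈ φ.source ∧ φ y = 0 ∧
          (∀ z ∈ φ.source, z ∈ C.γ 0 '' Icc 0 1 → (φ z).im = 0) ∧
          (∀ z ∈ φ.source, z ∈ D.arc s(u, v) → (φ z).re = 0)
        rw [h0]
        rintro y ⟨hyf, hyB⟩
        have nv := nvB y hyB hyf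
        refine ⟨nv u, nv v, ?_, ?_, ?_, ?_⟩
        · rw [e0.1]; rintro rfl; exact hx hyf
        · rw [e0.2]; exact nv b
        · intro j hj
          fin_cases j
          · exact absurd rfl hj
          · show y ∉ C.γ 1 '' Icc 0 1
            rw [h1]
            intro hy'
            exact nv b (h.disj01 hbc hyB hy')
          · show y ∉ C.γ 2 '' Icc 0 1
            rw [h2]
            intro hy'
            have := h.eq_x (h.B_sub hyB) (h.C_sub hy')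
            rw [this] at hyf
            exact hx hyf
        · obtain ⟨φ, p1, p2, p3⟩ := D.proper_of_mem hEab hEf nab (h.B_sub hyB) hyf nv
          exact ⟨φ, p1, p2, fun z hz hz' => ((p3 z hz).1).mp (h.B_sub hz'), fun z hz hz' => ((p3 z hz).2).mp hz'⟩
      · show ∀ y ∈ D.arc s(u, v) ∩ C.γ 1 '' Icc 0 1, y ≠ D.pt u ∧ y ≠ D.pt v ∧ y ≠ C.γ 1 0 ∧ y ≠ C.γ 1 1 ∧
          (∀ j, j ≠ 1 → y ∉ C.γ j '' Icc 0 1) ∧ ∃ φ : OpenPartialHomeomorph ℂ ℂ, y ∈ φ.source ∧ φ y = 0 ∧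
          (∀ z ∈ φ.source, z ∈ C.γ 1 '' Icc 0 1 → (φ z).im = 0) ∧
          (∀ z ∈ φ.source, z ∈ D.arc s(u, v) → (φ z).re = 0)
        rw [h1]
        rintro y ⟨hyf, hyB⟩
        have nv := nvbc y hyB hyf
        refine ⟨nv u, nv v, ?_, ?_, ?_, ?_⟩
        · rw [e1.1]; exact nv b
        · rw [e1.2]; exact nv c
        · intro j hj
          fin_cases j
          · show y ∉ C.γ 0 '' Icc 0 1
            rw [h0]
            intro hy'
            exact nv b (h.disj01 hbc hy' hyB)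
          · exact absurd rfl hj
          · show y ∉ C.γ 2 '' Icc 0 1
            rw [h2]
            intro hy'
            exact nv c (h.disj12 hbc hyB hy')
        · obtain ⟨φ, p1, p2, p3⟩ := D.proper_of_mem hEbc hEf nbc hyB hyf nv
          exact ⟨φ, p1, p2, fun z hz hz' => ((p3 z hz).1).mp hz', fun z hz hz' => ((p3 z hz).2).mp hz'⟩
      · show ∀ y ∈ D.arc s(u, v) ∩ C.γ 2 '' Icc 0 1, y ≠ D.pt u ∧ y ≠ D.pt v ∧ y ≠ C.γ 2 0 ∧ y ≠ C.γ 2 1 ∧
          (∀ j, j ≠ 2 → y ∉ C.γ j '' Icc 0 1) ∧ ∃ φ : OpenPartialHomeomorph ℂ ℂ, y ∈ φ.source ∧ φ y = 0 ∧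
          (∀ z ∈ φ.source, z ∈ C.γ 2 '' Icc 0 1 → (φ z).im = 0) ∧
          (∀ z ∈ φ.source, z ∈ D.arc s(u, v) → (φ z).re = 0)
        rw [h2]
        rintro y ⟨hyf, hyC⟩
        have nv := nvC y hyC hyf
        refine ⟨nv u, nv v, ?_, ?_, ?_, ?_⟩
        · rw [e2.1]; exact nv c
        · rw [e2.2]; rintro rfl; exact hx hyf
        · intro j hj
          fin_cases j
          · show y ∉ C.γ 0 '' Icc 0 1
            rw [h0]
            intro hy'
            have := h.eq_x (h.B_sub hy') (h.C_sub hyC)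
            rw [this] at hyf
            exact hx hyf
          · show y ∉ C.γ 1 '' Icc 0 1
            rw [h1]
            intro hy'
            exact nv c (h.disj12 hbc hy' hyC)
          · exact absurd rfl hj
        · obtain ⟨φ, p1, p2, p3⟩ := D.proper_of_mem hEcd hEf ncd (h.C_sub hyC) hyf nv
          exact ⟨φ, p1, p2, fun z hz hz' => ((p3 z hz).1).mp (h.C_sub hz'), fun z hz hz' => ((p3 z hz).2).mp hz'⟩)
  rw [Fin.sum_univ_three, h0, h1, h2] at key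
  exact key

end Ctx

end Pool.Agent.W_MP_6ffb05_co
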