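import Mathlib

set_option autoImplicit false

namespace Pool.Agent.W_MP_6ffb05_co

/-- `A` is a Jordan arc in the plane `ℂ` with endpoints `p` and `q`. -/
def IsJordanArc (A : Set ℂ) (p q : ℂ) : Prop :=
  ∃ γ : ℝ → ℂ, ContinuousOn γ (Set.Icc 0 1) ∧ Set.InjOn γ (Set.Icc 0 1) ∧ γ 0 = p ∧ γ 1 = q ∧
    γ '' Set.Icc 0 1 = A

/-- The point `p` is a proper crossing of `A` and `B`: some homeomorphism of a neighbourhood of `p`
onto an open subset of the plane sends `p` to the origin, `A` to the horizontal axis and `B` to the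
vertical axis. -/
def IsProperCrossing (A B : Set ℂ) (p : ℂ) : Prop :=
  ∃ φ : OpenPartialHomeomorph ℂ ℂ, p ∈ φ.source ∧ φ p = 0 ∧
    ∀ z ∈ φ.source, (z ∈ A ↔ (φ z).im = 0) ∧ (z ∈ B ↔ (φ z).re = 0)

/-- A simple topological graph with underlying abstract graph `G`: the vertices are distinct
points, each edge is a Jordan arc joining its endpoints and passing through no other vertex, and any
two distinct edges have at most one common point, which is a shared endpoint or a proper crossing. -/
structure SimpleDrawing {V : Type} (G : SimpleGraph V) where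
  pt : V → ℂ
  arc : Sym2 V → Set ℂ
  pt_injective : Function.Injective pt
  isArc : ∀ u v : V, G.Adj u v → IsJordanArc (arc s(u, v)) (pt u) (pt v)
  avoids : ∀ u v w : V, G.Adj u v → w ≠ u → w ≠ v → pt w ∉ arc s(u, v)
  simple : ∀ e ∈ G.edgeSet, ∀ f ∈ G.edgeSet, e ≠ f →
    (arc e ∩ arc f).Subsingleton ∧
    ∀ p ∈ arc e ∩ arc f, (∃ v : V, v ∈ e ∧ v ∈ f ∧ p = pt v) ∨ IsProperCrossing (arc e) (arc f) p

/-- Two edges cross if they have a common point which is not a vertex (in a simple topological
graph this point is a proper crossing). -/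
def SimpleDrawing.Crosses {V : Type} {G : SimpleGraph V} (D : SimpleDrawing G) (e f : Sym2 V) : Prop :=
  ∃ p ∈ D.arc e ∩ D.arc f, ∀ v : V, p ≠ D.pt v

/-- Weak isomorphism: an incidence preserving bijection of vertices and edges under which two
edges cross exactly when the corresponding edges cross. -/
def WeakIso {V : Type} {G : SimpleGraph V} (D D' : SimpleDrawing G) : Prop :=
  ∃ σ : G ≃g G, ∀ e ∈ G.edgeSet, ∀ f ∈ G.edgeSet, e ≠ f →
    (D.Crosses e f ↔ D'.Crosses (e.map σ) (f.map σ))

lemma map_mem_edgeSet {V : Type} {G : SimpleGraph V} (σ : G ≃g G) {e : Sym2 V} (he : e ∈ G.edgeSet) :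
    e.map σ ∈ G.edgeSet := by
  induction e with
  | h u v =>
    rw [Sym2.map_mk]
    rw [SimpleGraph.mem_edgeSet] at he ⊢
    exact (SimpleGraph.Iso.map_adj_iff σ).mpr he

/-- The setoid of weak isomorphism. -/
def weakSetoid {V : Type} (G : SimpleGraph V) : Setoid (SimpleDrawing G) where
  r := WeakIso
  iseqv := by
    refine ⟨fun D => ⟨SimpleGraph.Iso.refl, fun e _ f _ _ => ?_⟩, fun {D D'} h => ?_,
      fun {D D' D''} h h' => ?_⟩
    · have hid : ∀ e : Sym2 V, e.map (SimpleGraph.Iso.refl : G ≃g G) = e := fun e => by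
        induction e with
        | h u v => rfl
      rw [hid, hid]
    · obtain ⟨σ, hσ⟩ := h
      refine ⟨σ.symm, fun e he f hf hef => ?_⟩
      have hinv : ∀ e : Sym2 V, (e.map σ.symm).map σ = e := fun e => by
        induction e with
        | h u v => simp
      have := hσ (e.map σ.symm) (map_mem_edgeSet σ.symm he) (f.map σ.symm) (map_mem_edgeSet σ.symm hf)
        (fun hh => hef (by rw [← hinv e, ← hinv f, hh]))
      rw [hinv, hinv] at this
      exact this.symm
    · obtain ⟨σ, hσ⟩ := h
      obtain ⟨τ, hτ⟩ := h'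
      refine ⟨σ.trans τ, fun e he f hf hef => ?_⟩
      have hcomp : ∀ e : Sym2 V, e.map (σ.trans τ) = (e.map σ).map τ := fun e => by
        induction e with
        | h u v => rfl
      rw [hcomp, hcomp, hσ e he f hf hef]
      apply hτ _ (map_mem_edgeSet σ he) _ (map_mem_edgeSet σ hf)
      intro hh
      exact hef (Sym2.map.injective σ.injective hh)

/-- The number of weak isomorphism classes of simple topological graphs with underlying abstract
graph `G`. -/
noncomputable def Tw {V : Type} (G : SimpleGraph V) : ℕ∞ := ENat.card (Quotient (weakSetoid G))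

end Pool.Agent.W_MP_6ffb05_co
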