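import Pool.Agent.W_MP_6ffb05_co.Chi

set_option autoImplicit false

open Set Topology unitInterval Filter

namespace Pool.Agent.W_MP_6ffb05_co

/-- If a continuous injective function vanishes at an interior point then it has opposite signs on
both sides. -/
lemma sign_change (m : ℝ → ℝ) (t0 δ : ℝ) (hδ : 0 < δ) (hm : ContinuousOn m (Icc (t0 - δ) (t0 + δ)))
    (hinj : InjOn m (Icc (t0 - δ) (t0 + δ))) (h0 : m t0 = 0) :
    ∃ s : ℝ, (s = 1 ∨ s = -1) ∧ (∀ t ∈ Ioo (t0 - δ) t0, s * m t < 0) ∧ (∀ t ∈ Ioo t0 (t0 + δ), 0 < s * m t) := by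
  have hmem : t0 ∈ Icc (t0 - δ) (t0 + δ) := ⟨by linarith, by linarith⟩
  rcases hm.strictMonoOn_of_injOn_Icc' (by linarith) hinj with h | h
  · refine ⟨1, Or.inl rfl, fun t ht => ?_, fun t ht => ?_⟩
    · have := h ⟨ht.1.le, by linarith [ht.2]⟩ hmem ht.2
      rw [h0] at this; linarith
    · have := h hmem ⟨by linarith [ht.1], ht.2.le⟩ ht.1
      rw [h0] at this; linarith
  · refine ⟨-1, Or.inr rfl, fun t ht => ?_, fun t ht => ?_⟩
    · have := h ⟨ht.1.le, by linarith [ht.2]⟩ hmem ht.2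
      rw [h0] at this; linarith
    · have := h hmem ⟨by linarith [ht.1], ht.2.le⟩ ht.1
      rw [h0] at this; linarith

section

variable (C : Chain) (i0 : Fin 3) (t0 : ℝ) (ht0 : t0 ∈ Ioo (0:ℝ) 1)
  (φ : OpenPartialHomeomorph ℂ ℂ) (hy : C.γ i0 t0 ∈ φ.source) (hφy : φ (C.γ i0 t0) = 0)
  (hinj : InjOn (C.γ i0) (Icc 0 1))
  (him : ∀ z ∈ φ.source, z ∈ C.γ i0 '' Icc 0 1 → (φ z).im = 0)
  (R : ℝ) (hR : 0 < R) (hball : Metric.ball 0 R ⊆ φ.target)
  (hother : ∀ v ∈ Metric.ball (0:ℂ) R, ∀ i, i ≠ i0 → φ.symm v ∉ C.γ i '' Icc 0 1)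

include ht0 hy hφy hinj him hball hother in
lemma flip_core (v1 v2 : ℝ) (h1 : 0 < v1) (h1' : v1 < R) (h2 : 0 < v2) (h2' : v2 < R) :
    φ.symm ((v2:ℂ) * Complex.I) ∉ C.K ∧ φ.symm (((-v1 : ℝ):ℂ) * Complex.I) ∉ C.K ∧
    C.chi (φ.symm ((v2:ℂ) * Complex.I)) = - C.chi (φ.symm (((-v1 : ℝ):ℂ) * Complex.I)) := by
  obtain ⟨c, hc0, hc1, hc⟩ := path_exists φ R v1 v2 h1 h1' h2 h2' hball
  have hinter : ∀ y ∈ Icc (-v1) v2, ∀ i, φ.symm ((y:ℂ) * Complex.I) ∈ C.γ i '' Icc 0 1 → i = i0 ∧ y = 0 := by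
    intro y hy' i hi
    have hb := imag_mem_ball R v1 v2 h1' h2' hy'
    have hi0 : i = i0 := by
      by_contra hne
      exact hother _ hb i hne hi
    refine ⟨hi0, ?_⟩
    subst hi0
    have h3 := him _ (φ.map_target (hball hb)) hi
    rw [φ.right_inv (hball hb)] at h3
    simpa using h3
  have hn1 : φ.symm ((v2:ℂ) * Complex.I) ∉ C.K := by
    intro hmem
    obtain ⟨i, hi⟩ := mem_iUnion.mp hmem
    have := (hinter v2 ⟨by linarith, le_rfl⟩ i hi).2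
    linarith
  have hn0 : φ.symm (((-v1 : ℝ):ℂ) * Complex.I) ∉ C.K := by
    intro hmem
    obtain ⟨i, hi⟩ := mem_iUnion.mp hmem
    have := (hinter (-v1) ⟨le_rfl, by linarith⟩ i hi).2
    linarith
  refine ⟨hn1, hn0, ?_⟩
  obtain ⟨h, hh, hsq⟩ := exists_sqrt_compl c
  have hhne : ∀ z ∈ (range c)ᶜ, h z ≠ 0 := by
    intro z hz h0
    have h4 := hsq z hz
    rw [h0] at h4
    have h5 : (z - c 1) / (z - c 0) ≠ 0 := by
      apply div_ne_zero
      · intro e; apply hz; rw [sub_eq_zero.mp e]; exact mem_range_self _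
      · intro e; apply hz; rw [sub_eq_zero.mp e]; exact mem_range_self _
    apply h5; rw [← h4]; simp
  have hn1' : c 1 ∉ C.K := by rw [hc1]; exact hn1
  have hn0' : c 0 ∉ C.K := by rw [hc0]; exact hn0
  have hy0 : φ.symm 0 = C.γ i0 t0 := by rw [← hφy, φ.left_inv hy]
  have ht0I : t0 ∈ Icc (0:ℝ) 1 := ⟨ht0.1.le, ht0.2.le⟩
  have hrangeK : ∀ i, ∀ t ∈ Icc (0:ℝ) 1, C.γ i t ∈ range c → i = i0 ∧ t = t0 := by
    intro i t ht hm
    rw [hc] at hm
    obtain ⟨y, hy', he⟩ := hm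
    obtain ⟨h3, h4⟩ := hinter y hy' i ⟨t, ht, he⟩
    refine ⟨h3, ?_⟩
    subst h3
    subst h4
    rw [Complex.ofReal_zero, zero_mul, hy0] at he
    exact hinj ht ht0I he
  -- local behaviour of γ i0
  have hγc := C.cont i0
  have hγt0 : ContinuousAt (C.γ i0) t0 := hγc.continuousAt (Icc_mem_nhds ht0.1 ht0.2)
  have hφγ : ContinuousAt (fun t => φ (C.γ i0 t)) t0 :=
    ContinuousAt.comp (f := C.γ i0) (g := φ) (φ.continuousAt hy) hγt0
  have hV0 : φ (C.γ i0 t0) ∈ VV R v1 v2 := by rw [hφy]; exact zero_mem_VV R v1 v2 h1 h1' h2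
  have ev : ∀ᶠ t in 𝓝 t0, (C.γ i0 t ∈ φ.source ∧ φ (C.γ i0 t) ∈ VV R v1 v2) ∧ t ∈ Icc (0:ℝ) 1 := by
    filter_upwards [hγt0.preimage_mem_nhds (φ.open_source.mem_nhds hy),
      hφγ.preimage_mem_nhds ((VV_open R v1 v2).mem_nhds hV0), Icc_mem_nhds ht0.1 ht0.2] with t a b d
    exact ⟨⟨a, b⟩, d⟩
  obtain ⟨δ, hδ, hδb⟩ := Metric.eventually_nhds_iff.mp ev
  have hδI : ∀ t ∈ Icc (t0 - δ/2) (t0 + δ/2), (C.γ i0 t ∈ φ.source ∧ φ (C.γ i0 t) ∈ VV R v1 v2) ∧
      t ∈ Icc (0:ℝ) 1 := by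
    intro t ht
    apply hδb
    rw [Real.dist_eq, abs_lt]
    constructor <;> linarith [ht.1, ht.2]
  obtain ⟨s, hs, hsl, hsr⟩ := sign_change (fun t => (φ (C.γ i0 t)).re) t0 (δ/2) (by linarith)
    (by
      apply Complex.continuous_re.comp_continuousOn
      apply φ.continuousOn.comp (hγc.mono (fun t ht => (hδI t ht).2))
      intro t ht; exact (hδI t ht).1.1)
    (by
      intro a ha b hb hab
      have ha' := hδI a ha
      have hb' := hδI b hb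
      have e : φ (C.γ i0 a) = φ (C.γ i0 b) := by
        apply Complex.ext hab
        rw [him _ ha'.1.1 ⟨a, ha'.2, rfl⟩, him _ hb'.1.1 ⟨b, hb'.2, rfl⟩]
      exact hinj ha'.2 hb'.2 (φ.injOn ha'.1.1 hb'.1.1 e))
    (by show (φ (C.γ i0 t0)).re = 0; rw [hφy]; rfl)
  have hcross := RR_cross φ R v1 v2 h1 h1' h2 h2' hball c hc0 hc1 hc h hh hsq (C.γ i0) hγc t0 ht0
    (fun t ht hm => (hrangeK i0 t ht hm).2) (C.notMem hn0' i0) (C.notMem hn1' i0) hy hV0
    (-(s:ℂ)) (by rcases hs with rfl | rfl <;> simp)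
    (by
      have : Ioo (t0 - δ/2) t0 ∈ 𝓝[<] t0 := Ioo_mem_nhdsLT (by linarith)
      filter_upwards [this] with t ht
      have ht' := hδI t ⟨ht.1.le, by linarith [ht.2]⟩
      refine ⟨ht'.1.1, ht'.1.2, ?_⟩
      have h6 := hsl t ht
      rw [neg_mul, Complex.neg_re, Complex.re_ofReal_mul]
      linarith)
    (by
      have : Ioo t0 (t0 + δ/2) ∈ 𝓝[>] t0 := Ioo_mem_nhdsGT (by linarith)
      filter_upwards [this] with t ht
      have ht' := hδI t ⟨by linarith [ht.1], ht.2.le⟩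
      refine ⟨ht'.1.1, ht'.1.2, ?_⟩
      have h6 := hsr t ht
      rw [neg_mul, Complex.neg_re, Complex.re_ofReal_mul]
      linarith)
  have hglob : ∀ i, i ≠ i0 → RR (C.γ i) (c 1) = RR (C.γ i) (c 0) * (h (C.γ i 1) / h (C.γ i 0)) := by
    intro i hi
    apply RR_global (C.cont i) (C.notMem hn0' i) (C.notMem hn1' i) (range c)ᶜ _ h hh hsq
    rintro _ ⟨t, ht, rfl⟩ hm
    exact hi (hrangeK i t ht hm).1
  have hall : ∀ i ∈ (Finset.univ : Finset (Fin 3)), RR (C.γ i) (c 1) =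
      RR (C.γ i) (c 0) * (h (C.γ i 1) / h (C.γ i 0)) * (if i = i0 then -1 else 1) := by
    intro i _
    by_cases hi : i = i0
    · subst hi
      rw [if_pos rfl, hcross]; ring
    · rw [if_neg hi, mul_one, hglob i hi]
  have hend : ∀ i, C.γ i 0 ∈ (range c)ᶜ := by
    intro i hm
    have := (hrangeK i 0 zero_mem_I hm).2
    linarith [ht0.1]
  rw [← hc1, ← hc0]
  unfold Chain.chi
  rw [Finset.prod_congr rfl hall, Finset.prod_mul_distrib, Finset.prod_mul_distrib,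
    Finset.prod_div_distrib, C.prod_tele h, div_self, mul_one]
  · have : (∏ i : Fin 3, (if i = i0 then (-1:ℂ) else 1)) = -1 := by
      rw [Finset.prod_ite_eq' Finset.univ i0 (fun _ => (-1:ℂ))]
      simp
    rw [this]; ring
  · rw [Finset.prod_ne_zero_iff]
    intro i _
    exact hhne _ (hend i)

end

/-- flip along a path -/
lemma flip (C : Chain) (i0 : Fin 3) (t0 : ℝ) (ht0 : t0 ∈ Ioo (0:ℝ) 1)
    (φ : OpenPartialHomeomorph ℂ ℂ) (hy : C.γ i0 t0 ∈ φ.source) (hφy : φ (C.γ i0 t0) = 0)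
    (hinj : InjOn (C.γ i0) (Icc 0 1))
    (him : ∀ z ∈ φ.source, z ∈ C.γ i0 '' Icc 0 1 → (φ z).im = 0)
    (hoth : ∀ i, i ≠ i0 → C.γ i0 t0 ∉ C.γ i '' Icc 0 1)
    (η : ℝ → ℂ) (hη : ContinuousOn η (Icc 0 1)) (hηinj : InjOn η (Icc 0 1)) (u0 : ℝ)
    (hu0 : u0 ∈ Ioo (0:ℝ) 1) (hηu0 : η u0 = C.γ i0 t0)
    (hre : ∀ z ∈ φ.source, z ∈ η '' Icc 0 1 → (φ z).re = 0) :
    ∃ δ > 0, ∀ u ∈ Ioo (u0 - δ) u0, ∀ u' ∈ Ioo u0 (u0 + δ),
      η u ∉ C.K ∧ η u' ∉ C.K ∧ C.chi (η u') = - C.chi (η u) := by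
  -- choose R
  have hy0 : φ.symm 0 = C.γ i0 t0 := by rw [← hφy, φ.left_inv hy]
  have h0t : (0:ℂ) ∈ φ.target := by rw [← hφy]; exact φ.map_source hy
  let O : Set ℂ := ⋂ i ∈ {i : Fin 3 | i ≠ i0}, (C.γ i '' Icc 0 1)ᶜ
  have hO : IsOpen O := by
    apply Set.Finite.isOpen_biInter (Set.toFinite _)
    intro i _
    exact (isCompact_Icc.image_of_continuousOn (C.cont i)).isClosed.isOpen_compl
  have hyO : C.γ i0 t0 ∈ O := by
    simp only [O, mem_iInter]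
    intro i hi
    exact hoth i hi
  have hev : ∀ᶠ v in 𝓝 (0:ℂ), v ∈ φ.target ∧ φ.symm v ∈ O := by
    have hcs : ContinuousAt φ.symm 0 := φ.continuousAt_symm h0t
    have h6 : φ.symm ⁻¹' O ∈ 𝓝 (0:ℂ) := by
      apply hcs.preimage_mem_nhds
      rw [hy0]
      exact hO.mem_nhds hyO
    filter_upwards [φ.open_target.mem_nhds h0t, h6] with v a b
    exact ⟨a, b⟩
  obtain ⟨R, hR, hRb⟩ := Metric.eventually_nhds_iff_ball.mp hev
  have hball : Metric.ball 0 R ⊆ φ.target := fun v hv => (hRb v hv).1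
  have hother : ∀ v ∈ Metric.ball (0:ℂ) R, ∀ i, i ≠ i0 → φ.symm v ∉ C.γ i '' Icc 0 1 := by
    intro v hv i hi
    have := (hRb v hv).2
    simp only [O, mem_iInter] at this
    exact this i hi
  have core := flip_core C i0 t0 ht0 φ hy hφy hinj him R hball hother
  -- behaviour of η
  have hηs : η u0 ∈ φ.source := by rw [hηu0]; exact hy
  have hηc : ContinuousAt η u0 := hη.continuousAt (Icc_mem_nhds hu0.1 hu0.2)
  have hφη : ContinuousAt (fun u => φ (η u)) u0 :=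
    ContinuousAt.comp (f := η) (g := φ) (φ.continuousAt hηs) hηc
  have hφη0 : φ (η u0) ∈ Metric.ball (0:ℂ) R := by
    rw [hηu0, hφy]; exact Metric.mem_ball_self hR
  have ev : ∀ᶠ u in 𝓝 u0, (η u ∈ φ.source ∧ φ (η u) ∈ Metric.ball (0:ℂ) R) ∧ u ∈ Icc (0:ℝ) 1 := by
    filter_upwards [hηc.preimage_mem_nhds (φ.open_source.mem_nhds hηs),
      hφη.preimage_mem_nhds (Metric.isOpen_ball.mem_nhds hφη0), Icc_mem_nhds hu0.1 hu0.2] with u a b d
    exact ⟨⟨a, b⟩, d⟩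
  obtain ⟨δ, hδ, hδb⟩ := Metric.eventually_nhds_iff.mp ev
  have hδI : ∀ u ∈ Icc (u0 - δ/2) (u0 + δ/2), (η u ∈ φ.source ∧ φ (η u) ∈ Metric.ball (0:ℂ) R) ∧
      u ∈ Icc (0:ℝ) 1 := by
    intro u hu
    apply hδb
    rw [Real.dist_eq, abs_lt]
    constructor <;> linarith [hu.1, hu.2]
  obtain ⟨s, hs, hsl, hsr⟩ := sign_change (fun u => (φ (η u)).im) u0 (δ/2) (by linarith)
    (by
      apply Complex.continuous_im.comp_continuousOn
      apply φ.continuousOn.comp (hη.mono (fun t ht => (hδI t ht).2))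
      intro t ht; exact (hδI t ht).1.1)
    (by
      intro a ha b hb hab
      have ha' := hδI a ha
      have hb' := hδI b hb
      have e : φ (η a) = φ (η b) := by
        apply Complex.ext _ hab
        rw [hre _ ha'.1.1 ⟨a, ha'.2, rfl⟩, hre _ hb'.1.1 ⟨b, hb'.2, rfl⟩]
      exact hηinj ha'.2 hb'.2 (φ.injOn ha'.1.1 hb'.1.1 e))
    (by show (φ (η u0)).im = 0; rw [hηu0, hφy]; rfl)
  refine ⟨δ/2, by linarith, fun u hu u' hu' => ?_⟩
  have hu1 := hδI u ⟨hu.1.le, by linarith [hu.2]⟩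
  have hu2 := hδI u' ⟨by linarith [hu'.1], hu'.2.le⟩
  have s1 := hsl u hu
  have s2 := hsr u' hu'
  have e1 : η u = φ.symm ((((φ (η u)).im : ℝ) : ℂ) * Complex.I) := by
    have : (((φ (η u)).im : ℝ) : ℂ) * Complex.I = φ (η u) := by
      apply Complex.ext
      · rw [hre _ hu1.1.1 ⟨u, hu1.2, rfl⟩]; simp
      · simp
    rw [this, φ.left_inv hu1.1.1]
  have e2 : η u' = φ.symm ((((φ (η u')).im : ℝ) : ℂ) * Complex.I) := by
    have : (((φ (η u')).im : ℝ) : ℂ) * Complex.I = φ (η u') := by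
      apply Complex.ext
      · rw [hre _ hu2.1.1 ⟨u', hu2.2, rfl⟩]; simp
      · simp
    rw [this, φ.left_inv hu2.1.1]
  have b1 : |(φ (η u)).im| < R := by
    have := hu1.1.2
    rw [mem_ball_zero_iff] at this
    exact lt_of_le_of_lt (Complex.abs_im_le_norm _) this
  have b2 : |(φ (η u')).im| < R := by
    have := hu2.1.2
    rw [mem_ball_zero_iff] at this
    exact lt_of_le_of_lt (Complex.abs_im_le_norm _) this
  rw [abs_lt] at b1 b2
  rcases hs with rfl | rfl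
  · have s1' : (φ (η u)).im < 0 := by linarith
    have s2' : 0 < (φ (η u')).im := by linarith
    have := core (-(φ (η u)).im) ((φ (η u')).im) (by linarith) (by linarith) s2' b2.2
    rw [neg_neg, ← e1, ← e2] at this
    exact ⟨this.2.1, this.1, this.2.2⟩
  · have s1' : 0 < (φ (η u)).im := by linarith
    have s2' : (φ (η u')).im < 0 := by linarith
    have := core (-(φ (η u')).im) ((φ (η u)).im) (by linarith) (by linarith) s1' b1.2
    rw [neg_neg, ← e1, ← e2] at this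
    refine ⟨this.1, this.2.1, ?_⟩
    rw [this.2.2, neg_neg]

end Pool.Agent.W_MP_6ffb05_co
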