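import Pool.Agent.W_MP_6ffb05_co.Flip

set_option autoImplicit false

open Set Topology unitInterval Filter

namespace Pool.Agent.W_MP_6ffb05_co

lemma parity_aux (C : Chain) (η : ℝ → ℂ) (hη : ContinuousOn η (Icc 0 1)) (T : Finset ℝ)
    (hT : ∀ u ∈ Icc (0:ℝ) 1, η u ∈ C.K → u ∈ T) (hT2 : ∀ u ∈ T, u ∈ Ioo (0:ℝ) 1)
    (hflip : ∀ u0 ∈ T, ∃ δ > 0, ∀ u ∈ Ioo (u0 - δ) u0, ∀ u' ∈ Ioo u0 (u0 + δ),
      C.chi (η u') = - C.chi (η u)) (n : ℕ) :
    ∀ c ∈ Icc (0:ℝ) 1, c ∉ T → (T.filter (· < c)).card = n →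
      C.chi (η c) = (-1)^n * C.chi (η 0) := by
  induction n with
  | zero =>
    intro c hc hcT hcard
    rw [Finset.card_eq_zero, Finset.filter_eq_empty_iff] at hcard
    rw [pow_zero, one_mul]
    apply C.chi_const_path η (J := Icc 0 c) isPreconnected_Icc (hη.mono (Icc_subset_Icc le_rfl hc.2)) _
      ⟨hc.1, le_rfl⟩ ⟨le_rfl, hc.1⟩
    intro u hu hK
    have huT := hT u ⟨hu.1, hu.2.trans hc.2⟩ hK
    have h1 := hcard huT
    have : u = c := le_antisymm hu.2 (not_lt.mp h1)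
    exact hcT (this ▸ huT)
  | succ n ih =>
    intro c hc hcT hcard
    have hne : (T.filter (· < c)).Nonempty := by
      rw [← Finset.card_pos, hcard]; omega
    set t := (T.filter (· < c)).max' hne with ht
    have htmem := Finset.max'_mem _ hne
    rw [← ht] at htmem
    have htT : t ∈ T := (Finset.mem_filter.mp htmem).1
    have htc : t < c := (Finset.mem_filter.mp htmem).2
    have htI := hT2 t htT
    have hmax : ∀ s ∈ T, s < c → s ≤ t := fun s hs hsc =>
      Finset.le_max' _ _ (Finset.mem_filter.mpr ⟨hs, hsc⟩)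
    obtain ⟨δ, hδ, hfl⟩ := hflip t htT
    -- choose u'
    obtain ⟨u', hu'1, hu'2⟩ : ∃ u', t < u' ∧ u' < min c (t + δ) := exists_between (lt_min htc (by linarith))
    have hu'c : u' < c := lt_of_lt_of_le hu'2 (min_le_left _ _)
    have hu'δ : u' < t + δ := lt_of_lt_of_le hu'2 (min_le_right _ _)
    have e1 : C.chi (η c) = C.chi (η u') := by
      apply C.chi_const_path η (J := Icc u' c) isPreconnected_Icc
        (hη.mono (Icc_subset_Icc (by linarith [htI.1]) hc.2)) _ ⟨hu'c.le, le_rfl⟩ ⟨le_rfl, hu'c.le⟩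
      intro u hu hK
      have huT := hT u ⟨by linarith [htI.1, hu.1], hu.2.trans hc.2⟩ hK
      have huc : u < c := lt_of_le_of_ne hu.2 (fun e => hcT (e ▸ huT))
      have := hmax u huT huc
      linarith [hu.1]
    -- choose u
    have hev : ∀ᶠ u in 𝓝[<] t, (∀ s ∈ T.filter (· < t), s < u) ∧ u ∈ Ioo (max 0 (t - δ)) t := by
      refine Filter.Eventually.and ?_ (Ioo_mem_nhdsLT (max_lt htI.1 (by linarith)))
      rw [Filter.eventually_all_finset]
      intro s hs
      have hst : s < t := (Finset.mem_filter.mp hs).2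
      have : Ioo s t ∈ 𝓝[<] t := Ioo_mem_nhdsLT hst
      filter_upwards [this] with u hu
      exact hu.1
    obtain ⟨u, hu1, hu2⟩ := hev.exists
    have hu0 : 0 < u := lt_of_le_of_lt (le_max_left _ _) hu2.1
    have huδ : t - δ < u := lt_of_le_of_lt (le_max_right _ _) hu2.1
    have huT : u ∉ T := by
      intro h
      exact lt_irrefl u (hu1 u (Finset.mem_filter.mpr ⟨h, hu2.2⟩))
    have e2 := hfl u ⟨huδ, hu2.2⟩ u' ⟨hu'1, hu'δ⟩
    have hcard' : (T.filter (· < u)).card = n := by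
      have h3 : T.filter (· < c) = insert t (T.filter (· < u)) := by
        ext s
        simp only [Finset.mem_filter, Finset.mem_insert]
        constructor
        · rintro ⟨h4, h5⟩
          rcases lt_or_eq_of_le (hmax s h4 h5) with h6 | h6
          · right
            exact ⟨h4, hu1 s (Finset.mem_filter.mpr ⟨h4, h6⟩)⟩
          · left; exact h6
        · rintro (h4 | ⟨h4, h5⟩)
          · subst h4; exact ⟨htT, htc⟩
          · exact ⟨h4, by linarith [hu2.2]⟩
      rw [h3, Finset.card_insert_of_notMem] at hcard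
      · omega
      · intro h4
        have := (Finset.mem_filter.mp h4).2
        linarith [hu2.2]
    have e3 := ih u ⟨hu0.le, by linarith [hu2.2, htI.2]⟩ huT hcard'
    rw [e1, e2, e3, pow_succ]
    ring

lemma parity (C : Chain) (η : ℝ → ℂ) (hη : ContinuousOn η (Icc 0 1)) (T : Finset ℝ)
    (hT : ∀ u ∈ Icc (0:ℝ) 1, η u ∈ C.K → u ∈ T) (hT2 : ∀ u ∈ T, u ∈ Ioo (0:ℝ) 1)
    (hflip : ∀ u0 ∈ T, ∃ δ > 0, ∀ u ∈ Ioo (u0 - δ) u0, ∀ u' ∈ Ioo u0 (u0 + δ),
      C.chi (η u') = - C.chi (η u)) :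
    C.chi (η 1) = (-1)^T.card * C.chi (η 0) := by
  apply parity_aux C η hη T hT hT2 hflip T.card 1 one_mem_I
  · intro h; have := (hT2 1 h).2; linarith
  · congr 1
    rw [Finset.filter_eq_self]
    intro u hu
    exact (hT2 u hu).2

end Pool.Agent.W_MP_6ffb05_co
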