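import Pool.Agent.W_MP_6ffb05_co.Defs
import Pool.Agent.W_MP_6ffb05_co.Parity

set_option autoImplicit false

open Set Topology unitInterval Filter

namespace Pool.Agent.W_MP_6ffb05_co

lemma IsJordanArc.symm {A : Set ℂ} {p q : ℂ} (h : IsJordanArc A p q) : IsJordanArc A q p := by
  obtain ⟨γ, hc, hi, h0, h1, him⟩ := h
  have hm : ∀ t ∈ Icc (0:ℝ) 1, 1 - t ∈ Icc (0:ℝ) 1 := fun t ht => ⟨by linarith [ht.2], by linarith [ht.1]⟩
  refine ⟨fun t => γ (1 - t), ?_, ?_, ?_, ?_, ?_⟩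
  · exact hc.comp (by fun_prop) hm
  · intro s hs t ht hst
    have := hi (hm s hs) (hm t ht) hst
    linarith
  · simpa using h1
  · simpa using h0
  · rw [← him]
    ext z
    constructor
    · rintro ⟨t, ht, rfl⟩
      exact ⟨1 - t, hm t ht, rfl⟩
    · rintro ⟨t, ht, rfl⟩
      exact ⟨1 - t, hm t ht, by simp⟩

lemma IsJordanArc.left_mem {A : Set ℂ} {p q : ℂ} (h : IsJordanArc A p q) : p ∈ A := by
  obtain ⟨γ, hc, hi, h0, h1, him⟩ := h
  rw [← him]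
  exact ⟨0, zero_mem_I, h0⟩

lemma IsJordanArc.right_mem {A : Set ℂ} {p q : ℂ} (h : IsJordanArc A p q) : q ∈ A := h.symm.left_mem

lemma IsJordanArc.isCompact {A : Set ℂ} {p q : ℂ} (h : IsJordanArc A p q) : IsCompact A := by
  obtain ⟨γ, hc, hi, h0, h1, him⟩ := h
  rw [← him]
  exact isCompact_Icc.image_of_continuousOn hc

/-- splitting an arc at an interior point -/
lemma IsJordanArc.split {A : Set ℂ} {p q x : ℂ} (h : IsJordanArc A p q) (hx : x ∈ A) (hxp : x ≠ p)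
    (hxq : x ≠ q) : ∃ A1 A2 : Set ℂ, IsJordanArc A1 p x ∧ IsJordanArc A2 q x ∧ A1 ∪ A2 = A ∧
      A1 ∩ A2 = {x} := by
  obtain ⟨γ, hc, hi, h0, h1, him⟩ := h
  rw [← him] at hx
  obtain ⟨s, hs, hsx⟩ := hx
  have hs0 : 0 < s := lt_of_le_of_ne hs.1 (by rintro rfl; exact hxp (by rw [← hsx, h0]))
  have hs1 : s < 1 := lt_of_le_of_ne hs.2 (by rintro rfl; exact hxq (by rw [← hsx, h1]))
  refine ⟨γ '' Icc 0 s, γ '' Icc s 1, ?_, ?_, ?_, ?_⟩
  · have hm : ∀ t ∈ Icc (0:ℝ) 1, t * s ∈ Icc (0:ℝ) s := fun t ht =>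
      ⟨mul_nonneg ht.1 hs0.le, by nlinarith [ht.2]⟩
    refine ⟨fun t => γ (t * s), ?_, ?_, ?_, ?_, ?_⟩
    · exact hc.comp (by fun_prop) (fun t ht => ⟨(hm t ht).1, (hm t ht).2.trans hs.2⟩)
    · intro t ht u hu htu
      have := hi ⟨(hm t ht).1, (hm t ht).2.trans hs.2⟩ ⟨(hm u hu).1, (hm u hu).2.trans hs.2⟩ htu
      exact mul_right_cancel₀ hs0.ne' this
    · simpa using h0
    · simpa using hsx
    · ext z
      constructor
      · rintro ⟨t, ht, rfl⟩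
        exact ⟨t * s, hm t ht, rfl⟩
      · rintro ⟨t, ht, rfl⟩
        refine ⟨t / s, ⟨div_nonneg ht.1 hs0.le, (div_le_one hs0).mpr ht.2⟩, ?_⟩
        simp only
        rw [div_mul_cancel₀ _ hs0.ne']
  · have hs1' : 0 < 1 - s := by linarith
    have hm : ∀ t ∈ Icc (0:ℝ) 1, 1 - t * (1 - s) ∈ Icc (s:ℝ) 1 := fun t ht =>
      ⟨by nlinarith [ht.2], by nlinarith [ht.1]⟩
    refine ⟨fun t => γ (1 - t * (1 - s)), ?_, ?_, ?_, ?_, ?_⟩
    · exact hc.comp (by fun_prop) (fun t ht => ⟨hs.1.trans (hm t ht).1, (hm t ht).2⟩)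
    · intro t ht u hu htu
      have := hi ⟨hs.1.trans (hm t ht).1, (hm t ht).2⟩ ⟨hs.1.trans (hm u hu).1, (hm u hu).2⟩ htu
      have h3 : t * (1 - s) = u * (1 - s) := by linarith
      exact mul_right_cancel₀ hs1'.ne' h3
    · simpa using h1
    · show γ (1 - 1 * (1 - s)) = x
      rw [show 1 - 1 * (1 - s) = s by ring, hsx]
    · ext z
      constructor
      · rintro ⟨t, ht, rfl⟩
        exact ⟨1 - t * (1 - s), hm t ht, rfl⟩
      · rintro ⟨t, ht, rfl⟩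
        refine ⟨(1 - t) / (1 - s), ⟨div_nonneg (by linarith [ht.2]) hs1'.le,
          (div_le_one hs1').mpr (by linarith [ht.1])⟩, ?_⟩
        simp only
        rw [div_mul_cancel₀ _ hs1'.ne']
        congr 1
        ring
  · rw [← image_union, ← him]
    congr 1
    exact Icc_union_Icc_eq_Icc hs.1 hs.2
  · ext z
    constructor
    · rintro ⟨⟨t, ht, rfl⟩, ⟨u, hu, htu⟩⟩
      have h3 := hi ⟨hs.1.trans hu.1, hu.2⟩ ⟨ht.1, ht.2.trans hs.2⟩ htu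
      have : t = s := le_antisymm ht.2 (by rw [← h3]; exact hu.1)
      rw [this, hsx]; rfl
    · rintro rfl
      exact ⟨⟨s, ⟨hs.1, le_rfl⟩, hsx⟩, ⟨s, ⟨le_rfl, hs.2⟩, hsx⟩⟩

/-- a chain from three arcs -/
lemma chain_exists {A0 A1 A2 : Set ℂ} {p q r : ℂ} (h0 : IsJordanArc A0 p q) (h1 : IsJordanArc A1 q r)
    (h2 : IsJordanArc A2 r p) : ∃ C : Chain, (∀ i, InjOn (C.γ i) (Icc 0 1)) ∧
      C.γ 0 '' Icc 0 1 = A0 ∧ C.γ 1 '' Icc 0 1 = A1 ∧ C.γ 2 '' Icc 0 1 = A2 ∧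
      (C.γ 0 0 = p ∧ C.γ 0 1 = q) ∧ (C.γ 1 0 = q ∧ C.γ 1 1 = r) ∧ (C.γ 2 0 = r ∧ C.γ 2 1 = p) := by
  obtain ⟨γ0, hc0, hi0, h00, h01, him0⟩ := h0
  obtain ⟨γ1, hc1, hi1, h10, h11, him1⟩ := h1
  obtain ⟨γ2, hc2, hi2, h20, h21, him2⟩ := h2
  refine ⟨⟨![γ0, γ1, γ2], ?_, ?_⟩, ?_, him0, him1, him2, ⟨h00, h01⟩, ⟨h10, h11⟩, ⟨h20, h21⟩⟩
  · intro i
    fin_cases i
    · exact hc0
    · exact hc1
    · exact hc2
  · intro i
    fin_cases i
    · show γ0 1 = γ1 0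
      rw [h01, h10]
    · show γ1 1 = γ2 0
      rw [h11, h20]
    · show γ2 1 = γ0 0
      rw [h21, h00]
  · intro i
    fin_cases i
    · exact hi0
    · exact hi1
    · exact hi2

open Classical in
/-- indicator of nonempty intersection -/
noncomputable def ind (A B : Set ℂ) : ℕ := if (A ∩ B).Nonempty then 1 else 0

lemma ind_zero {A B : Set ℂ} (h : ∀ z ∈ A, z ∉ B) : ind A B = 0 := by
  unfold ind
  rw [if_neg]
  rintro ⟨z, h1, h2⟩
  exact h z h1 h2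

/-- parity along an edge which crosses the chain properly -/
lemma edge_parity (C : Chain) (hCi : ∀ i, InjOn (C.γ i) (Icc 0 1)) (F : Set ℂ) (p q : ℂ)
    (hF : IsJordanArc F p q)
    (hsub : ∀ i, (F ∩ C.γ i '' Icc 0 1).Subsingleton)
    (hcr : ∀ i, ∀ y ∈ F ∩ C.γ i '' Icc 0 1, y ≠ p ∧ y ≠ q ∧ y ≠ C.γ i 0 ∧ y ≠ C.γ i 1 ∧
      (∀ j, j ≠ i → y ∉ C.γ j '' Icc 0 1) ∧
      ∃ φ : OpenPartialHomeomorph ℂ ℂ, y ∈ φ.source ∧ φ y = 0 ∧
        (∀ z ∈ φ.source, z ∈ C.γ i '' Icc 0 1 → (φ z).im = 0) ∧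
        (∀ z ∈ φ.source, z ∈ F → (φ z).re = 0)) :
    C.chi q = (-1)^(∑ i, ind F (C.γ i '' Icc 0 1)) * C.chi p := by
  classical
  obtain ⟨η, hη, hηi, hη0, hη1, hηim⟩ := hF
  -- the parameter sets
  let T : Fin 3 → Finset ℝ := fun i =>
    if h : ∃ u ∈ Icc (0:ℝ) 1, η u ∈ C.γ i '' Icc 0 1 then {h.choose} else ∅
  have hTmem : ∀ i u, u ∈ T i ↔ u ∈ Icc (0:ℝ) 1 ∧ η u ∈ C.γ i '' Icc 0 1 := by
    intro i u
    simp only [T]
    split_ifs with h
    · rw [Finset.mem_singleton]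
      have hs := h.choose_spec
      constructor
      · rintro rfl; exact hs
      · rintro ⟨h3, h4⟩
        have hF1 : η u ∈ F := hηim ▸ ⟨u, h3, rfl⟩
        have hF2 : η h.choose ∈ F := hηim ▸ ⟨_, hs.1, rfl⟩
        exact hηi h3 hs.1 (hsub i ⟨hF1, h4⟩ ⟨hF2, hs.2⟩)
    · constructor
      · intro h3; exact absurd h3 (Finset.notMem_empty _)
      · rintro ⟨h3, h4⟩; exact absurd ⟨u, h3, h4⟩ h
  have hTcard : ∀ i, (T i).card = ind F (C.γ i '' Icc 0 1) := by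
    intro i
    unfold ind
    by_cases h : ∃ u ∈ Icc (0:ℝ) 1, η u ∈ C.γ i '' Icc 0 1
    · simp only [T, h, dif_pos]
      rw [if_pos, Finset.card_singleton]
      obtain ⟨u, h3, h4⟩ := h
      exact ⟨η u, hηim ▸ ⟨u, h3, rfl⟩, h4⟩
    · have hT0 : T i = ∅ := by simp only [T]; rw [dif_neg h]
      rw [hT0, if_neg]
      · rfl
      · rintro ⟨z, h3, h4⟩
        rw [← hηim] at h3
        obtain ⟨u, hu, rfl⟩ := h3
        exact h ⟨u, hu, h4⟩
  let TT : Finset ℝ := Finset.univ.biUnion T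
  have hTTcard : TT.card = ∑ i, ind F (C.γ i '' Icc 0 1) := by
    rw [Finset.card_biUnion]
    · exact Finset.sum_congr rfl (fun i _ => hTcard i)
    · intro i _ j _ hij
      show Disjoint (T i) (T j)
      rw [Finset.disjoint_left]
      intro u hu hu'
      rw [hTmem] at hu hu'
      exact (hcr i (η u) ⟨hηim ▸ ⟨u, hu.1, rfl⟩, hu.2⟩).2.2.2.2.1 j hij.symm hu'.2
  have hTTmem : ∀ u, u ∈ TT ↔ ∃ i, u ∈ Icc (0:ℝ) 1 ∧ η u ∈ C.γ i '' Icc 0 1 := by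
    intro u
    simp only [TT, Finset.mem_biUnion, Finset.mem_univ, true_and, hTmem]
  have key := parity C η hη TT
    (fun u hu hK => by
      obtain ⟨i, hi⟩ := mem_iUnion.mp hK
      exact (hTTmem u).mpr ⟨i, hu, hi⟩)
    (fun u hu => by
      obtain ⟨i, h3, h4⟩ := (hTTmem u).mp hu
      obtain ⟨a1, a2, _⟩ := hcr i (η u) ⟨hηim ▸ ⟨u, h3, rfl⟩, h4⟩
      constructor
      · apply lt_of_le_of_ne h3.1
        rintro rfl; exact a1 hη0
      · apply lt_of_le_of_ne h3.2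
        rintro rfl; exact a2 hη1)
    (fun u hu => by
      obtain ⟨i, h3, h4⟩ := (hTTmem u).mp hu
      obtain ⟨a1, a2, a3, a4, a5, φ, b1, b2, b3, b4⟩ := hcr i (η u) ⟨hηim ▸ ⟨u, h3, rfl⟩, h4⟩
      obtain ⟨t0, ht0, hte⟩ := h4
      have ht0' : t0 ∈ Ioo (0:ℝ) 1 := by
        constructor
        · apply lt_of_le_of_ne ht0.1
          rintro rfl; exact a3 hte.symm
        · apply lt_of_le_of_ne ht0.2
          rintro rfl; exact a4 hte.symm
      have hu' : u ∈ Ioo (0:ℝ) 1 := by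
        constructor
        · apply lt_of_le_of_ne h3.1
          rintro rfl; exact a1 hη0
        · apply lt_of_le_of_ne h3.2
          rintro rfl; exact a2 hη1
      obtain ⟨δ, hδ, hfl⟩ := flip C i t0 ht0' φ (by rw [hte]; exact b1) (by rw [hte]; exact b2) (hCi i) b3
        (fun j hj => by rw [hte]; exact a5 j hj) η hη hηi u hu' hte.symm
        (fun z hz hz' => b4 z hz (hηim ▸ hz'))
      exact ⟨δ, hδ, fun v hv v' hv' => (hfl v hv v' hv').2.2⟩)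
  rw [hTTcard, hη0, hη1] at key
  exact key

end Pool.Agent.W_MP_6ffb05_co
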