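import Pool.Agent.W_MP_6ffb05_co.Sqrt

set_option autoImplicit false

open Set Topology unitInterval Filter

namespace Pool.Agent.W_MP_6ffb05_co

section key

variable (φ : OpenPartialHomeomorph ℂ ℂ) (R v1 v2 : ℝ)

/-- the strip in the ball -/
def VV : Set ℂ := (Metric.ball 0 R ∩ {v : ℂ | -v1 < v.im}) ∩ {v : ℂ | v.im < v2}

lemma VV_open : IsOpen (VV R v1 v2) := by
  unfold VV
  refine (Metric.isOpen_ball.inter ?_).inter ?_
  · exact isOpen_lt continuous_const Complex.continuous_im
  · exact isOpen_lt Complex.continuous_im continuous_const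

lemma VV_convex : Convex ℝ (VV R v1 v2) := by
  unfold VV
  exact ((convex_ball 0 R).inter (convex_halfSpace_im_gt _)).inter (convex_halfSpace_im_lt _)

variable (h1 : 0 < v1) (h1' : v1 < R) (h2 : 0 < v2) (h2' : v2 < R)
  (hball : Metric.ball 0 R ⊆ φ.target)

lemma zero_mem_VV (h1 : 0 < v1) (h1' : v1 < R) (h2 : 0 < v2) : (0:ℂ) ∈ VV R v1 v2 := by
  unfold VV
  refine ⟨⟨?_, ?_⟩, ?_⟩
  · simp; linarith
  · simp; exact h1
  · simp; exact h2

include h1' h2' in
lemma imag_mem_ball {y : ℝ} (hy : y ∈ Icc (-v1) v2) : ((y:ℂ) * Complex.I) ∈ Metric.ball (0:ℂ) R := by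
  rw [mem_ball_zero_iff, norm_mul, Complex.norm_I, mul_one, Complex.norm_real, Real.norm_eq_abs, abs_lt]
  constructor <;> linarith [hy.1, hy.2]

include h1 h1' h2 h2' hball in
lemma path_exists : ∃ c : C(I, ℂ), c 0 = φ.symm (((-v1 : ℝ) : ℂ) * Complex.I) ∧
    c 1 = φ.symm ((v2 : ℂ) * Complex.I) ∧
    ∀ z, z ∈ range c ↔ ∃ y ∈ Icc (-v1) v2, z = φ.symm ((y:ℂ) * Complex.I) := by
  have hmem : ∀ s : I, (-v1 + (s:ℝ) * (v1 + v2)) ∈ Icc (-v1) v2 := by
    intro s
    have h3 := s.2.1
    have h4 := s.2.2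
    constructor
    · nlinarith
    · nlinarith
  refine ⟨⟨fun s => φ.symm ((((-v1 + (s:ℝ) * (v1 + v2) : ℝ)) : ℂ) * Complex.I), ?_⟩, ?_, ?_, ?_⟩
  · apply ContinuousOn.comp_continuous φ.continuousOn_symm (by fun_prop)
    intro s
    exact hball (imag_mem_ball R v1 v2 h1' h2' (hmem s))
  · show φ.symm ((((-v1 + ((0:I):ℝ) * (v1 + v2) : ℝ)) : ℂ) * Complex.I) = _
    simp
  · show φ.symm ((((-v1 + ((1:I):ℝ) * (v1 + v2) : ℝ)) : ℂ) * Complex.I) = _
    simp
  · intro z
    constructor
    · rintro ⟨s, rfl⟩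
      exact ⟨_, hmem s, rfl⟩
    · rintro ⟨y, hy, rfl⟩
      have hpos : 0 < v1 + v2 := by linarith
      refine ⟨⟨(y + v1) / (v1 + v2), ?_, ?_⟩, ?_⟩
      · apply div_nonneg _ hpos.le; linarith [hy.1]
      · rw [div_le_one hpos]; linarith [hy.2]
      · show φ.symm ((((-v1 + ((y + v1) / (v1 + v2)) * (v1 + v2) : ℝ)) : ℂ) * Complex.I) = _
        congr 3
        field_simp
        ring

include h1 h1' h2 h2' hball in
/-- The key lemma: a continuous square root of `(z-p2)/(z-p1)` outside of the segment changes sign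
across the segment. -/
lemma key (c : C(I, ℂ)) (hc0 : c 0 = φ.symm (((-v1 : ℝ) : ℂ) * Complex.I))
    (hc1 : c 1 = φ.symm ((v2 : ℂ) * Complex.I))
    (hc : ∀ z, z ∈ range c ↔ ∃ y ∈ Icc (-v1) v2, z = φ.symm ((y:ℂ) * Complex.I))
    (h : ℂ → ℂ) (hh : ContinuousOn h (range c)ᶜ) (hsq : ∀ z ∈ (range c)ᶜ, h z ^ 2 = (z - c 1) / (z - c 0))
    (k : ℂ → ℂ) (hk : ContinuousOn k (VV R v1 v2))
    (hksq : ∀ v ∈ VV R v1 v2, k v ^ 2 = (φ.symm v - c 1) / (φ.symm v - c 0)) :
    ∃ ε : ℂ, (ε = 1 ∨ ε = -1) ∧ (∀ v ∈ VV R v1 v2, 0 < v.re → h (φ.symm v) = ε * k v) ∧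
      (∀ v ∈ VV R v1 v2, v.re < 0 → h (φ.symm v) = -ε * k v) := by
  have hVt : VV R v1 v2 ⊆ φ.target := fun v hv => hball hv.1.1
  have hinj : ∀ v ∈ VV R v1 v2, ∀ y ∈ Icc (-v1) v2, φ.symm v = φ.symm ((y:ℂ) * Complex.I) →
      v = (y:ℂ) * Complex.I := by
    intro v hv y hy he
    exact φ.symm.injOn (by simpa using hVt hv)
      (by simpa using hball (imag_mem_ball R v1 v2 h1' h2' hy)) he
  have hnotc : ∀ v ∈ VV R v1 v2, v.re ≠ 0 → φ.symm v ∈ (range c)ᶜ := by
    intro v hv hre hmem
    rw [hc] at hmem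
    obtain ⟨y, hy, he⟩ := hmem
    have := hinj v hv y hy he
    apply hre
    rw [this]
    simp
  have hne1 : ∀ v ∈ VV R v1 v2, φ.symm v ≠ c 1 := by
    intro v hv he
    rw [hc1] at he
    have := hinj v hv v2 ⟨by linarith, le_rfl⟩ he
    have h3 := hv.2
    simp only [mem_ofPred_eq] at h3
    rw [this] at h3
    simp at h3
  have hne0 : ∀ v ∈ VV R v1 v2, φ.symm v ≠ c 0 := by
    intro v hv he
    rw [hc0] at he
    have := hinj v hv (-v1) ⟨le_rfl, by linarith⟩ he
    have h3 := hv.1.2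
    simp only [mem_ofPred_eq] at h3
    rw [this] at h3
    simp at h3
  have hkne : ∀ v ∈ VV R v1 v2, k v ≠ 0 := by
    intro v hv h0
    have := hksq v hv
    rw [h0] at this
    have h3 : (φ.symm v - c 1) / (φ.symm v - c 0) ≠ 0 :=
      div_ne_zero (sub_ne_zero.mpr (hne1 v hv)) (sub_ne_zero.mpr (hne0 v hv))
    apply h3
    rw [← this]; simp
  have hsymc : ContinuousOn φ.symm (VV R v1 v2) := φ.continuousOn_symm.mono hVt
  -- right part
  have hR : ∃ ε : ℂ, (ε = 1 ∨ ε = -1) ∧ ∀ v ∈ VV R v1 v2 ∩ {v | 0 < v.re}, h (φ.symm v) = ε * k v := by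
    refine sqrt_unique (f := fun v => h (φ.symm v)) ?_ ?_ ?_ ?_ ?_
    · exact ((VV_convex R v1 v2).inter (convex_halfSpace_re_gt 0)).isPreconnected
    · apply hh.comp (hsymc.mono inter_subset_left)
      intro v hv
      exact hnotc v hv.1 (ne_of_gt hv.2)
    · exact hk.mono inter_subset_left
    · intro v hv
      rw [hsq _ (hnotc v hv.1 (ne_of_gt hv.2)), hksq v hv.1]
    · intro v hv; exact hkne v hv.1
  have hL : ∃ ε : ℂ, (ε = 1 ∨ ε = -1) ∧ ∀ v ∈ VV R v1 v2 ∩ {v | v.re < 0}, h (φ.symm v) = ε * k v := by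
    refine sqrt_unique (f := fun v => h (φ.symm v)) ?_ ?_ ?_ ?_ ?_
    · exact ((VV_convex R v1 v2).inter (convex_halfSpace_re_lt 0)).isPreconnected
    · apply hh.comp (hsymc.mono inter_subset_left)
      intro v hv
      exact hnotc v hv.1 (ne_of_lt hv.2)
    · exact hk.mono inter_subset_left
    · intro v hv
      rw [hsq _ (hnotc v hv.1 (ne_of_lt hv.2)), hksq v hv.1]
    · intro v hv; exact hkne v hv.1
  obtain ⟨εR, hεR, hR⟩ := hR
  obtain ⟨εL, hεL, hL⟩ := hL
  have hneq : εR ≠ εL := by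
    intro heq
    have hrc : IsClosed (range c) := (isCompact_range c.continuous).isClosed
    have hc01 : c 0 ≠ c 1 := by
      intro he
      rw [hc0, hc1] at he
      have := φ.symm.injOn (by simpa using hball (imag_mem_ball R v1 v2 h1' h2' ⟨le_rfl, by linarith⟩))
        (by simpa using hball (imag_mem_ball R v1 v2 h1' h2' ⟨by linarith, le_rfl⟩)) he
      have h3 := congrArg Complex.im this
      simp at h3
      linarith
    classical
    let ht : ℂ → ℂ := fun z => if z ∈ range c then εR * k (φ z) else h z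
    apply no_sqrt (c 0) (c 1) hc01 ht
    · intro z hz
      apply ContinuousAt.continuousWithinAt
      simp only [mem_compl_iff, mem_insert_iff, mem_singleton_iff, not_or] at hz
      by_cases hzc : z ∈ range c
      · rw [hc] at hzc
        obtain ⟨y, hy, rfl⟩ := hzc
        have hyt := hball (imag_mem_ball R v1 v2 h1' h2' hy)
        have hy1 : -v1 < y := lt_of_le_of_ne hy.1 (by rintro rfl; exact hz.1 hc0.symm)
        have hy2 : y < v2 := lt_of_le_of_ne hy.2 (by rintro rfl; exact hz.2 hc1.symm)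
        set z := φ.symm ((y:ℂ) * Complex.I) with hzdef
        have hzs : z ∈ φ.source := φ.map_target hyt
        have hφz : φ z = (y:ℂ) * Complex.I := φ.right_inv hyt
        have hφV : φ z ∈ VV R v1 v2 := by
          rw [hφz]
          refine ⟨⟨imag_mem_ball R v1 v2 h1' h2' hy, ?_⟩, ?_⟩
          · simpa using hy1
          · simpa using hy2
        have hW : φ.source ∩ φ ⁻¹' (VV R v1 v2) ∈ 𝓝 z := by
          apply inter_mem (φ.open_source.mem_nhds hzs)
          exact (φ.continuousAt hzs).preimage_mem_nhds ((VV_open R v1 v2).mem_nhds hφV)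
        have heq2 : (fun z => εR * k (φ z)) =ᶠ[𝓝 z] ht := by
          filter_upwards [hW] with z' hz'
          have hinv : φ.symm (φ z') = z' := φ.left_inv hz'.1
          by_cases hzc' : z' ∈ range c
          · simp only [ht, hzc', if_true]
          · simp only [ht, hzc', if_false]
            rcases lt_trichotomy (φ z').re 0 with h3 | h3 | h3
            · have := hL (φ z') ⟨hz'.2, h3⟩
              rw [hinv] at this
              rw [this, heq]
            · exfalso
              apply hzc'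
              rw [hc]
              refine ⟨(φ z').im, ⟨hz'.2.1.2.le, hz'.2.2.le⟩, ?_⟩
              rw [← hinv]
              congr 1
              rw [hinv]
              apply Complex.ext <;> simp [h3]
            · have := hR (φ z') ⟨hz'.2, h3⟩
              rw [hinv] at this
              rw [this]
        refine ContinuousAt.congr ?_ heq2
        apply ContinuousAt.mul continuousAt_const
        exact ContinuousAt.comp (hk.continuousAt ((VV_open R v1 v2).mem_nhds hφV)) (φ.continuousAt hzs)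
      · have heq2 : h =ᶠ[𝓝 z] ht := by
          filter_upwards [hrc.isOpen_compl.mem_nhds hzc] with z' hz'
          have : z' ∉ range c := hz'
          simp only [ht, this, if_false]
        exact ContinuousAt.congr (hh.continuousAt (hrc.isOpen_compl.mem_nhds hzc)) heq2
    · intro z hz0 hz1
      by_cases hzc : z ∈ range c
      · simp only [ht, hzc, if_true]
        rw [hc] at hzc
        obtain ⟨y, hy, rfl⟩ := hzc
        have hyt := hball (imag_mem_ball R v1 v2 h1' h2' hy)
        have hy1 : -v1 < y := lt_of_le_of_ne hy.1 (by rintro rfl; exact hz0 hc0.symm)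
        have hy2 : y < v2 := lt_of_le_of_ne hy.2 (by rintro rfl; exact hz1 hc1.symm)
        have hφz : φ (φ.symm ((y:ℂ) * Complex.I)) = (y:ℂ) * Complex.I := φ.right_inv hyt
        have hφV : (y:ℂ) * Complex.I ∈ VV R v1 v2 := by
          refine ⟨⟨imag_mem_ball R v1 v2 h1' h2' hy, ?_⟩, ?_⟩
          · simpa using hy1
          · simpa using hy2
        rw [hφz, mul_pow, hksq _ hφV]
        rcases hεR with rfl | rfl <;> norm_num
      · simp only [ht, hzc, if_false]
        exact hsq z hzc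
  refine ⟨εR, hεR, fun v hv hre => hR v ⟨hv, hre⟩, fun v hv hre => ?_⟩
  have : εL = -εR := by
    rcases hεR with rfl | rfl <;> rcases hεL with rfl | rfl
    · exact absurd rfl hneq
    · rfl
    · norm_num
    · exact absurd rfl hneq
  rw [← this]
  exact hL v ⟨hv, hre⟩

end key

end Pool.Agent.W_MP_6ffb05_co
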