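import Pool.Agent.W_MP_6ffb05_co.Defs

set_option autoImplicit false

open Set Topology

namespace Pool.Agent.W_MP_6ffb05_co

/-- orientation determinant -/
def orr (p q r : ℂ) : ℝ := (q.re - p.re) * (r.im - p.im) - (q.im - p.im) * (r.re - p.re)

/-- points on the segment -/
lemma mem_seg {p q z : ℂ} (h : z ∈ segment ℝ p q) :
    ∃ t : ℝ, 0 ≤ t ∧ t ≤ 1 ∧ z.re = p.re + t * (q.re - p.re) ∧ z.im = p.im + t * (q.im - p.im) := by
  rw [segment_eq_image] at h
  obtain ⟨t, ht, rfl⟩ := h
  refine ⟨t, ht.1, ht.2, ?_, ?_⟩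
  · simp; ring
  · simp; ring

lemma mem_seg' {p q z : ℂ} {t : ℝ} (h0 : 0 ≤ t) (h1 : t ≤ 1) (h2 : z.re = p.re + t * (q.re - p.re))
    (h3 : z.im = p.im + t * (q.im - p.im)) : z ∈ segment ℝ p q := by
  rw [segment_eq_image]
  refine ⟨t, ⟨h0, h1⟩, ?_⟩
  apply Complex.ext
  · simp [h2]; ring
  · simp [h3]; ring

lemma seg_line {p q z : ℂ} (h : z ∈ segment ℝ p q) : orr p q z = 0 := by
  obtain ⟨t, _, _, h2, h3⟩ := mem_seg h
  unfold orr
  rw [h2, h3]; ring

lemma isJordanArc_segment {p q : ℂ} (h : p ≠ q) : IsJordanArc (segment ℝ p q) p q := by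
  refine ⟨fun t => (1 - t) • p + t • q, ?_, ?_, ?_, ?_, ?_⟩
  · exact Continuous.continuousOn (by fun_prop)
  · intro s _ t _ hst
    have h1 : (s - t) • (q - p) = 0 := by
      have h2 : (1 - s) • p + s • q = (1 - t) • p + t • q := hst
      have : (s - t) • (q - p) = ((1 - s) • p + s • q) - ((1 - t) • p + t • q) := by
        simp only [Complex.real_smul]; push_cast; ring
      rw [this, h2, sub_self]
    rcases smul_eq_zero.mp h1 with h2 | h2
    · linarith
    · exact absurd (sub_eq_zero.mp h2).symm h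
  · simp
  · simp
  · rw [segment_eq_image]

/-- Segments sharing an endpoint only. -/
lemma seg_adj {p q r z : ℂ} (h : orr p q r ≠ 0) (h1 : z ∈ segment ℝ p q) (h2 : z ∈ segment ℝ p r) :
    z = p := by
  obtain ⟨t, _, _, a2, a3⟩ := mem_seg h1
  obtain ⟨u, _, _, b2, b3⟩ := mem_seg h2
  have e2 : t * (q.re - p.re) = u * (r.re - p.re) := by linarith
  have e3 : t * (q.im - p.im) = u * (r.im - p.im) := by linarith
  have : t * orr p q r = 0 := by
    unfold orr
    have : t * ((q.re - p.re) * (r.im - p.im) - (q.im - p.im) * (r.re - p.re)) =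
        (t * (q.re - p.re)) * (r.im - p.im) - (t * (q.im - p.im)) * (r.re - p.re) := by ring
    rw [this, e2, e3]; ring
  rcases mul_eq_zero.mp this with h5 | h5
  · apply Complex.ext
    · rw [a2, h5]; ring
    · rw [a3, h5]; ring
  · exact absurd h5 h

lemma seg_cross_sign {p q r s z : ℂ} (hr : orr p q r ≠ 0) (hs : orr p q s ≠ 0)
    (h1 : z ∈ segment ℝ p q) (h2 : z ∈ segment ℝ r s) : orr p q r * orr p q s < 0 := by
  obtain ⟨u, hu0, hu1, b2, b3⟩ := mem_seg h2
  have h3 := seg_line h1
  have h4 : (1 - u) * orr p q r + u * orr p q s = 0 := by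
    rw [← h3]; unfold orr; rw [b2, b3]; ring
  rcases lt_trichotomy (orr p q r) 0 with h5 | h5 | h5
  · rcases lt_trichotomy (orr p q s) 0 with h6 | h6 | h6
    · exfalso
      rcases lt_or_eq_of_le hu0 with h7 | h7
      · nlinarith
      · rw [← h7] at h4; simp at h4; exact hr h4
    · exact absurd h6 hs
    · exact mul_neg_of_neg_of_pos h5 h6
  · exact absurd h5 hr
  · rcases lt_trichotomy (orr p q s) 0 with h6 | h6 | h6
    · exact mul_neg_of_pos_of_neg h5 h6
    · exact absurd h6 hs
    · exfalso
      rcases lt_or_eq_of_le hu0 with h7 | h7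
      · nlinarith
      · rw [← h7] at h4; simp at h4; exact hr h4

/-- Data of a transversal crossing of two segments. -/
lemma seg_cross_exists {p q r s : ℂ} (h1 : orr p q r * orr p q s < 0) (h2 : orr r s p * orr r s q < 0) :
    ∃ z : ℂ, ∃ t u : ℝ, 0 < t ∧ t < 1 ∧ 0 < u ∧ u < 1 ∧ z.re = p.re + t * (q.re - p.re) ∧
      z.im = p.im + t * (q.im - p.im) ∧ z.re = r.re + u * (s.re - r.re) ∧
      z.im = r.im + u * (s.im - r.im) := by
  set Δ := (q.re - p.re) * (s.im - r.im) - (q.im - p.im) * (s.re - r.re) with hΔ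
  have e1 : orr p q s - orr p q r = Δ := by rw [hΔ]; unfold orr; ring
  have e2 : orr r s q - orr r s p = -Δ := by rw [hΔ]; unfold orr; ring
  have hΔ0 : Δ ≠ 0 := by
    intro h
    rw [h] at e1
    have : orr p q s = orr p q r := by linarith
    rw [this] at h1
    nlinarith [mul_self_nonneg (orr p q r)]
  have hfrac : ∀ A B : ℝ, A * B < 0 → 0 < A / (A - B) ∧ A / (A - B) < 1 := by
    intro A B hAB
    rcases lt_trichotomy A 0 with hA | hA | hA
    · have hB : 0 < B := by
        by_contra hc
        push Not at hc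
        nlinarith
      have hAB' : A - B < 0 := by linarith
      constructor
      · exact div_pos_of_neg_of_neg hA hAB'
      · rw [div_lt_one_of_neg hAB']; linarith
    · rw [hA] at hAB; simp at hAB
    · have hB : B < 0 := by
        by_contra hc
        push Not at hc
        nlinarith
      have hAB' : 0 < A - B := by linarith
      constructor
      · exact div_pos hA hAB'
      · rw [div_lt_one hAB']; linarith
  obtain ⟨hu0, hu1⟩ := hfrac _ _ h1
  obtain ⟨ht0, ht1⟩ := hfrac _ _ h2
  have f1 : orr p q r - orr p q s = -Δ := by linarith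
  have f2 : orr r s p - orr r s q = Δ := by linarith
  rw [f1] at hu0 hu1
  rw [f2] at ht0 ht1
  refine ⟨⟨p.re + (orr r s p / Δ) * (q.re - p.re), p.im + (orr r s p / Δ) * (q.im - p.im)⟩,
    orr r s p / Δ, orr p q r / (-Δ), ht0, ht1, hu0, hu1, rfl, rfl, ?_, ?_⟩
  · show p.re + (orr r s p / Δ) * (q.re - p.re) = r.re + orr p q r / (-Δ) * (s.re - r.re)
    field_simp
    rw [hΔ]; unfold orr; ring
  · show p.im + (orr r s p / Δ) * (q.im - p.im) = r.im + orr p q r / (-Δ) * (s.im - r.im)
    field_simp
    rw [hΔ]; unfold orr; ring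

/-- The crossing is a proper crossing. -/
lemma seg_proper {p q r s z : ℂ} {t u : ℝ} (ht0 : 0 < t) (ht1 : t < 1) (hu0 : 0 < u) (hu1 : u < 1)
    (a1 : z.re = p.re + t * (q.re - p.re)) (a2 : z.im = p.im + t * (q.im - p.im))
    (b1 : z.re = r.re + u * (s.re - r.re)) (b2 : z.im = r.im + u * (s.im - r.im))
    (hΔ : (q.re - p.re) * (s.im - r.im) - (q.im - p.im) * (s.re - r.re) ≠ 0) :
    IsProperCrossing (segment ℝ p q) (segment ℝ r s) z := by
  set Δ := (q.re - p.re) * (s.im - r.im) - (q.im - p.im) * (s.re - r.re) with hΔdef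
  -- coordinates `w = z + a (q-p) + b (s-r)` with `a = re`, `b = im`
  let f : ℂ ≃ₜ ℂ := {
    toFun := fun w => ⟨((w.re - z.re) * (s.im - r.im) - (w.im - z.im) * (s.re - r.re)) / Δ,
      ((q.re - p.re) * (w.im - z.im) - (q.im - p.im) * (w.re - z.re)) / Δ⟩
    invFun := fun v => ⟨z.re + v.re * (q.re - p.re) + v.im * (s.re - r.re),
      z.im + v.re * (q.im - p.im) + v.im * (s.im - r.im)⟩
    left_inv := by
      intro w
      apply Complex.ext
      · simp only
        field_simp
        rw [hΔdef]; ring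
      · simp only
        field_simp
        rw [hΔdef]; ring
    right_inv := by
      intro v
      apply Complex.ext
      · simp only
        field_simp
        rw [hΔdef]; ring
      · simp only
        field_simp
        rw [hΔdef]; ring
    continuous_toFun := by
      have h1 : Continuous (fun w : ℂ => ((w.re - z.re) * (s.im - r.im) - (w.im - z.im) * (s.re - r.re)) / Δ) := by
        fun_prop
      have h2 : Continuous (fun w : ℂ => ((q.re - p.re) * (w.im - z.im) - (q.im - p.im) * (w.re - z.re)) / Δ) := by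
        fun_prop
      exact Complex.equivRealProdCLM.symm.continuous.comp (h1.prodMk h2)
    continuous_invFun := by
      have h1 : Continuous (fun v : ℂ => z.re + v.re * (q.re - p.re) + v.im * (s.re - r.re)) := by
        fun_prop
      have h2 : Continuous (fun v : ℂ => z.im + v.re * (q.im - p.im) + v.im * (s.im - r.im)) := by
        fun_prop
      exact Complex.equivRealProdCLM.symm.continuous.comp (h1.prodMk h2) }
  set ε := min (min t (1 - t)) (min u (1 - u)) with hε
  have hε0 : 0 < ε := lt_min (lt_min ht0 (by linarith)) (lt_min hu0 (by linarith))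
  have hε1 : ε ≤ t := (min_le_left _ _).trans (min_le_left _ _)
  have hε2 : ε ≤ 1 - t := (min_le_left _ _).trans (min_le_right _ _)
  have hε3 : ε ≤ u := (min_le_right _ _).trans (min_le_left _ _)
  have hε4 : ε ≤ 1 - u := (min_le_right _ _).trans (min_le_right _ _)
  let U : Set ℂ := {w | |(f w).re| < ε ∧ |(f w).im| < ε}
  have hU : IsOpen U := by
    apply IsOpen.inter
    · exact isOpen_lt ((Complex.continuous_re.comp f.continuous).abs) continuous_const
    · exact isOpen_lt ((Complex.continuous_im.comp f.continuous).abs) continuous_const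
  have hfz : f z = 0 := by
    apply Complex.ext
    · show ((z.re - z.re) * (s.im - r.im) - (z.im - z.im) * (s.re - r.re)) / Δ = 0
      simp
    · show ((q.re - p.re) * (z.im - z.im) - (q.im - p.im) * (z.re - z.re)) / Δ = 0
      simp
  refine ⟨f.toOpenPartialHomeomorph.restrOpen U hU, ?_, ?_, ?_⟩
  · refine ⟨mem_univ _, ?_⟩
    show |(f z).re| < ε ∧ |(f z).im| < ε
    rw [hfz]; simp [hε0]
  · exact hfz
  · rintro w ⟨_, hw⟩
    have hw' : |(f w).re| < ε ∧ |(f w).im| < ε := hw
    rw [abs_lt, abs_lt] at hw'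
    have hwre : w.re = z.re + (f w).re * (q.re - p.re) + (f w).im * (s.re - r.re) :=
      congrArg Complex.re (f.left_inv w).symm
    have hwim : w.im = z.im + (f w).re * (q.im - p.im) + (f w).im * (s.im - r.im) :=
      congrArg Complex.im (f.left_inv w).symm
    have him : (f w).im = ((q.re - p.re) * (w.im - z.im) - (q.im - p.im) * (w.re - z.re)) / Δ := rfl
    have hre : (f w).re = ((w.re - z.re) * (s.im - r.im) - (w.im - z.im) * (s.re - r.re)) / Δ := rfl
    show (w ∈ segment ℝ p q ↔ (f w).im = 0) ∧ (w ∈ segment ℝ r s ↔ (f w).re = 0)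
    constructor
    · constructor
      · intro hm
        obtain ⟨τ, _, _, c1, c2⟩ := mem_seg hm
        rw [him, c1, c2, a1, a2]
        field_simp
        ring
      · intro h0
        rw [h0] at hwre hwim
        apply mem_seg' (t := t + (f w).re) (by linarith [hw'.1.1]) (by linarith [hw'.1.2])
        · rw [hwre, a1]; ring
        · rw [hwim, a2]; ring
    · constructor
      · intro hm
        obtain ⟨τ, _, _, c1, c2⟩ := mem_seg hm
        rw [hre, c1, c2, b1, b2]
        field_simp
        ring
      · intro h0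
        rw [h0] at hwre hwim
        apply mem_seg' (t := u + (f w).im) (by linarith [hw'.2.1]) (by linarith [hw'.2.2])
        · rw [hwre, b1]; ring
        · rw [hwim, b2]; ring

end Pool.Agent.W_MP_6ffb05_co
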