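import Pool.Agent.W_MP_6ffb05_co.Total
import Pool.Agent.W_MP_6ffb05_co.Codes

set_option autoImplicit false

open Set

namespace Pool.Agent.W_MP_6ffb05_co

/-- the crossing indicator of the pair number `k` -/
noncomputable def KD (D : SimpleDrawing (⊤ : SimpleGraph (Fin 5))) (k : Fin 15) : ℕ :=
  ind (D.arc s(qa k, qb k)) (D.arc s(qc k, qd k))

lemma KD_le (D : SimpleDrawing (⊤ : SimpleGraph (Fin 5))) (k : Fin 15) : KD D k ≤ 1 := by
  unfold KD; exact Ctx.ind_le_one _ _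

lemma ind_eq_KD (D : SimpleDrawing (⊤ : SimpleGraph (Fin 5))) (a b c d : Fin 5)
    (h : [a, b, c, d].Nodup) : ind (D.arc s(a, b)) (D.arc s(c, d)) = KD D (kidx a b c d) := by
  unfold KD
  rcases canon a b c d h with ⟨h1, h2⟩ | ⟨h1, h2⟩
  · rw [← h1, ← h2]
  · rw [← h1, ← h2, ind_comm]

lemma nodup4 {a b c d : Fin 5} : [a, b, c, d].Nodup ↔
    a ≠ b ∧ a ≠ c ∧ a ≠ d ∧ b ≠ c ∧ b ≠ d ∧ c ≠ d := by
  simp only [List.nodup_cons, List.mem_cons, List.not_mem_nil, or_false, not_or, not_false_eq_true,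
    List.nodup_nil, and_true]
  tauto

lemma nodup5 {a b c d e : Fin 5} : [a, b, c, d, e].Nodup ↔
    a ≠ b ∧ a ≠ c ∧ a ≠ d ∧ a ≠ e ∧ b ≠ c ∧ b ≠ d ∧ b ≠ e ∧ c ≠ d ∧ c ≠ e ∧ d ≠ e := by
  simp only [List.nodup_cons, List.mem_cons, List.not_mem_nil, or_false, not_or, not_false_eq_true,
    List.nodup_nil, and_true]
  tauto

lemma F1 (D : SimpleDrawing (⊤ : SimpleGraph (Fin 5))) (a b c d : Fin 5) (h : [a, b, c, d].Nodup)
    (h1 : KD D (kidx a b c d) = 1) : KD D (kidx a c b d) = 0 ∧ KD D (kidx a d b c) = 0 := by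
  obtain ⟨hab, hac, had, hbc, hbd, hcd⟩ := nodup4.mp h
  rw [← ind_eq_KD D a b c d h] at h1
  have hne : (D.arc s(a, b) ∩ D.arc s(c, d)).Nonempty := by
    by_contra hn
    unfold ind at h1
    rw [if_neg hn] at h1
    exact absurd h1 (by norm_num)
  obtain ⟨x, hx1, hx2⟩ := hne
  obtain ⟨XA, XB, XC, XD, hC⟩ := Ctx.exists_ctx D (by simpa using hab) (by simpa using hcd) hac had hbc hbd hx1 hx2
  have t1 := hC.no_two (by simpa using hbc) (by simpa using had.symm)
  have t2 := hC.swap_cd.no_two (by simpa using hbd) (by simpa using hac.symm)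
  have n1 : [d, a, b, c].Nodup := nodup4.mpr ⟨had.symm, hbd.symm, hcd.symm, hab, hac, hbc⟩
  have n2 : [c, a, b, d].Nodup := nodup4.mpr ⟨hac.symm, hbc.symm, hcd, hab, had, hbd⟩
  constructor
  · rw [← kidx_swap1, ← ind_eq_KD D c a b d n2]
    unfold ind; rw [if_neg t2]
  · rw [← kidx_swap1, ← ind_eq_KD D d a b c n1]
    unfold ind; rw [if_neg t1]

lemma F2 (D : SimpleDrawing (⊤ : SimpleGraph (Fin 5))) (a b c d e : Fin 5) (h : [a, b, c, d, e].Nodup)
    (h1 : KD D (kidx a b c d) = 1) : Odd (∑ k, KD D k) := by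
  obtain ⟨hab, hac, had, hae, hbc, hbd, hbe, hcd, hce, hde⟩ := nodup5.mp h
  have h4 : [a, b, c, d].Nodup := nodup4.mpr ⟨hab, hac, had, hbc, hbd, hcd⟩
  obtain ⟨z1, z2⟩ := F1 D a b c d h4 h1
  have h1' := h1
  rw [← ind_eq_KD D a b c d h4] at h1
  have hne : (D.arc s(a, b) ∩ D.arc s(c, d)).Nonempty := by
    by_contra hn
    unfold ind at h1
    rw [if_neg hn] at h1
    exact absurd h1 (by norm_num)
  obtain ⟨x, hx1, hx2⟩ := hne
  obtain ⟨XA, XB, XC, XD, hC⟩ := Ctx.exists_ctx D (by simpa using hab) (by simpa using hcd) hac had hbc hbd hx1 hx2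
  have t := hC.total (by simpa using hac) (by simpa using had) (by simpa using hbc) (by simpa using hbd)
    e (by simpa using hae) (by simpa using hbe) (by simpa using hce) (by simpa using hde)
  rw [ind_eq_KD D a e b c (nodup4.mpr ⟨hae, hab, hac, hbe.symm, hce.symm, hbc⟩),
    ind_eq_KD D a e b d (nodup4.mpr ⟨hae, hab, had, hbe.symm, hde.symm, hbd⟩),
    ind_eq_KD D a e c d (nodup4.mpr ⟨hae, hac, had, hce.symm, hde.symm, hcd⟩),
    ind_eq_KD D b e a c (nodup4.mpr ⟨hbe, hab.symm, hbc, hae.symm, hce.symm, hac⟩),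
    ind_eq_KD D b e a d (nodup4.mpr ⟨hbe, hab.symm, hbd, hae.symm, hde.symm, had⟩),
    ind_eq_KD D b e c d (nodup4.mpr ⟨hbe, hbc, hbd, hce.symm, hde.symm, hcd⟩),
    ind_eq_KD D c e a b (nodup4.mpr ⟨hce, hac.symm, hbc.symm, hae.symm, hbe.symm, hab⟩),
    ind_eq_KD D c e a d (nodup4.mpr ⟨hce, hac.symm, hcd, hae.symm, hde.symm, had⟩),
    ind_eq_KD D c e b d (nodup4.mpr ⟨hce, hbc.symm, hcd, hbe.symm, hde.symm, hbd⟩),
    ind_eq_KD D d e a b (nodup4.mpr ⟨hde, had.symm, hbd.symm, hae.symm, hbe.symm, hab⟩),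
    ind_eq_KD D d e a c (nodup4.mpr ⟨hde, had.symm, hcd.symm, hae.symm, hce.symm, hac⟩),
    ind_eq_KD D d e b c (nodup4.mpr ⟨hde, hbd.symm, hcd.symm, hbe.symm, hce.symm, hbc⟩)] at t
  have hp := (perm15 a b c d e h).map (KD D)
  have hs := hp.sum_eq
  have hfin : ((List.finRange 15).map (KD D)).sum = ∑ k, KD D k := by
    rw [← List.sum_ofFn, List.ofFn_eq_map]
  rw [hfin] at hs
  rw [← hs]
  simp only [L15, List.map_cons, List.map_nil, List.sum_cons, List.sum_nil]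
  rw [h1', z1, z2]
  rw [Nat.even_iff] at t
  rw [Nat.odd_iff]
  omega

lemma same_v : ∀ k k' : Fin 15, k ≠ k' → k.val / 3 = k'.val / 3 →
    k' = kidx (qa k) (qc k) (qb k) (qd k) ∨ k' = kidx (qa k) (qd k) (qb k) (qc k) := by decide +kernel

lemma fifth : ∀ k : Fin 15, ∃ e : Fin 5, [qa k, qb k, qc k, qd k, e].Nodup := by decide +kernel

lemma G1 (D : SimpleDrawing (⊤ : SimpleGraph (Fin 5))) (k k' : Fin 15) (hk : k ≠ k')
    (hv : k.val / 3 = k'.val / 3) (h1 : KD D k = 1) : KD D k' = 0 := by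
  have h2 := F1 D (qa k) (qb k) (qc k) (qd k) (quad_nodup k) (by rw [kidx_quad]; exact h1)
  rcases same_v k k' hk hv with h3 | h3
  · rw [h3]; exact h2.1
  · rw [h3]; exact h2.2

lemma G2 (D : SimpleDrawing (⊤ : SimpleGraph (Fin 5))) (k : Fin 15) (h1 : KD D k = 1) :
    Odd (∑ k, KD D k) := by
  obtain ⟨e, he⟩ := fifth k
  exact F2 D (qa k) (qb k) (qc k) (qd k) e he (by rw [kidx_quad]; exact h1)

lemma digit (x y z : ℕ) (hx : x ≤ 1) (hy : y ≤ 1) (hz : z ≤ 1) (hxy : x = 1 → y = 0)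
    (hxz : x = 1 → z = 0) (hyz : y = 1 → z = 0) : ∃ d : ℕ, d ≤ 3 ∧
      ((if d = 0 then 0 else 1) = x + y + z) ∧
      (x = if d = 0 + 1 then 1 else 0) ∧ (y = if d = 1 + 1 then 1 else 0) ∧
      (z = if d = 2 + 1 then 1 else 0) := by
  have hx' : x = 0 ∨ x = 1 := by omega
  have hy' : y = 0 ∨ y = 1 := by omega
  have hz' : z = 0 ∨ z = 1 := by omega
  rcases hx' with rfl | rfl
  · rcases hy' with rfl | rfl
    · rcases hz' with rfl | rfl
      · exact ⟨0, by norm_num, by norm_num, by norm_num, by norm_num, by norm_num⟩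
      · exact ⟨3, by norm_num, by norm_num, by norm_num, by norm_num, by norm_num⟩
    · have := hyz rfl
      subst this
      exact ⟨2, by norm_num, by norm_num, by norm_num, by norm_num, by norm_num⟩
  · have h1 := hxy rfl
    have h2 := hxz rfl
    subst h1 h2
    exact ⟨1, by norm_num, by norm_num, by norm_num, by norm_num, by norm_num⟩

lemma digits (d0 d1 d2 d3 d4 : ℕ) (h0 : d0 ≤ 3) (h1 : d1 ≤ 3) (h2 : d2 ≤ 3) (h3 : d3 ≤ 3)
    (h4 : d4 ≤ 3) : ∃ n : ℕ, n < 1024 ∧ n % 4 = d0 ∧ n / 4 % 4 = d1 ∧ n / 16 % 4 = d2 ∧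
      n / 64 % 4 = d3 ∧ n / 256 % 4 = d4 :=
  ⟨d0 + 4 * d1 + 16 * d2 + 64 * d3 + 256 * d4, by omega, by omega, by omega, by omega, by omega,
    by omega⟩

lemma sum15 (K : Fin 15 → ℕ) : ∑ k, K k = (K 0 + K 1 + K 2) + (K 3 + K 4 + K 5) +
    (K 6 + K 7 + K 8) + (K 9 + K 10 + K 11) + (K 12 + K 13 + K 14) := by
  have : ∑ k, K k = ((((((((((((((K 0 + K 1) + K 2) + K 3) + K 4) + K 5) + K 6) + K 7) + K 8) + K 9) +
      K 10) + K 11) + K 12) + K 13) + K 14) := by
    simp only [Fin.sum_univ_castSucc, Fin.sum_univ_zero, zero_add]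
    rfl
  rw [this]
  ring

/-- From a pattern to its representative. -/
lemma comb (K : Fin 15 → ℕ) (hK : ∀ k, K k ≤ 1)
    (g1 : ∀ k k' : Fin 15, k ≠ k' → k.val / 3 = k'.val / 3 → K k = 1 → K k' = 0)
    (g2 : ∀ k : Fin 15, K k = 1 → Odd (∑ k, K k)) :
    ∃ i j : ℕ, i < 15 ∧ j < 120 ∧ ∀ k : Fin 15, K k =
      rp i (kidx (pf j (qa k)) (pf j (qb k)) (pf j (qc k)) (pf j (qd k))) := by
  have hpar : (∑ k, K k) = 0 ∨ (∑ k, K k) % 2 = 1 := by
    by_cases hz : ∀ k, K k = 0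
    · left; exact Finset.sum_eq_zero (fun k _ => hz k)
    · right
      push Not at hz
      obtain ⟨k, hk⟩ := hz
      have : K k = 1 := by have := hK k; omega
      exact Nat.odd_iff.mp (g2 k this)
  rw [sum15] at hpar
  obtain ⟨d0, l0, s0, x0, x1, x2⟩ := digit (K 0) (K 1) (K 2) (hK 0) (hK 1) (hK 2)
    (g1 0 1 (by decide) (by decide)) (g1 0 2 (by decide) (by decide)) (g1 1 2 (by decide) (by decide))
  obtain ⟨d1, l1, s1, x3, x4, x5⟩ := digit (K 3) (K 4) (K 5) (hK 3) (hK 4) (hK 5)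
    (g1 3 4 (by decide) (by decide)) (g1 3 5 (by decide) (by decide)) (g1 4 5 (by decide) (by decide))
  obtain ⟨d2, l2, s2, x6, x7, x8⟩ := digit (K 6) (K 7) (K 8) (hK 6) (hK 7) (hK 8)
    (g1 6 7 (by decide) (by decide)) (g1 6 8 (by decide) (by decide)) (g1 7 8 (by decide) (by decide))
  obtain ⟨d3, l3, s3, x9, x10, x11⟩ := digit (K 9) (K 10) (K 11) (hK 9) (hK 10) (hK 11)
    (g1 9 10 (by decide) (by decide)) (g1 9 11 (by decide) (by decide)) (g1 10 11 (by decide) (by decide))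
  obtain ⟨d4, l4, s4, x12, x13, x14⟩ := digit (K 12) (K 13) (K 14) (hK 12) (hK 13) (hK 14)
    (g1 12 13 (by decide) (by decide)) (g1 12 14 (by decide) (by decide))
    (g1 13 14 (by decide) (by decide))
  obtain ⟨n, hn, e0, e1, e2, e3, e4⟩ := digits d0 d1 d2 d3 d4 l0 l1 l2 l3 l4
  have hnz : nz n = (K 0 + K 1 + K 2) + (K 3 + K 4 + K 5) +
    (K 6 + K 7 + K 8) + (K 9 + K 10 + K 11) + (K 12 + K 13 + K 14) := by
    unfold nz
    rw [e0, e1, e2, e3, e4, s0, s1, s2, s3, s4]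
  rw [← hnz] at hpar
  obtain ⟨r1, r2, r3⟩ := table_ok ⟨n, hn⟩ hpar
  refine ⟨ri n, rj n, r1, r2, fun k => ?_⟩
  rw [← r3 k]
  show K k = if (n / 4 ^ (k.val / 3)) % 4 = k.val % 3 + 1 then 1 else 0
  fin_cases k
  · show K 0 = if (n / 1) % 4 = 0 + 1 then 1 else 0
    rw [Nat.div_one, e0]; exact x0
  · show K 1 = if (n / 1) % 4 = 1 + 1 then 1 else 0
    rw [Nat.div_one, e0]; exact x1
  · show K 2 = if (n / 1) % 4 = 2 + 1 then 1 else 0
    rw [Nat.div_one, e0]; exact x2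
  · show K 3 = if (n / 4) % 4 = 0 + 1 then 1 else 0
    rw [e1]; exact x3
  · show K 4 = if (n / 4) % 4 = 1 + 1 then 1 else 0
    rw [e1]; exact x4
  · show K 5 = if (n / 4) % 4 = 2 + 1 then 1 else 0
    rw [e1]; exact x5
  · show K 6 = if (n / 16) % 4 = 0 + 1 then 1 else 0
    rw [e2]; exact x6
  · show K 7 = if (n / 16) % 4 = 1 + 1 then 1 else 0
    rw [e2]; exact x7
  · show K 8 = if (n / 16) % 4 = 2 + 1 then 1 else 0
    rw [e2]; exact x8
  · show K 9 = if (n / 64) % 4 = 0 + 1 then 1 else 0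
    rw [e3]; exact x9
  · show K 10 = if (n / 64) % 4 = 1 + 1 then 1 else 0
    rw [e3]; exact x10
  · show K 11 = if (n / 64) % 4 = 2 + 1 then 1 else 0
    rw [e3]; exact x11
  · show K 12 = if (n / 256) % 4 = 0 + 1 then 1 else 0
    rw [e4]; exact x12
  · show K 13 = if (n / 256) % 4 = 1 + 1 then 1 else 0
    rw [e4]; exact x13
  · show K 14 = if (n / 256) % 4 = 2 + 1 then 1 else 0
    rw [e4]; exact x14

lemma kidx_map (j : ℕ) (a b c d : Fin 5) (h : [a, b, c, d].Nodup) :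
    kidx (pf j (qa (kidx a b c d))) (pf j (qb (kidx a b c d))) (pf j (qc (kidx a b c d)))
      (pf j (qd (kidx a b c d))) = kidx (pf j a) (pf j b) (pf j c) (pf j d) := by
  have hc := canon a b c d h
  generalize qa (kidx a b c d) = p at *
  generalize qb (kidx a b c d) = q at *
  generalize qc (kidx a b c d) = r at *
  generalize qd (kidx a b c d) = s at *
  simp only [Sym2.eq_iff] at hc
  rcases hc with ⟨⟨rfl, rfl⟩ | ⟨rfl, rfl⟩, ⟨rfl, rfl⟩ | ⟨rfl, rfl⟩⟩ |
    ⟨⟨rfl, rfl⟩ | ⟨rfl, rfl⟩, ⟨rfl, rfl⟩ | ⟨rfl, rfl⟩⟩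
  · rfl
  · rw [kidx_swap3]
  · rw [kidx_swap1]
  · rw [kidx_swap1, kidx_swap3]
  · rw [kidx_swap2]
  · rw [kidx_swap2, kidx_swap3]
  · rw [kidx_swap2, kidx_swap1]
  · rw [kidx_swap2, kidx_swap1, kidx_swap3]

/-- Every drawing of the complete graph on five vertices has one of fifteen patterns. -/
lemma exists_rep (D : SimpleDrawing (⊤ : SimpleGraph (Fin 5))) :
    ∃ i j : ℕ, i < 15 ∧ j < 120 ∧ ∀ a b c d : Fin 5, [a, b, c, d].Nodup →
      ind (D.arc s(a, b)) (D.arc s(c, d)) = rp i (kidx (pf j a) (pf j b) (pf j c) (pf j d)) := by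
  obtain ⟨i, j, hi, hj, hk⟩ := comb (KD D) (KD_le D) (G1 D) (G2 D)
  refine ⟨i, j, hi, hj, fun a b c d h => ?_⟩
  rw [ind_eq_KD D a b c d h, hk, kidx_map j a b c d h]

/-- the permutation number `j` -/
lemma pf_injective {j : ℕ} (hj : j < 120) : Function.Injective (pf j) := by
  have h := nodup5.mp (pf_inj ⟨j, hj⟩)
  intro a b hab
  by_contra hne
  obtain ⟨h1, h2, h3, h4, h5, h6, h7, h8, h9, h10⟩ := h
  have key : ∀ a b : Fin 5, a < b → pf j a ≠ pf j b := by
    intro a b hlt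
    fin_cases a <;> fin_cases b <;> first
      | exact absurd hlt (by decide)
      | exact h1
      | exact h2
      | exact h3
      | exact h4
      | exact h5
      | exact h6
      | exact h7
      | exact h8
      | exact h9
      | exact h10
  rcases lt_trichotomy a b with h' | h' | h'
  · exact key a b h' hab
  · exact hne h'
  · exact key b a h' hab.symm

/-- the crossing relation in terms of the indicator -/
lemma crosses_iff (D : SimpleDrawing (⊤ : SimpleGraph (Fin 5))) (a b c d : Fin 5)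
    (h : [a, b, c, d].Nodup) : D.Crosses s(a, b) s(c, d) ↔ ind (D.arc s(a, b)) (D.arc s(c, d)) = 1 := by
  obtain ⟨hab, hac, had, hbc, hbd, hcd⟩ := nodup4.mp h
  have hEab : s(a, b) ∈ (⊤ : SimpleGraph (Fin 5)).edgeSet := by simpa using hab
  have hEcd : s(c, d) ∈ (⊤ : SimpleGraph (Fin 5)).edgeSet := by simpa using hcd
  constructor
  · rintro ⟨p, hp, _⟩
    unfold ind; rw [if_pos ⟨p, hp⟩]
  · intro h1
    have hne : (D.arc s(a, b) ∩ D.arc s(c, d)).Nonempty := by
      by_contra hn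
      unfold ind at h1
      rw [if_neg hn] at h1
      exact absurd h1 (by norm_num)
    obtain ⟨p, hp1, hp2⟩ := hne
    refine ⟨p, ⟨hp1, hp2⟩, ?_⟩
    rintro v rfl
    have m1 := D.mem_of_pt_mem hEab hp1
    have m2 := D.mem_of_pt_mem hEcd hp2
    rw [Sym2.mem_iff] at m1 m2
    rcases m1 with rfl | rfl <;> rcases m2 with m2 | m2
    · exact hac m2
    · exact had m2
    · exact hbc m2
    · exact hbd m2

lemma not_crosses_adj {V : Type} {G : SimpleGraph V} (D : SimpleDrawing G) {e f : Sym2 V}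
    (he : e ∈ G.edgeSet) (hf : f ∈ G.edgeSet) (hef : e ≠ f) {w : V} (hwe : w ∈ e) (hwf : w ∈ f) :
    ¬ D.Crosses e f := by
  rintro ⟨p, ⟨hp1, hp2⟩, hv⟩
  exact hv w (D.eq_pt_of_mem he hf hef hwe hwf hp1 hp2)

/-- an automorphism of the complete graph from a permutation -/
def topIso (σ : Equiv.Perm (Fin 5)) : (⊤ : SimpleGraph (Fin 5)) ≃g (⊤ : SimpleGraph (Fin 5)) where
  toEquiv := σ
  map_rel_iff' := by
    intro a b
    simp

lemma weakIso_of_rep (D D' : SimpleDrawing (⊤ : SimpleGraph (Fin 5))) {i i' j j' : ℕ} (hi : i = i')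
    (hj : j < 120) (hj' : j' < 120)
    (h : ∀ a b c d : Fin 5, [a, b, c, d].Nodup →
      ind (D.arc s(a, b)) (D.arc s(c, d)) = rp i (kidx (pf j a) (pf j b) (pf j c) (pf j d)))
    (h' : ∀ a b c d : Fin 5, [a, b, c, d].Nodup →
      ind (D'.arc s(a, b)) (D'.arc s(c, d)) = rp i' (kidx (pf j' a) (pf j' b) (pf j' c) (pf j' d))) :
    WeakIso D D' := by
  subst hi
  let σ : Equiv.Perm (Fin 5) := Equiv.ofBijective (pf j) (Finite.injective_iff_bijective.mp (pf_injective hj))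
  let τ : Equiv.Perm (Fin 5) := Equiv.ofBijective (pf j') (Finite.injective_iff_bijective.mp (pf_injective hj'))
  have hτ : ∀ a, pf j' ((σ.trans τ.symm) a) = pf j a := by
    intro a
    show τ (τ.symm (σ a)) = pf j a
    rw [Equiv.apply_symm_apply]
    rfl
  refine ⟨topIso (σ.trans τ.symm), fun e he f hf hef => ?_⟩
  by_cases hadj : ∃ w, w ∈ e ∧ w ∈ f
  · obtain ⟨w, hwe, hwf⟩ := hadj
    have n1 := not_crosses_adj D he hf hef hwe hwf
    have n2 : ¬ D'.Crosses (e.map (topIso (σ.trans τ.symm))) (f.map (topIso (σ.trans τ.symm))) := by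
      apply not_crosses_adj D' (map_mem_edgeSet _ he) (map_mem_edgeSet _ hf)
        (fun hh => hef (Sym2.map.injective (topIso (σ.trans τ.symm)).injective hh))
        (w := topIso (σ.trans τ.symm) w)
      · exact Sym2.mem_map.mpr ⟨w, hwe, rfl⟩
      · exact Sym2.mem_map.mpr ⟨w, hwf, rfl⟩
    exact iff_of_false n1 n2
  · induction e with
    | h a b =>
      induction f with
      | h c d =>
        have hab : a ≠ b := by simpa using he
        have hcd : c ≠ d := by simpa using hf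
        have hac : a ≠ c := fun hh => hadj ⟨a, by simp, by simp [hh]⟩
        have had : a ≠ d := fun hh => hadj ⟨a, by simp, by simp [hh]⟩
        have hbc : b ≠ c := fun hh => hadj ⟨b, by simp, by simp [hh]⟩
        have hbd : b ≠ d := fun hh => hadj ⟨b, by simp, by simp [hh]⟩
        have hn : [a, b, c, d].Nodup := nodup4.mpr ⟨hab, hac, had, hbc, hbd, hcd⟩
        set ρ := σ.trans τ.symm with hρ
        have inj := ρ.injective
        have hn' : [ρ a, ρ b, ρ c, ρ d].Nodup := nodup4.mpr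
          ⟨inj.ne hab, inj.ne hac, inj.ne had, inj.ne hbc, inj.ne hbd, inj.ne hcd⟩
        rw [crosses_iff D a b c d hn, h a b c d hn]
        show _ ↔ D'.Crosses s(ρ a, ρ b) s(ρ c, ρ d)
        rw [crosses_iff D' _ _ _ _ hn', h' _ _ _ _ hn', hτ, hτ, hτ, hτ]

/-- There are at most fifteen classes. -/
theorem Tw_top_le : Tw (⊤ : SimpleGraph (Fin 5)) ≤ 15 := by
  classical
  let f : Quotient (weakSetoid (⊤ : SimpleGraph (Fin 5))) → Fin 15 := fun q =>
    ⟨(exists_rep q.out).choose, (exists_rep q.out).choose_spec.choose_spec.1⟩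
  have hf : Function.Injective f := by
    intro q q' hqq
    have hqq' : (exists_rep q.out).choose = (exists_rep q'.out).choose := congrArg Fin.val hqq
    obtain ⟨hi, hj, h⟩ := (exists_rep q.out).choose_spec.choose_spec
    obtain ⟨hi', hj', h'⟩ := (exists_rep q'.out).choose_spec.choose_spec
    have hw : WeakIso q.out q'.out := weakIso_of_rep q.out q'.out hqq' hj hj' h h'
    rw [← q.out_eq, ← q'.out_eq]
    exact Quotient.sound hw
  have := ENat.card_le_card_of_injective hf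
  unfold Tw
  refine this.trans ?_
  simp

end Pool.Agent.W_MP_6ffb05_co
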