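import Pool.Agent.W_MP_6ffb05_co.Straight
import Pool.Agent.W_MP_6ffb05_co.Upper

set_option autoImplicit false

open Set

namespace Pool.Agent.W_MP_6ffb05_co

/-- adjacency in the fan: a hub `0` joined to the path `3, 1, 2, 4` -/
def fanB (a b : Fin 5) : Bool :=
  a != b && (a == 0 || b == 0 || (a == 1 && b == 2) || (a == 2 && b == 1) || (a == 1 && b == 3) ||
    (a == 3 && b == 1) || (a == 2 && b == 4) || (a == 4 && b == 2))

lemma fanB_symm : ∀ a b : Fin 5, fanB a b = fanB b a := by decide +kernel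

lemma fanB_irrefl : ∀ a : Fin 5, fanB a a = false := by decide +kernel

/-- the fan -/
def fan : SimpleGraph (Fin 5) where
  Adj a b := fanB a b = true
  symm := ⟨fun a b h => by rw [fanB_symm]; exact h⟩
  loopless := ⟨fun a h => by rw [fanB_irrefl] at h; exact absurd h (by decide)⟩

/-- seventeen configurations of five points -/
def cfg : Fin 17 → Fin 5 → ℤ × ℤ := ![![(0, 0), (3, 2), (1, 3), (2, 0), (-1, 2)],
    ![(0, 0), (4, 4), (0, 4), (4, 0), (2, 1)],
    ![(0, 0), (2, 0), (1, 3), (3, 2), (-1, 2)],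
    ![(0, 0), (4, 0), (2, 1), (4, 4), (0, 4)],
    ![(9, 0), (0, 0), (0, 9), (3, 4), (2, 1)],
    ![(0, 0), (2, 0), (3, 2), (-1, 2), (1, 3)],
    ![(0, 0), (4, 0), (4, 4), (0, 4), (2, 1)],
    ![(0, 0), (4, 0), (0, 4), (4, 4), (2, 1)],
    ![(0, 0), (2, 0), (-1, 2), (3, 2), (1, 3)],
    ![(0, 0), (4, 0), (2, 1), (0, 4), (4, 4)],
    ![(0, 0), (3, 2), (1, 3), (-1, 2), (2, 0)],
    ![(0, 0), (2, 0), (1, 3), (-1, 2), (3, 2)],
    ![(0, 0), (2, 0), (3, 2), (1, 3), (-1, 2)],
    ![(4, 4), (4, 0), (0, 4), (0, 0), (2, 1)],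
    ![(0, 0), (0, 4), (2, 1), (4, 0), (4, 4)],
    ![(2, 1), (0, 0), (4, 0), (4, 4), (0, 4)],
    ![(0, 0), (2, 0), (-1, 2), (1, 3), (3, 2)]]

lemma cfg_genPos : ∀ i : Fin 17, ∀ a b c : Fin 5, a ≠ b → a ≠ c → b ≠ c →
    orz (cfg i a) (cfg i b) (cfg i c) ≠ 0 := by decide +kernel

lemma third : ∀ a b : Fin 5, ∃ c, c ≠ a ∧ c ≠ b := by decide +kernel

/-- the straight line drawings of the fan -/
noncomputable def drw (i : Fin 17) : SimpleDrawing fan := straight fan (cfg i) (cfg_genPos i) third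

/-- the reflection of the fan -/
def sw : Fin 5 → Fin 5 := ![0, 2, 1, 4, 3]

lemma fan_auto : ∀ x0 x1 x2 x3 x4 : Fin 5, [x0, x1, x2, x3, x4].Nodup →
    (fanB x0 x1 && fanB x0 x2 && fanB x0 x3 && fanB x0 x4 && fanB x1 x2 && fanB x1 x3 &&
      fanB x2 x4) = true →
    [x0, x1, x2, x3, x4] = [0, 1, 2, 3, 4] ∨ [x0, x1, x2, x3, x4] = [0, 2, 1, 4, 3] := by
  decide +kernel

/-- the seven pairs of disjoint edges of the fan -/
def fq : Fin 7 → Fin 5 × Fin 5 × Fin 5 × Fin 5 :=
  ![(0, 1, 2, 4), (0, 2, 1, 3), (0, 3, 1, 2), (0, 3, 2, 4), (0, 4, 1, 2), (0, 4, 1, 3), (1, 3, 2, 4)]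

lemma fq_ok : ∀ k : Fin 7, fanB (fq k).1 (fq k).2.1 = true ∧ fanB (fq k).2.2.1 (fq k).2.2.2 = true ∧
    (fq k).1 ≠ (fq k).2.2.1 ∧ (fq k).1 ≠ (fq k).2.2.2 ∧ (fq k).2.1 ≠ (fq k).2.2.1 ∧
    (fq k).2.1 ≠ (fq k).2.2.2 := by decide +kernel

/-- crossing of the pair `k` in the configuration `i` after the vertex map `s` -/
def cc (i : Fin 17) (s : Fin 5 → Fin 5) (k : Fin 7) : Bool :=
  cz (cfg i (s (fq k).1)) (cfg i (s (fq k).2.1)) (cfg i (s (fq k).2.2.1)) (cfg i (s (fq k).2.2.2))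

lemma sep_id : ∀ i j : Fin 17, i ≠ j → ∃ k : Fin 7, cc i id k ≠ cc j id k := by decide +kernel

lemma sep_sw : ∀ i j : Fin 17, i ≠ j → ∃ k : Fin 7, cc i id k ≠ cc j sw k := by decide +kernel

lemma drw_not_iso (i j : Fin 17) (hij : i ≠ j) : ¬ WeakIso (drw i) (drw j) := by
  rintro ⟨τ, hτ⟩
  have inj : Function.Injective τ := τ.injective
  have adj : ∀ a b : Fin 5, fanB a b = true → fanB (τ a) (τ b) = true := by
    intro a b hab
    exact (SimpleGraph.Iso.map_adj_iff τ).mpr (show fan.Adj a b from hab)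
  have hτ' : (τ : Fin 5 → Fin 5) = id ∨ (τ : Fin 5 → Fin 5) = sw := by
    have := fan_auto (τ 0) (τ 1) (τ 2) (τ 3) (τ 4)
      (nodup5.mpr ⟨inj.ne (by decide), inj.ne (by decide), inj.ne (by decide), inj.ne (by decide),
        inj.ne (by decide), inj.ne (by decide), inj.ne (by decide), inj.ne (by decide),
        inj.ne (by decide), inj.ne (by decide)⟩)
      (by
        rw [adj 0 1 (by decide), adj 0 2 (by decide), adj 0 3 (by decide), adj 0 4 (by decide),
          adj 1 2 (by decide), adj 1 3 (by decide), adj 2 4 (by decide)]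
        rfl)
    simp only [List.cons.injEq, and_true] at this
    rcases this with ⟨h0, h1, h2, h3, h4⟩ | ⟨h0, h1, h2, h3, h4⟩
    · left
      funext a
      fin_cases a
      · exact h0
      · exact h1
      · exact h2
      · exact h3
      · exact h4
    · right
      funext a
      fin_cases a
      · exact h0
      · exact h1
      · exact h2
      · exact h3
      · exact h4
  have main : ∀ k : Fin 7, cc i id k = cc j (τ : Fin 5 → Fin 5) k := by
    intro k
    obtain ⟨k1, k2, k3, k4, k5, k6⟩ := fq_ok k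
    have a1 : fan.Adj (fq k).1 (fq k).2.1 := k1
    have a2 : fan.Adj (fq k).2.2.1 (fq k).2.2.2 := k2
    have hne : s((fq k).1, (fq k).2.1) ≠ s((fq k).2.2.1, (fq k).2.2.2) := by
      intro hh
      rw [Sym2.eq_iff] at hh
      rcases hh with ⟨h1, _⟩ | ⟨h1, _⟩
      · exact k3 h1
      · exact k4 h1
    have h1 := hτ s((fq k).1, (fq k).2.1) (fan.mem_edgeSet.mpr a1) s((fq k).2.2.1, (fq k).2.2.2)
      (fan.mem_edgeSet.mpr a2) hne
    have h2 := straight_crosses fan (cfg i) (cfg_genPos i) third a1 a2 k3 k4 k5 k6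
    have h3 := straight_crosses fan (cfg j) (cfg_genPos j) third
      ((SimpleGraph.Iso.map_adj_iff τ).mpr a1) ((SimpleGraph.Iso.map_adj_iff τ).mpr a2)
      (inj.ne k3) (inj.ne k4) (inj.ne k5) (inj.ne k6)
    rw [Sym2.map_mk, Sym2.map_mk] at h1
    have h4 : cc i id k = true ↔ cc j (τ : Fin 5 → Fin 5) k = true := h2.symm.trans (h1.trans h3)
    exact Bool.eq_iff_iff.mpr h4
  rcases hτ' with h | h
  · obtain ⟨k, hk⟩ := sep_id i j hij
    apply hk
    rw [main k, h]
  · obtain ⟨k, hk⟩ := sep_sw i j hij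
    apply hk
    rw [main k, h]

/-- There are at least seventeen classes of drawings of the fan. -/
theorem le_Tw_fan : 17 ≤ Tw fan := by
  have hf : Function.Injective (fun i : Fin 17 => (Quotient.mk (weakSetoid fan) (drw i))) := by
    intro i j hij
    by_contra hne
    exact drw_not_iso i j hne (Quotient.exact hij)
  have := ENat.card_le_card_of_injective hf
  unfold Tw
  refine le_trans ?_ this
  simp

/-- The complete graph on five vertices has fewer classes than the fan. -/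
theorem main : Tw (⊤ : SimpleGraph (Fin 5)) < Tw fan :=
  lt_of_le_of_lt Tw_top_le (lt_of_lt_of_le (by norm_num) le_Tw_fan)

end Pool.Agent.W_MP_6ffb05_co
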