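import Pool.Agent.W_MP_6ffb05_co.Ctx

set_option autoImplicit false

open Set Topology unitInterval Filter

namespace Pool.Agent.W_MP_6ffb05_co

variable {V : Type} {G : SimpleGraph V} {D : SimpleDrawing G}

namespace Ctx

variable {a b c d : V} {x : ℂ} {XA XB XC XD : Set ℂ}

/-- `chi` takes the same value at `a` and `d`. -/
lemma link (h : Ctx D a b c d x XA XB XC XD) (hbc : G.Adj b c) (C : Chain)
    (h0 : C.γ 0 '' Icc 0 1 = XB) (h1 : C.γ 1 '' Icc 0 1 = D.arc s(b, c)) (h2 : C.γ 2 '' Icc 0 1 = XC) :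
    C.chi (D.pt a) = C.chi (D.pt d) := by
  have hK : ∀ z, z ∈ C.K ↔ z ∈ XB ∨ z ∈ D.arc s(b, c) ∨ z ∈ XC := by
    intro z
    unfold Chain.K
    rw [mem_iUnion]
    constructor
    · rintro ⟨i, hi⟩
      fin_cases i
      · left; rw [← h0]; exact hi
      · right; left; rw [← h1]; exact hi
      · right; right; rw [← h2]; exact hi
    · rintro (hz | hz | hz)
      · exact ⟨0, by rw [h0]; exact hz⟩
      · exact ⟨1, by rw [h1]; exact hz⟩
      · exact ⟨2, by rw [h2]; exact hz⟩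
  have hEab := G.mem_edgeSet.mpr h.adj_ab
  have hEcd := G.mem_edgeSet.mpr h.adj_cd
  have hEbc := G.mem_edgeSet.mpr hbc
  have hx1 := h.x_ab
  have hx2 := h.x_cd
  -- x is not on bc
  have hxbc : x ∉ D.arc s(b, c) := by
    intro hm
    exact h.xnv b (D.eq_pt_of_mem hEab hEbc h.ab_ne_bc (by simp) (by simp) hx1 hm)
  -- the half edge XA minus x avoids K
  have hAK : ∀ z ∈ XA, z ≠ x → z ∉ C.K := by
    intro z hz hzx hm
    rcases (hK z).mp hm with h3 | h3 | h3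
    · have : z ∈ XA ∩ XB := ⟨hz, h3⟩
      rw [h.iAB] at this
      exact hzx this
    · have h4 := D.eq_pt_of_mem hEab hEbc h.ab_ne_bc (w := b) (by simp) (by simp) (h.A_sub hz) h3
      have h5 : z ∈ XA ∩ XB := ⟨hz, by rw [h4]; exact h.jB.left_mem⟩
      rw [h.iAB] at h5
      exact hzx h5
    · exact hzx (h.eq_x (h.A_sub hz) (h.C_sub h3))
  have hDK : ∀ z ∈ XD, z ≠ x → z ∉ C.K := by
    intro z hz hzx hm
    rcases (hK z).mp hm with h3 | h3 | h3
    · exact hzx (h.eq_x (h.B_sub h3) (h.D_sub hz))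
    · have h4 := D.eq_pt_of_mem hEbc hEcd h.bc_ne_cd (w := c) (by simp) (by simp) h3 (h.D_sub hz)
      have h5 : z ∈ XC ∩ XD := ⟨by rw [h4]; exact h.jC.left_mem, hz⟩
      rw [h.iCD] at h5
      exact hzx h5
    · have : z ∈ XC ∩ XD := ⟨h3, hz⟩
      rw [h.iCD] at this
      exact hzx this
  obtain ⟨α, hαc, hαi, hα0, hα1, hαim⟩ := h.jA
  obtain ⟨β, hβc, hβi, hβ0, hβ1, hβim⟩ := h.jD
  have hαx : ∀ t ∈ Ico (0:ℝ) 1, α t ≠ x := by
    intro t ht he
    rw [← hα1] at he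
    have := hαi ⟨ht.1, ht.2.le⟩ one_mem_I he
    linarith [ht.2]
  have hβx : ∀ t ∈ Ico (0:ℝ) 1, β t ≠ x := by
    intro t ht he
    rw [← hβ1] at he
    have := hβi ⟨ht.1, ht.2.le⟩ one_mem_I he
    linarith [ht.2]
  have hαK : ∀ t ∈ Ico (0:ℝ) 1, α t ∉ C.K := fun t ht =>
    hAK _ (hαim ▸ ⟨t, ⟨ht.1, ht.2.le⟩, rfl⟩) (hαx t ht)
  have hβK : ∀ t ∈ Ico (0:ℝ) 1, β t ∉ C.K := fun t ht =>
    hDK _ (hβim ▸ ⟨t, ⟨ht.1, ht.2.le⟩, rfl⟩) (hβx t ht)
  have c1 : ∀ t ∈ Ico (0:ℝ) 1, C.chi (D.pt a) = C.chi (α t) := by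
    intro t ht
    rw [← hα0]
    exact C.chi_const_path α isPreconnected_Ico (hαc.mono Ico_subset_Icc_self) hαK
      ⟨le_rfl, zero_lt_one⟩ ht
  have c2 : ∀ t ∈ Ico (0:ℝ) 1, C.chi (D.pt d) = C.chi (β t) := by
    intro t ht
    rw [← hβ0]
    exact C.chi_const_path β isPreconnected_Ico (hβc.mono Ico_subset_Icc_self) hβK
      ⟨le_rfl, zero_lt_one⟩ ht
  -- local structure at x
  obtain ⟨φ, hxs, hφx, hφ⟩ := D.proper_of_mem hEab hEcd h.ne_edges hx1 hx2 h.xnv
  have hsx : φ.symm 0 = x := by rw [← hφx, φ.left_inv hxs]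
  have h0t : (0:ℂ) ∈ φ.target := by rw [← hφx]; exact φ.map_source hxs
  have hbcc : IsClosed (D.arc s(b, c)) := (D.isArc b c hbc).isCompact.isClosed
  have hev : ∀ᶠ v in 𝓝 (0:ℂ), v ∈ φ.target ∧ φ.symm v ∉ D.arc s(b, c) := by
    have hcs : ContinuousAt φ.symm 0 := φ.continuousAt_symm h0t
    have h6 : φ.symm ⁻¹' (D.arc s(b, c))ᶜ ∈ 𝓝 (0:ℂ) := by
      apply hcs.preimage_mem_nhds
      rw [hsx]
      exact hbcc.isOpen_compl.mem_nhds hxbc
    filter_upwards [φ.open_target.mem_nhds h0t, h6] with v p1 p2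
    exact ⟨p1, p2⟩
  obtain ⟨R, hR, hRb⟩ := Metric.eventually_nhds_iff_ball.mp hev
  -- choose t near 1 for α and β
  have near : ∀ γ : ℝ → ℂ, ContinuousOn γ (Icc 0 1) → γ 1 = x →
      ∃ t ∈ Ico (0:ℝ) 1, γ t ∈ φ.source ∧ φ (γ t) ∈ Metric.ball (0:ℂ) R := by
    intro γ hγ hγ1
    have hcw : Tendsto γ (𝓝[<] 1) (𝓝 x) := by
      have h7 := (hγ 1 one_mem_I).tendsto
      rw [hγ1] at h7
      apply h7.mono_left
      have : 𝓝[<] (1:ℝ) = 𝓝[Ico 0 1] 1 := (nhdsWithin_Ico_eq_nhdsLT zero_lt_one).symm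
      rw [this]
      exact nhdsWithin_mono _ Ico_subset_Icc_self
    have e1 : ∀ᶠ t in 𝓝[<] (1:ℝ), γ t ∈ φ.source := hcw.eventually (φ.open_source.mem_nhds hxs)
    have e2 : ∀ᶠ t in 𝓝[<] (1:ℝ), φ (γ t) ∈ Metric.ball (0:ℂ) R := by
      have h8 : Tendsto (fun t => φ (γ t)) (𝓝[<] 1) (𝓝 (φ x)) := (φ.continuousAt hxs).tendsto.comp hcw
      rw [hφx] at h8
      exact h8.eventually (Metric.ball_mem_nhds _ hR)
    have e3 : ∀ᶠ t in 𝓝[<] (1:ℝ), t ∈ Ico (0:ℝ) 1 := Ico_mem_nhdsLT zero_lt_one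
    obtain ⟨t, q1, q2, q3⟩ := (e1.and (e2.and e3)).exists
    exact ⟨t, q3, q1, q2⟩
  obtain ⟨t, ht, ht1, ht2⟩ := near α hαc hα1
  obtain ⟨r, hr, hr1, hr2⟩ := near β hβc hβ1
  rw [c1 t ht, c2 r hr]
  -- the connecting set
  have htA : α t ∈ D.arc s(a, b) := h.A_sub (hαim ▸ ⟨t, ⟨ht.1, ht.2.le⟩, rfl⟩)
  have hrD : β r ∈ D.arc s(c, d) := h.D_sub (hβim ▸ ⟨r, ⟨hr.1, hr.2.le⟩, rfl⟩)
  have him : (φ (α t)).im = 0 := ((hφ _ ht1).1).mp htA
  have hre : (φ (β r)).re = 0 := ((hφ _ hr1).2).mp hrD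
  have hre' : (φ (α t)).re ≠ 0 := by
    intro h9
    apply hαx t ht
    have : φ (α t) = 0 := Complex.ext h9 him
    rw [← φ.left_inv ht1, this, hsx]
  have him' : (φ (β r)).im ≠ 0 := by
    intro h9
    apply hβx r hr
    have : φ (β r) = 0 := Complex.ext hre h9
    rw [← φ.left_inv hr1, this, hsx]
  have hseg : segment ℝ (φ (α t)) (φ (β r)) ⊆ Metric.ball (0:ℂ) R :=
    (convex_ball 0 R).segment_subset ht2 hr2
  apply C.chi_const (S := φ.symm '' segment ℝ (φ (α t)) (φ (β r)))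
  · apply (convex_segment _ _).isPreconnected.image
    exact φ.continuousOn_symm.mono (fun v hv => (hRb v (hseg hv)).1)
  · rintro _ ⟨w, hw, rfl⟩ hm
    have hwt := (hRb w (hseg hw)).1
    have hws : φ.symm w ∈ φ.source := φ.map_target hwt
    have hwr : φ (φ.symm w) = w := φ.right_inv hwt
    rw [segment_eq_image] at hw
    obtain ⟨θ, hθ, rfl⟩ := hw
    have hrew : ((1 - θ) • φ (α t) + θ • φ (β r)).re = (1 - θ) * (φ (α t)).re := by
      simp [hre]
    have himw : ((1 - θ) • φ (α t) + θ • φ (β r)).im = θ * (φ (β r)).im := by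
      simp [him]
    have case1 : φ.symm ((1 - θ) • φ (α t) + θ • φ (β r)) ∈ D.arc s(a, b) → False := by
      intro h10
      have h11 := ((hφ _ hws).1).mp h10
      rw [hwr, himw] at h11
      rcases mul_eq_zero.mp h11 with h12 | h12
      · subst h12
        have e : (1 - (0:ℝ)) • φ (α t) + (0:ℝ) • φ (β r) = φ (α t) := by simp
        have hm' : φ.symm ((1 - (0:ℝ)) • φ (α t) + (0:ℝ) • φ (β r)) ∈ C.K := hm
        rw [e, φ.left_inv ht1] at hm'
        exact hαK t ht hm'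
      · exact him' h12
    have case2 : φ.symm ((1 - θ) • φ (α t) + θ • φ (β r)) ∈ D.arc s(c, d) → False := by
      intro h10
      have h11 := ((hφ _ hws).2).mp h10
      rw [hwr, hrew] at h11
      rcases mul_eq_zero.mp h11 with h12 | h12
      · have h13 : θ = 1 := by linarith
        subst h13
        have e : (1 - (1:ℝ)) • φ (α t) + (1:ℝ) • φ (β r) = φ (β r) := by simp
        have hm' : φ.symm ((1 - (1:ℝ)) • φ (α t) + (1:ℝ) • φ (β r)) ∈ C.K := hm
        rw [e, φ.left_inv hr1] at hm'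
        exact hβK r hr hm'
      · exact hre' h12
    rcases (hK _).mp hm with h3 | h3 | h3
    · exact case1 (h.B_sub h3)
    · exact (hRb _ (hseg (by rw [segment_eq_image]; exact ⟨θ, hθ, rfl⟩))).2 h3
    · exact case2 (h.C_sub h3)
  · exact ⟨φ (α t), left_mem_segment _ _ _, φ.left_inv ht1⟩
  · exact ⟨φ (β r), right_mem_segment _ _ _, φ.left_inv hr1⟩

/-- indicator of crossing -/
lemma ind_le_one (A B : Set ℂ) : ind A B ≤ 1 := by
  unfold ind; split_ifs <;> norm_num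

/-- A four-cycle has no two crossing pairs of opposite edges. -/
lemma no_two (h : Ctx D a b c d x XA XB XC XD) (hbc : G.Adj b c) (hda : G.Adj d a) :
    ¬ (D.arc s(d, a) ∩ D.arc s(b, c)).Nonempty := by
  intro hne
  have hEab := G.mem_edgeSet.mpr h.adj_ab
  have hEcd := G.mem_edgeSet.mpr h.adj_cd
  have hEda := G.mem_edgeSet.mpr hda
  obtain ⟨C, hCi, h0, h1, h2, e0, e1, e2⟩ := h.chain hbc
  have hlink := h.link hbc C h0 h1 h2
  have hda_ab : s(d, a) ≠ s(a, b) := by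
    intro he
    rw [Sym2.eq_iff] at he
    rcases he with ⟨p1, p2⟩ | ⟨p1, p2⟩
    · exact h.had p1.symm
    · exact h.hbd p1.symm
  have hda_cd : s(d, a) ≠ s(c, d) := by
    intro he
    rw [Sym2.eq_iff] at he
    rcases he with ⟨p1, p2⟩ | ⟨p1, p2⟩
    · exact h.had p2
    · exact h.hac p2
  have hx : x ∉ D.arc s(d, a) := by
    intro hm
    exact h.xnv a (D.eq_pt_of_mem hEda hEab hda_ab (by simp) (by simp) hm h.x_ab)
  have key := h.edge hbc C hCi h0 h1 h2 e0 e1 e2 d a hda h.hbd.symm h.adj_cd.ne.symm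
    h.adj_ab.ne h.hac hx
  have i1 : ind (D.arc s(d, a)) XB = 0 := by
    apply ind_zero
    intro z hz hz'
    have := D.eq_pt_of_mem hEda hEab hda_ab (w := a) (by simp) (by simp) hz (h.B_sub hz')
    rw [this] at hz'
    exact h.a_notMem_B hz'
  have i3 : ind (D.arc s(d, a)) XC = 0 := by
    apply ind_zero
    intro z hz hz'
    have h4 := D.eq_pt_of_mem hEda hEcd hda_cd (w := d) (by simp) (by simp) hz (h.C_sub hz')
    have h5 : z ∈ XC ∩ XD := ⟨hz', by rw [h4]; exact h.jD.left_mem⟩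
    rw [h.iCD] at h5
    have h6 : z = x := h5
    exact h.xnv d (by rw [← h6, h4])
  have i2 : ind (D.arc s(d, a)) (D.arc s(b, c)) = 1 := by
    unfold ind; rw [if_pos hne]
  rw [i1, i2, i3, hlink] at key
  have hdK : D.pt d ∉ C.K := by
    intro hm
    obtain ⟨i, hi⟩ := mem_iUnion.mp hm
    fin_cases i
    · have hi' : D.pt d ∈ C.γ 0 '' Icc 0 1 := hi
      rw [h0] at hi'
      have := D.mem_of_pt_mem hEab (h.B_sub hi')
      rw [Sym2.mem_iff] at this
      rcases this with p | p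
      · exact h.had p.symm
      · exact h.hbd p.symm
    · have hi' : D.pt d ∈ C.γ 1 '' Icc 0 1 := hi
      rw [h1] at hi'
      have := D.mem_of_pt_mem (G.mem_edgeSet.mpr hbc) hi'
      rw [Sym2.mem_iff] at this
      rcases this with p | p
      · exact h.hbd p.symm
      · exact h.adj_cd.ne p.symm
    · have hi' : D.pt d ∈ C.γ 2 '' Icc 0 1 := hi
      rw [h2] at hi'
      have h5 : D.pt d ∈ XC ∩ XD := ⟨hi', h.jD.left_mem⟩
      rw [h.iCD] at h5
      exact h.xnv d h5.symm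
  rcases C.chi_pm hdK with h7 | h7 <;> rw [h7] at key <;> norm_num at key

/-- The parity relation for a fifth vertex `e`. -/
lemma even_rel (h : Ctx D a b c d x XA XB XC XD) (hbc : G.Adj b c) (e : V) (hae : G.Adj a e)
    (hde : G.Adj d e) (heb : e ≠ b) (hec : e ≠ c) :
    Even (ind (D.arc s(a, e)) (D.arc s(b, c)) + ind (D.arc s(a, e)) XC +
      ind (D.arc s(d, e)) (D.arc s(b, c)) + ind (D.arc s(d, e)) XB) := by
  have hEab := G.mem_edgeSet.mpr h.adj_ab
  have hEcd := G.mem_edgeSet.mpr h.adj_cd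
  have hEae := G.mem_edgeSet.mpr hae
  have hEde := G.mem_edgeSet.mpr hde
  obtain ⟨C, hCi, h0, h1, h2, e0, e1, e2⟩ := h.chain hbc
  have hlink := h.link hbc C h0 h1 h2
  have hae_ab : s(a, e) ≠ s(a, b) := by
    intro he
    rw [Sym2.eq_iff] at he
    rcases he with ⟨p1, p2⟩ | ⟨p1, p2⟩
    · exact heb p2
    · exact h.adj_ab.ne p1
  have hde_cd : s(d, e) ≠ s(c, d) := by
    intro he
    rw [Sym2.eq_iff] at he
    rcases he with ⟨p1, p2⟩ | ⟨p1, p2⟩
    · exact h.adj_cd.ne p1.symm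
    · exact hec p2
  have hx1 : x ∉ D.arc s(a, e) := by
    intro hm
    exact h.xnv a (D.eq_pt_of_mem hEae hEab hae_ab (by simp) (by simp) hm h.x_ab)
  have hx2 : x ∉ D.arc s(d, e) := by
    intro hm
    exact h.xnv d (D.eq_pt_of_mem hEde hEcd hde_cd (by simp) (by simp) hm h.x_cd)
  have k1 := h.edge hbc C hCi h0 h1 h2 e0 e1 e2 a e hae h.adj_ab.ne h.hac heb hec hx1
  have k2 := h.edge hbc C hCi h0 h1 h2 e0 e1 e2 d e hde h.hbd.symm h.adj_cd.ne.symm heb hec hx2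
  have i1 : ind (D.arc s(a, e)) XB = 0 := by
    apply ind_zero
    intro z hz hz'
    have := D.eq_pt_of_mem hEae hEab hae_ab (w := a) (by simp) (by simp) hz (h.B_sub hz')
    rw [this] at hz'
    exact h.a_notMem_B hz'
  have i3 : ind (D.arc s(d, e)) XC = 0 := by
    apply ind_zero
    intro z hz hz'
    have h4 := D.eq_pt_of_mem hEde hEcd hde_cd (w := d) (by simp) (by simp) hz (h.C_sub hz')
    have h5 : z ∈ XC ∩ XD := ⟨hz', by rw [h4]; exact h.jD.left_mem⟩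
    rw [h.iCD] at h5
    have h6 : z = x := h5
    exact h.xnv d (by rw [← h6, h4])
  rw [i1] at k1
  rw [i3] at k2
  have haK : D.pt a ∉ C.K := by
    intro hm
    obtain ⟨i, hi⟩ := mem_iUnion.mp hm
    fin_cases i
    · have hi' : D.pt a ∈ C.γ 0 '' Icc 0 1 := hi
      rw [h0] at hi'
      exact h.a_notMem_B hi'
    · have hi' : D.pt a ∈ C.γ 1 '' Icc 0 1 := hi
      rw [h1] at hi'
      have := D.mem_of_pt_mem (G.mem_edgeSet.mpr hbc) hi'
      rw [Sym2.mem_iff] at this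
      rcases this with p | p
      · exact h.adj_ab.ne p
      · exact h.hac p
    · have hi' : D.pt a ∈ C.γ 2 '' Icc 0 1 := hi
      rw [h2] at hi'
      have := D.mem_of_pt_mem hEcd (h.C_sub hi')
      rw [Sym2.mem_iff] at this
      rcases this with p | p
      · exact h.hac p
      · exact h.had p
  have hne : C.chi (D.pt a) ≠ 0 := by
    rcases C.chi_pm haK with h7 | h7 <;> rw [h7] <;> norm_num
  rw [k1, ← hlink] at k2
  have k3 := mul_right_cancel₀ hne k2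
  set n1 := 0 + ind (D.arc s(a, e)) (D.arc s(b, c)) + ind (D.arc s(a, e)) XC with hn1
  set n2 := ind (D.arc s(d, e)) XB + ind (D.arc s(d, e)) (D.arc s(b, c)) + 0 with hn2
  have hev : Even (n1 + n2) := by
    rw [← neg_one_pow_eq_one_iff_even (R := ℂ) (by norm_num), pow_add, k3, ← pow_add, ← two_mul, pow_mul]
    norm_num
  have : ind (D.arc s(a, e)) (D.arc s(b, c)) + ind (D.arc s(a, e)) XC +
      ind (D.arc s(d, e)) (D.arc s(b, c)) + ind (D.arc s(d, e)) XB = n1 + n2 := by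
    rw [hn1, hn2]; ring
  rw [this]
  exact hev

end Ctx

end Pool.Agent.W_MP_6ffb05_co
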