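import Mathlib

set_option autoImplicit false

open Set Topology unitInterval

namespace Pool.Agent.W_MP_6ffb05_co

/-- Homotopy lifting, in the form needed here. -/
lemma lift_sqrt {A : Type*} [TopologicalSpace A] (H : C(I × A, ℂ)) (hne : ∀ x, H x ≠ 0) (c : ℂ)
    (h0 : ∀ a, H (0, a) = c) (hc : c ≠ 0) : ∃ g : C(A, ℂ), ∀ a, g a ^ 2 = H (1, a) := by
  let H' : C(I × A, {z : ℂ // z ≠ 0}) := ⟨fun x => ⟨H x, hne x⟩, by fun_prop⟩
  let f : C(A, ℂ) := ContinuousMap.const A (Complex.log c)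
  have H_0 : ∀ a, H' (0, a) = (fun z : ℂ ↦ (⟨_, z.exp_ne_zero⟩ : {z : ℂ // z ≠ 0})) (f a) := by
    intro a
    apply Subtype.ext
    show H (0, a) = Complex.exp (Complex.log c)
    rw [h0, Complex.exp_log hc]
  let L := Complex.isCoveringMap_exp.liftHomotopy H' f H_0
  have hL := Complex.isCoveringMap_exp.liftHomotopy_lifts H' f H_0
  refine ⟨⟨fun a => Complex.exp (L (1, a) / 2), by fun_prop⟩, fun a => ?_⟩
  have h1 := congrArg Subtype.val (congr_fun hL (1, a))
  have h2 : Complex.exp (L (1, a)) = H (1, a) := h1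
  show Complex.exp (L (1, a) / 2) ^ 2 = H (1, a)
  rw [← h2, ← Complex.exp_nat_mul]
  congr 1
  push_cast
  ring

lemma exists_sqrt_Icc (f : ℝ → ℂ) (hf : ContinuousOn f (Icc 0 1)) (hne : ∀ t ∈ Icc (0:ℝ) 1, f t ≠ 0) :
    ∃ g : ℝ → ℂ, ContinuousOn g (Icc 0 1) ∧ ∀ t ∈ Icc (0:ℝ) 1, g t ^ 2 = f t := by
  have hcont : Continuous (fun t : I => f t) := continuousOn_iff_continuous_domRestrict.mp hf
  let H : C(I × I, ℂ) := ⟨fun x => f ((x.1 * x.2 : I) : ℝ), hcont.comp (by fun_prop)⟩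
  obtain ⟨g, hg⟩ := lift_sqrt H (fun x => hne _ (x.1 * x.2 : I).2) (f 0)
    (fun a => by show f ((0 * a : I) : ℝ) = f 0; simp) (hne 0 (by simp))
  refine ⟨fun t => g (projIcc 0 1 zero_le_one t), ?_, fun t ht => ?_⟩
  · exact (g.continuous.comp continuous_projIcc).continuousOn
  · show g (projIcc 0 1 zero_le_one t) ^ 2 = f t
    rw [hg, projIcc_of_mem zero_le_one ht]
    show f ((1 * (⟨t, ht⟩ : I) : I) : ℝ) = f t
    rw [one_mul]

lemma exists_sqrt_convex (V : Set ℂ) (hV : Convex ℝ V) (h0 : (0:ℂ) ∈ V) (F : ℂ → ℂ)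
    (hF : ContinuousOn F V) (hne : ∀ v ∈ V, F v ≠ 0) :
    ∃ k : ℂ → ℂ, ContinuousOn k V ∧ ∀ v ∈ V, k v ^ 2 = F v := by
  classical
  have hmem : ∀ (s : I) (v : V), ((s : ℝ) • (v : ℂ)) ∈ V := by
    intro s v
    have := hV v.2 h0 s.2.1 (show (0:ℝ) ≤ 1 - s by linarith [s.2.2]) (by ring)
    simpa using this
  have hcont : Continuous (fun v : V => F v) := continuousOn_iff_continuous_domRestrict.mp hF
  let H : C(I × V, ℂ) := ⟨fun x => F (((x.1 : ℝ)) • (x.2 : ℂ)), by
    have h1 : Continuous (fun x : I × V => (⟨((x.1 : ℝ)) • (x.2 : ℂ), hmem x.1 x.2⟩ : V)) := by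
      apply Continuous.subtype_mk
      fun_prop
    exact hcont.comp h1⟩
  obtain ⟨g, hg⟩ := lift_sqrt H (fun x => hne _ (hmem x.1 x.2)) (F 0)
    (fun a => by show F ((((0:I) : ℝ)) • (a : ℂ)) = F 0; simp) (hne 0 h0)
  refine ⟨fun v => if h : v ∈ V then g ⟨v, h⟩ else 0, ?_, fun v hv => ?_⟩
  · rw [continuousOn_iff_continuous_domRestrict]
    have : V.domRestrict (fun v => if h : v ∈ V then g ⟨v, h⟩ else 0) = fun v => g v := by
      ext v; simp [Set.domRestrict]
    rw [this]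
    exact g.continuous
  · simp only [hv, dif_pos]
    rw [hg]
    show F ((((1:I) : ℝ)) • v) = F v
    simp

lemma exists_sqrt_compl (c : C(I, ℂ)) :
    ∃ h : ℂ → ℂ, ContinuousOn h (range c)ᶜ ∧ ∀ z ∈ (range c)ᶜ, h z ^ 2 = (z - c 1) / (z - c 0) := by
  classical
  have hne : ∀ (s : I) (z : ((range c)ᶜ : Set ℂ)), (z : ℂ) - c s ≠ 0 := by
    intro s z h
    apply z.2
    exact ⟨s, (sub_eq_zero.mp h).symm⟩
  let H : C(I × ((range c)ᶜ : Set ℂ), ℂ) := ⟨fun x => ((x.2 : ℂ) - c x.1) / ((x.2 : ℂ) - c 0), by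
    apply Continuous.div
    · fun_prop
    · fun_prop
    · intro x; exact hne 0 x.2⟩
  obtain ⟨g, hg⟩ := lift_sqrt H (fun x => div_ne_zero (hne _ _) (hne _ _)) 1
    (fun a => by show ((a : ℂ) - c 0) / ((a : ℂ) - c 0) = 1; exact div_self (hne _ _)) one_ne_zero
  refine ⟨fun v => if h : v ∈ (range c)ᶜ then g ⟨v, h⟩ else 0, ?_, fun v hv => ?_⟩
  · rw [continuousOn_iff_continuous_domRestrict]
    have : (range c)ᶜ.domRestrict (fun v => if h : v ∈ (range c)ᶜ then g ⟨v, h⟩ else 0) = fun v => g v := by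
      ext v
      have hv : (v : ℂ) ∈ (range c)ᶜ := v.2
      show (if h : (v:ℂ) ∈ (range c)ᶜ then g ⟨v, h⟩ else 0) = g v
      rw [dif_pos hv]
    rw [this]
    exact g.continuous
  · simp only [hv, dif_pos]
    rw [hg]
    rfl

/-- uniqueness of continuous square roots up to sign -/
lemma sqrt_unique {X : Type*} [TopologicalSpace X] {S : Set X} (hS : IsPreconnected S) {f g : X → ℂ}
    (hf : ContinuousOn f S) (hg : ContinuousOn g S) (hsq : ∀ x ∈ S, f x ^ 2 = g x ^ 2)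
    (hne : ∀ x ∈ S, g x ≠ 0) : ∃ ε : ℂ, (ε = 1 ∨ ε = -1) ∧ ∀ x ∈ S, f x = ε * g x := by
  rcases hS.eq_or_eq_neg_of_sq_eq hf hg (fun x hx => hsq x hx) (fun {x} hx => hne x hx) with h | h
  · exact ⟨1, Or.inl rfl, fun x hx => by rw [one_mul]; exact h hx⟩
  · exact ⟨-1, Or.inr rfl, fun x hx => by rw [neg_one_mul]; exact h hx⟩

/-- There is no continuous square root of `z - p2` around `p2`; here in the form needed. -/
lemma no_sqrt (p1 p2 : ℂ) (hp : p1 ≠ p2) (h : ℂ → ℂ) (hc : ContinuousOn h {p1, p2}ᶜ)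
    (hsq : ∀ z, z ≠ p1 → z ≠ p2 → h z ^ 2 = (z - p2) / (z - p1)) : False := by
  set d : ℂ := p2 - p1 with hd
  have hd0 : d ≠ 0 := sub_ne_zero.mpr (Ne.symm hp)
  set ρ : ℝ := ‖d‖ / 2 with hρ
  have hdn : 0 < ‖d‖ := norm_pos_iff.mpr hd0
  have hρ0 : 0 < ρ := by positivity
  let z : ℝ → ℂ := fun θ => p2 + ρ * Complex.exp (θ * Complex.I)
  let w : ℝ → ℂ := fun θ => 1 + ρ * Complex.exp (θ * Complex.I) / d
  have hzc : Continuous z := by fun_prop
  have hwc : Continuous w := by fun_prop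
  have hexp : ∀ θ : ℝ, ‖Complex.exp (θ * Complex.I)‖ = 1 := Complex.norm_exp_ofReal_mul_I
  have hz2 : ∀ θ, z θ ≠ p2 := by
    intro θ h
    have : (ρ : ℂ) * Complex.exp (θ * Complex.I) = 0 := by
      have := sub_eq_zero.mpr h
      simpa [z] using this
    have h2 := congrArg norm this
    rw [norm_mul, hexp, Complex.norm_real, norm_zero, mul_one, Real.norm_of_nonneg hρ0.le] at h2
    linarith
  have hwn : ∀ θ : ℝ, ‖ρ * Complex.exp (θ * Complex.I) / d‖ = 1/2 := by
    intro θ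
    rw [norm_div, norm_mul, hexp, Complex.norm_real, Real.norm_of_nonneg hρ0.le, hρ]
    field_simp
  have hwre : ∀ θ, 0 < (w θ).re := by
    intro θ
    have h1 := Complex.abs_re_le_norm (ρ * Complex.exp (θ * Complex.I) / d)
    rw [hwn] at h1
    have h2 := (abs_le.mp h1).1
    show 0 < (1 + ρ * Complex.exp (θ * Complex.I) / d).re
    rw [Complex.add_re, Complex.one_re]
    linarith
  have hzw : ∀ θ, z θ - p1 = d * w θ := by
    intro θ
    show p2 + ρ * Complex.exp (θ * Complex.I) - p1 = d * (1 + ρ * Complex.exp (θ * Complex.I) / d)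
    rw [mul_add, mul_div_cancel₀ _ hd0, mul_one, hd]; ring
  have hw0 : ∀ θ, w θ ≠ 0 := by
    intro θ h
    have := hwre θ
    rw [h] at this
    simp at this
  have hz1 : ∀ θ, z θ ≠ p1 := by
    intro θ h
    have := hzw θ
    rw [h, sub_self] at this
    exact (mul_ne_zero hd0 (hw0 θ)) this.symm
  -- square root of `ρ e^{iθ}`
  let G : ℝ → ℂ := fun θ => h (z θ) * Complex.exp (Complex.log (w θ) / 2) * Complex.exp (Complex.log d / 2)
  have hGc : Continuous G := by
    have h1 : Continuous (fun θ => h (z θ)) := by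
      rw [← continuousOn_univ]
      apply hc.comp hzc.continuousOn
      intro θ _
      simp only [mem_compl_iff, mem_insert_iff, mem_singleton_iff, not_or]
      exact ⟨hz1 θ, hz2 θ⟩
    have h2 : Continuous (fun θ => Complex.log (w θ)) := by
      apply Continuous.clog hwc
      intro θ
      left; exact hwre θ
    exact (h1.mul (Complex.continuous_exp.comp (h2.div_const 2))).mul continuous_const
  have hG2 : ∀ θ, G θ ^ 2 = ρ * Complex.exp (θ * Complex.I) := by
    intro θ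
    have e1 : G θ ^ 2 = h (z θ) ^ 2 * (Complex.exp (Complex.log (w θ) / 2)) ^ 2 *
        (Complex.exp (Complex.log d / 2)) ^ 2 := by
      show (_ * _ * _) ^ 2 = _
      ring
    have e2 : (Complex.exp (Complex.log (w θ) / 2)) ^ 2 = w θ := by
      rw [← Complex.exp_nat_mul]
      have : ((2:ℕ):ℂ) * (Complex.log (w θ) / 2) = Complex.log (w θ) := by push_cast; ring
      rw [this, Complex.exp_log (hw0 θ)]
    have e3 : (Complex.exp (Complex.log d / 2)) ^ 2 = d := by
      rw [← Complex.exp_nat_mul]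
      have : ((2:ℕ):ℂ) * (Complex.log d / 2) = Complex.log d := by push_cast; ring
      rw [this, Complex.exp_log hd0]
    rw [e1, e2, e3, hsq _ (hz1 θ) (hz2 θ), hzw]
    have e4 : z θ - p2 = ρ * Complex.exp (θ * Complex.I) := by
      show p2 + ρ * Complex.exp (θ * Complex.I) - p2 = _
      ring
    rw [e4]
    have := hw0 θ
    field_simp
  let G2 : ℝ → ℂ := fun θ => (√ρ : ℝ) * Complex.exp (θ * Complex.I / 2)
  have hG2c : Continuous G2 := by fun_prop
  have hG22 : ∀ θ, G2 θ ^ 2 = ρ * Complex.exp (θ * Complex.I) := by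
    intro θ
    show ((√ρ : ℝ) * Complex.exp (θ * Complex.I / 2)) ^ 2 = _
    rw [mul_pow, ← Complex.ofReal_pow, Real.sq_sqrt hρ0.le, ← Complex.exp_nat_mul]
    congr 2
    push_cast; ring
  have hG2ne : ∀ θ, G2 θ ≠ 0 := by
    intro θ
    apply mul_ne_zero
    · exact_mod_cast (Real.sqrt_pos.mpr hρ0).ne'
    · exact Complex.exp_ne_zero _
  obtain ⟨ε, hε, hGε⟩ := sqrt_unique (isPreconnected_univ (α := ℝ)) hGc.continuousOn hG2c.continuousOn
    (fun x _ => by rw [hG2, hG22]) (fun x _ => hG2ne x)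
  have hper : G (2 * Real.pi) = G 0 := by
    have hz : z (2 * Real.pi) = z 0 := by
      show p2 + ρ * Complex.exp (((2 * Real.pi : ℝ) : ℂ) * Complex.I) = p2 + ρ * Complex.exp (((0:ℝ):ℂ) * Complex.I)
      push_cast
      rw [Complex.exp_two_pi_mul_I]
      simp
    have hw : w (2 * Real.pi) = w 0 := by
      show 1 + ρ * Complex.exp (((2 * Real.pi : ℝ) : ℂ) * Complex.I) / d = 1 + ρ * Complex.exp (((0:ℝ):ℂ) * Complex.I) / d
      push_cast
      rw [Complex.exp_two_pi_mul_I]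
      simp
    show h (z (2 * Real.pi)) * Complex.exp (Complex.log (w (2 * Real.pi)) / 2) * _ = h (z 0) * Complex.exp (Complex.log (w 0) / 2) * _
    rw [hz, hw]
  have hneg : G2 (2 * Real.pi) = - G2 0 := by
    show (√ρ : ℝ) * Complex.exp (((2 * Real.pi : ℝ) : ℂ) * Complex.I / 2) = -((√ρ : ℝ) * Complex.exp (((0:ℝ):ℂ) * Complex.I / 2))
    have : ((2 * Real.pi : ℝ) : ℂ) * Complex.I / 2 = Real.pi * Complex.I := by push_cast; ring
    rw [this, Complex.exp_pi_mul_I]
    simp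
  have e1 := hGε (2 * Real.pi) (mem_univ _)
  have e2 := hGε 0 (mem_univ _)
  rw [hper, hneg, e2] at e1
  have hεne : ε ≠ 0 := by rcases hε with rfl | rfl <;> norm_num
  have : ε * G2 0 = 0 := by
    have : 2 * (ε * G2 0) = 0 := by linear_combination e1
    simpa using this
  exact (mul_ne_zero hεne (hG2ne 0)) this

end Pool.Agent.W_MP_6ffb05_co
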