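import Pool.Agent.W_MP_6ffb05_co.Line

set_option autoImplicit false

open Set

namespace Pool.Agent.W_MP_6ffb05_co

/-- a lattice point as a point of the plane -/
noncomputable def zp (p : ℤ × ℤ) : ℂ := ⟨(p.1 : ℝ), (p.2 : ℝ)⟩

/-- orientation of three lattice points -/
def orz (p q r : ℤ × ℤ) : ℤ := (q.1 - p.1) * (r.2 - p.2) - (q.2 - p.2) * (r.1 - p.1)

lemma orr_zp (p q r : ℤ × ℤ) : orr (zp p) (zp q) (zp r) = (orz p q r : ℝ) := by
  unfold orr orz zp
  push_cast
  ring

/-- the two segments cross -/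
def cz (p q r s : ℤ × ℤ) : Bool :=
  decide (orz p q r * orz p q s < 0) && decide (orz r s p * orz r s q < 0)

lemma seg_unique {p q r s z w : ℂ} (hΔ : (q.re - p.re) * (s.im - r.im) - (q.im - p.im) * (s.re - r.re) ≠ 0)
    (h1 : z ∈ segment ℝ p q) (h2 : z ∈ segment ℝ r s) (h3 : w ∈ segment ℝ p q)
    (h4 : w ∈ segment ℝ r s) : z = w := by
  have e1 := seg_line h1
  have e2 := seg_line h2
  have e3 := seg_line h3
  have e4 := seg_line h4
  unfold orr at e1 e2 e3 e4
  have k1 : (q.re - p.re) * (z.im - w.im) - (q.im - p.im) * (z.re - w.re) = 0 := by linarith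
  have k2 : (s.re - r.re) * (z.im - w.im) - (s.im - r.im) * (z.re - w.re) = 0 := by linarith
  have m1 : ((q.re - p.re) * (s.im - r.im) - (q.im - p.im) * (s.re - r.re)) * (z.re - w.re) = 0 := by
    have : ((q.re - p.re) * (s.im - r.im) - (q.im - p.im) * (s.re - r.re)) * (z.re - w.re) =
      (s.re - r.re) * ((q.re - p.re) * (z.im - w.im) - (q.im - p.im) * (z.re - w.re)) -
      (q.re - p.re) * ((s.re - r.re) * (z.im - w.im) - (s.im - r.im) * (z.re - w.re)) := by ring
    rw [this, k1, k2]; ring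
  have m2 : ((q.re - p.re) * (s.im - r.im) - (q.im - p.im) * (s.re - r.re)) * (z.im - w.im) = 0 := by
    have : ((q.re - p.re) * (s.im - r.im) - (q.im - p.im) * (s.re - r.re)) * (z.im - w.im) =
      (s.im - r.im) * ((q.re - p.re) * (z.im - w.im) - (q.im - p.im) * (z.re - w.re)) -
      (q.im - p.im) * ((s.re - r.re) * (z.im - w.im) - (s.im - r.im) * (z.re - w.re)) := by ring
    rw [this, k1, k2]; ring
  apply Complex.ext
  · rcases mul_eq_zero.mp m1 with h | h
    · exact absurd h hΔ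
    · linarith
  · rcases mul_eq_zero.mp m2 with h | h
    · exact absurd h hΔ
    · linarith

lemma delta_ne {p q r s : ℂ} (h1 : orr p q r * orr p q s < 0) :
    (q.re - p.re) * (s.im - r.im) - (q.im - p.im) * (s.re - r.re) ≠ 0 := by
  intro h
  have e1 : orr p q s - orr p q r = (q.re - p.re) * (s.im - r.im) - (q.im - p.im) * (s.re - r.re) := by
    unfold orr; ring
  rw [h] at e1
  have : orr p q s = orr p q r := by linarith
  rw [this] at h1
  nlinarith [mul_self_nonneg (orr p q r)]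

/-- Two segments in general position with a common point. -/
lemma seg_meet {p q r s z : ℂ} (o1 : orr p q r ≠ 0) (o2 : orr p q s ≠ 0) (o3 : orr r s p ≠ 0)
    (o4 : orr r s q ≠ 0) (h1 : z ∈ segment ℝ p q) (h2 : z ∈ segment ℝ r s) :
    orr p q r * orr p q s < 0 ∧ orr r s p * orr r s q < 0 ∧
      (segment ℝ p q ∩ segment ℝ r s).Subsingleton ∧
      IsProperCrossing (segment ℝ p q) (segment ℝ r s) z := by
  have s1 := seg_cross_sign o1 o2 h1 h2
  have s2 := seg_cross_sign o3 o4 h2 h1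
  have hΔ := delta_ne s1
  refine ⟨s1, s2, fun z hz w hw => seg_unique hΔ hz.1 hz.2 hw.1 hw.2, ?_⟩
  obtain ⟨z', t, u, ht0, ht1, hu0, hu1, a1, a2, b1, b2⟩ := seg_cross_exists s1 s2
  have h1' : z' ∈ segment ℝ p q := mem_seg' ht0.le ht1.le a1 a2
  have h2' : z' ∈ segment ℝ r s := mem_seg' hu0.le hu1.le b1 b2
  have hz : z = z' := seg_unique hΔ h1 h2 h1' h2'
  rw [hz]
  exact seg_proper ht0 ht1 hu0 hu1 a1 a2 b1 b2 hΔ

variable {V : Type}

/-- the segment of an edge -/
noncomputable def segArc (P : V → ℤ × ℤ) : Sym2 V → Set ℂ :=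
  Sym2.lift ⟨fun u v => segment ℝ (zp (P u)) (zp (P v)), fun _ _ => segment_symm ℝ _ _⟩

@[simp] lemma segArc_mk (P : V → ℤ × ℤ) (u v : V) :
    segArc P s(u, v) = segment ℝ (zp (P u)) (zp (P v)) := rfl

/-- points in general position -/
def GenPos (P : V → ℤ × ℤ) : Prop := ∀ a b c : V, a ≠ b → a ≠ c → b ≠ c → orz (P a) (P b) (P c) ≠ 0

lemma GenPos.orr_ne {P : V → ℤ × ℤ} (h : GenPos P) {a b c : V} (h1 : a ≠ b) (h2 : a ≠ c) (h3 : b ≠ c) :
    orr (zp (P a)) (zp (P b)) (zp (P c)) ≠ 0 := by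
  rw [orr_zp]
  exact_mod_cast h a b c h1 h2 h3

/-- The straight line drawing of `G` on points in general position. -/
noncomputable def straight (G : SimpleGraph V) (P : V → ℤ × ℤ) (h : GenPos P)
    (h3 : ∀ a b : V, ∃ c, c ≠ a ∧ c ≠ b) : SimpleDrawing G where
  pt v := zp (P v)
  arc := segArc P
  pt_injective := by
    intro u v huv
    by_contra hne
    obtain ⟨c, hc1, hc2⟩ := h3 u v
    apply h.orr_ne hne hc1.symm hc2.symm
    have : zp (P u) = zp (P v) := huv
    rw [this]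
    unfold orr; ring
  isArc := by
    intro u v huv
    rw [segArc_mk]
    apply isJordanArc_segment
    intro heq
    obtain ⟨c, hc1, hc2⟩ := h3 u v
    apply h.orr_ne huv.ne hc1.symm hc2.symm
    rw [heq]
    unfold orr; ring
  avoids := by
    intro u v w huv hwu hwv hm
    rw [segArc_mk] at hm
    exact h.orr_ne huv.ne hwu.symm hwv.symm (seg_line hm)
  simple := by
    intro e he f hf hef
    by_cases hadj : ∃ w, w ∈ e ∧ w ∈ f
    · obtain ⟨w, hwe, hwf⟩ := hadj
      obtain ⟨x, rfl⟩ := Sym2.mem_iff_exists.mp hwe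
      obtain ⟨y, rfl⟩ := Sym2.mem_iff_exists.mp hwf
      rw [SimpleGraph.mem_edgeSet] at he hf
      have hxy : x ≠ y := fun hh => hef (by rw [hh])
      have key : ∀ z ∈ segArc P s(w, x) ∩ segArc P s(w, y), z = zp (P w) := by
        rintro z ⟨hz1, hz2⟩
        rw [segArc_mk] at hz1 hz2
        exact seg_adj (h.orr_ne he.ne hf.ne hxy) hz1 hz2
      refine ⟨fun z hz z' hz' => by rw [key z hz, key z' hz'], fun z hz => Or.inl ⟨w, ?_, ?_, key z hz⟩⟩
      · simp
      · simp
    · induction e with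
      | h a b =>
        induction f with
        | h c d =>
          rw [SimpleGraph.mem_edgeSet] at he hf
          have hac : a ≠ c := fun hh => hadj ⟨a, by simp, by simp [hh]⟩
          have had : a ≠ d := fun hh => hadj ⟨a, by simp, by simp [hh]⟩
          have hbc : b ≠ c := fun hh => hadj ⟨b, by simp, by simp [hh]⟩
          have hbd : b ≠ d := fun hh => hadj ⟨b, by simp, by simp [hh]⟩
          have o1 := h.orr_ne he.ne hac hbc
          have o2 := h.orr_ne he.ne had hbd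
          have o3 := h.orr_ne hf.ne hac.symm had.symm
          have o4 := h.orr_ne hf.ne hbc.symm hbd.symm
          refine ⟨fun z hz w hw => ?_, fun z hz => Or.inr ?_⟩
          · exact (seg_meet o1 o2 o3 o4 hz.1 hz.2).2.2.1 hz hw
          · exact (seg_meet o1 o2 o3 o4 hz.1 hz.2).2.2.2

lemma straight_crosses (G : SimpleGraph V) (P : V → ℤ × ℤ) (h : GenPos P)
    (h3 : ∀ a b : V, ∃ c, c ≠ a ∧ c ≠ b) {a b c d : V} (hab : G.Adj a b) (hcd : G.Adj c d)
    (hac : a ≠ c) (had : a ≠ d) (hbc : b ≠ c) (hbd : b ≠ d) :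
    (straight G P h h3).Crosses s(a, b) s(c, d) ↔ cz (P a) (P b) (P c) (P d) = true := by
  have o1 := h.orr_ne hab.ne hac hbc
  have o2 := h.orr_ne hab.ne had hbd
  have o3 := h.orr_ne hcd.ne hac.symm had.symm
  have o4 := h.orr_ne hcd.ne hbc.symm hbd.symm
  unfold cz
  rw [Bool.and_eq_true, decide_eq_true_iff, decide_eq_true_iff]
  have c1 : orz (P a) (P b) (P c) * orz (P a) (P b) (P d) < 0 ↔
      orr (zp (P a)) (zp (P b)) (zp (P c)) * orr (zp (P a)) (zp (P b)) (zp (P d)) < 0 := by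
    rw [orr_zp, orr_zp]
    exact_mod_cast Iff.rfl
  have c2 : orz (P c) (P d) (P a) * orz (P c) (P d) (P b) < 0 ↔
      orr (zp (P c)) (zp (P d)) (zp (P a)) * orr (zp (P c)) (zp (P d)) (zp (P b)) < 0 := by
    rw [orr_zp, orr_zp]
    exact_mod_cast Iff.rfl
  rw [c1, c2]
  constructor
  · rintro ⟨z, ⟨hz1, hz2⟩, _⟩
    have := seg_meet o1 o2 o3 o4 hz1 hz2
    exact ⟨this.1, this.2.1⟩
  · rintro ⟨s1, s2⟩
    obtain ⟨z', t, u, ht0, ht1, hu0, hu1, a1, a2, b1, b2⟩ := seg_cross_exists s1 s2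
    have h1' : z' ∈ segment ℝ (zp (P a)) (zp (P b)) := mem_seg' ht0.le ht1.le a1 a2
    have h2' : z' ∈ segment ℝ (zp (P c)) (zp (P d)) := mem_seg' hu0.le hu1.le b1 b2
    refine ⟨z', ⟨h1', h2'⟩, ?_⟩
    rintro v rfl
    have m1 := seg_line h1'
    have m2 := seg_line h2'
    by_cases hva : v = a
    · subst hva; exact o3 m2
    · by_cases hvb : v = b
      · subst hvb; exact o4 m2
      · exact h.orr_ne hab.ne (fun hh => hva hh.symm) (fun hh => hvb hh.symm) m1

end Pool.Agent.W_MP_6ffb05_co
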