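import Pool.Agent.W_MP_6ffb05_co.Quad

set_option autoImplicit false

open Set Topology unitInterval Filter

namespace Pool.Agent.W_MP_6ffb05_co

lemma ind_comm (A B : Set ℂ) : ind A B = ind B A := by
  unfold ind; rw [inter_comm]

lemma ind_split {F S1 S2 S : Set ℂ} {x : ℂ} (hS : S1 ∪ S2 = S) (hI : S1 ∩ S2 = {x}) (hx : x ∉ F)
    (hsub : (F ∩ S).Subsingleton) : ind F S1 + ind F S2 = ind F S := by
  have hx' : ∀ z, z ∈ F → z ∈ S1 → z ∈ S2 → False := by
    intro z h1 h2 h3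
    have : z ∈ S1 ∩ S2 := ⟨h2, h3⟩
    rw [hI] at this
    have h4 : z = x := this
    exact hx (h4 ▸ h1)
  unfold ind
  by_cases c1 : (F ∩ S1).Nonempty
  · obtain ⟨z, hz, hz1⟩ := c1
    have c2 : ¬ (F ∩ S2).Nonempty := by
      rintro ⟨w, hw, hw2⟩
      have : z = w := hsub ⟨hz, hS ▸ Or.inl hz1⟩ ⟨hw, hS ▸ Or.inr hw2⟩
      subst this
      exact hx' z hz hz1 hw2
    have c3 : (F ∩ S).Nonempty := ⟨z, hz, hS ▸ Or.inl hz1⟩
    rw [if_pos ⟨z, hz, hz1⟩, if_neg c2, if_pos c3]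
  · by_cases c2 : (F ∩ S2).Nonempty
    · obtain ⟨z, hz, hz2⟩ := c2
      have c3 : (F ∩ S).Nonempty := ⟨z, hz, hS ▸ Or.inr hz2⟩
      rw [if_neg c1, if_pos ⟨z, hz, hz2⟩, if_pos c3]
    · have c3 : ¬ (F ∩ S).Nonempty := by
        rintro ⟨z, hz, hzS⟩
        rw [← hS] at hzS
        rcases hzS with h | h
        · exact c1 ⟨z, hz, h⟩
        · exact c2 ⟨z, hz, h⟩
      rw [if_neg c1, if_neg c2, if_neg c3]

variable {V : Type} {G : SimpleGraph V} {D : SimpleDrawing G}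

namespace Ctx

variable {a b c d : V} {x : ℂ} {XA XB XC XD : Set ℂ}

lemma swap_pairs (h : Ctx D a b c d x XA XB XC XD) : Ctx D c d a b x XC XD XA XB where
  adj_ab := h.adj_cd
  adj_cd := h.adj_ab
  hac := h.hac.symm
  had := h.hbc.symm
  hbc := h.had.symm
  hbd := h.hbd.symm
  jA := h.jC
  jB := h.jD
  jC := h.jA
  jD := h.jB
  uAB := h.uCD
  iAB := h.iCD
  uCD := h.uAB
  iCD := h.iAB
  xnv := h.xnv

/-- splitting the edge `cd` seen from the edge `ae` -/
lemma split_cd (h : Ctx D a b c d x XA XB XC XD) (e : V) (hae : G.Adj a e) (heb : e ≠ b) :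
    ind (D.arc s(a, e)) XC + ind (D.arc s(a, e)) XD = ind (D.arc s(a, e)) (D.arc s(c, d)) := by
  have hEab := G.mem_edgeSet.mpr h.adj_ab
  have hEcd := G.mem_edgeSet.mpr h.adj_cd
  have hEae := G.mem_edgeSet.mpr hae
  have hne : s(a, e) ≠ s(a, b) := by
    intro he
    rw [Sym2.eq_iff] at he
    rcases he with ⟨p1, p2⟩ | ⟨p1, p2⟩
    · exact heb p2
    · exact h.adj_ab.ne p1
  have hne2 : s(a, e) ≠ s(c, d) := by
    intro he
    rw [Sym2.eq_iff] at he
    rcases he with ⟨p1, p2⟩ | ⟨p1, p2⟩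
    · exact h.hac p1
    · exact h.had p1
  have hx : x ∉ D.arc s(a, e) := by
    intro hm
    exact h.xnv a (D.eq_pt_of_mem hEae hEab hne (by simp) (by simp) hm h.x_ab)
  exact ind_split h.uCD h.iCD hx (D.simple _ hEae _ hEcd hne2).1

/-- The number of crossing pairs of edges with a fifth vertex `e` is even. -/
lemma total (h : Ctx D a b c d x XA XB XC XD) (hac : G.Adj a c) (had : G.Adj a d) (hbc : G.Adj b c)
    (hbd : G.Adj b d) (e : V) (hae : G.Adj a e) (hbe : G.Adj b e) (hce : G.Adj c e) (hde : G.Adj d e) :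
    Even (
      (ind (D.arc s(a, e)) (D.arc s(b, c)) + ind (D.arc s(a, e)) (D.arc s(b, d)) +
        ind (D.arc s(a, e)) (D.arc s(c, d))) +
      (ind (D.arc s(b, e)) (D.arc s(a, c)) + ind (D.arc s(b, e)) (D.arc s(a, d)) +
        ind (D.arc s(b, e)) (D.arc s(c, d))) +
      (ind (D.arc s(c, e)) (D.arc s(a, b)) + ind (D.arc s(c, e)) (D.arc s(a, d)) +
        ind (D.arc s(c, e)) (D.arc s(b, d))) +
      (ind (D.arc s(d, e)) (D.arc s(a, b)) + ind (D.arc s(d, e)) (D.arc s(a, c)) +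
        ind (D.arc s(d, e)) (D.arc s(b, c)))) := by
  have r1 := h.even_rel hbc e hae hde hbe.ne.symm hce.ne.symm
  have r2 := h.swap_ab.swap_cd.even_rel had e hbe hce hae.ne.symm hde.ne.symm
  have r3 := h.swap_ab.even_rel hac e hbe hde hae.ne.symm hce.ne.symm
  have r4 := h.swap_cd.even_rel hbd e hae hce hbe.ne.symm hde.ne.symm
  have s1 := h.split_cd e hae hbe.ne.symm
  have s2 := h.swap_ab.split_cd e hbe hae.ne.symm
  have s3 := h.swap_pairs.split_cd e hce hde.ne.symm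
  have s4 := h.swap_pairs.swap_ab.split_cd e hde hce.ne.symm
  rw [← s1, ← s2, ← s3, ← s4]
  rw [Nat.even_iff] at *
  omega

end Ctx

end Pool.Agent.W_MP_6ffb05_co
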